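import Pool.Agent.RX.RCM9.PkE

/-! Coded subdivision trees and checks of a box in several theorems. -/

set_option autoImplicit false

namespace Pool.Agent.RX.RCM9.Pk

open Bern

/-- decoding of a tree: digits base 8 in preorder, `4` is a leaf -/
def dec : ℕ → ℕ → Tree × ℕ
  | 0, c => (.leaf, c)
  | f + 1, c => bif Nat.beq (c % 8) 4 then (.leaf, c / 8) else
    (.split (c % 8) (dec f (c / 8)).1 (dec f (dec f (c / 8)).2).1, (dec f (dec f (c / 8)).2).2)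

/-- the tree of a code -/
def tr (c : ℕ) : Tree := (dec 64 c).1

/-- the check below a path -/
def chkAt (K : ℕ) (D : Dim) (T : Tree) : List (ℕ × Bool) → ℕ → ℕ → ℕ → Bool
  | [], P, Q, bd => chk K D T P Q bd
  | (k, false) :: ps, P, Q, bd =>
    Nat.ble (k + 1) 4 && (Nat.ble (bd * (D.L k * 3 ^ (D.L k - 1)) + 1) (2 ^ (K - 1)) &&
    chkAt K D T ps (opk K D k 1 0 1 2 P) (opk K D k 1 0 1 2 Q) (bd * (D.L k * 3 ^ (D.L k - 1))))
  | (k, true) :: ps, P, Q, bd =>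
    Nat.ble (k + 1) 4 && (Nat.ble (bd * (D.L k * 3 ^ (D.L k - 1)) + 1) (2 ^ (K - 1)) &&
    chkAt K D T ps (opk K D k 2 1 0 1 P) (opk K D k 2 1 0 1 Q) (bd * (D.L k * 3 ^ (D.L k - 1))))

def OKat (K : ℕ) (D : Dim) (ps : List (ℕ × Bool)) (P Q bd : ℕ) : Prop := ∃ T, chkAt K D T ps P Q bd = true

theorem OKat_merge {K : ℕ} {D : Dim} {ps : List (ℕ × Bool)} {P Q bd : ℕ} (k : ℕ) (h1 : OKat K D (ps ++ [(k, false)]) P Q bd)
    (h2 : OKat K D (ps ++ [(k, true)]) P Q bd) : OKat K D ps P Q bd := by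
  induction ps generalizing P Q bd with
  | nil =>
    obtain ⟨T1, h1⟩ := h1
    obtain ⟨T2, h2⟩ := h2
    refine ⟨.split k T1 T2, ?_⟩
    simp only [List.nil_append, chkAt, Bool.and_eq_true] at h1 h2
    simp only [chkAt, chk, Bool.and_eq_true]
    exact ⟨h1.1, h1.2.1, h1.2.2, h2.2.2⟩
  | cons p ps ih =>
    obtain ⟨j, b⟩ := p
    obtain ⟨T1, h1⟩ := h1
    obtain ⟨T2, h2⟩ := h2
    cases b with
    | false =>
      simp only [List.cons_append, chkAt, Bool.and_eq_true] at h1 h2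
      obtain ⟨T, hT⟩ := ih ⟨T1, h1.2.2⟩ ⟨T2, h2.2.2⟩
      refine ⟨T, ?_⟩
      simp only [chkAt, Bool.and_eq_true]
      exact ⟨h1.1, h1.2.1, hT⟩
    | true =>
      simp only [List.cons_append, chkAt, Bool.and_eq_true] at h1 h2
      obtain ⟨T, hT⟩ := ih ⟨T1, h1.2.2⟩ ⟨T2, h2.2.2⟩
      refine ⟨T, ?_⟩
      simp only [chkAt, Bool.and_eq_true]
      exact ⟨h1.1, h1.2.1, hT⟩

/-- the head of the check -/
def hdr (K : ℕ) (D : Dim) (e : E) : Bool :=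
  e.wf 4 && (Nat.ble 1 K && (Nat.ble (degE 0 e + 1) D.L0 && (Nat.ble (degE 1 e + 1) D.L1 && (Nat.ble (degE 2 e + 1) D.L2 &&
    (Nat.ble (degE 3 e + 1) D.L3 &&
    Nat.ble (bdC D ((nn (fun _ => 1) e).1 + (nn (fun _ => 1) e).2) + 1) (2 ^ (K - 1)))))))

/-- the box reached by a path is fine -/
def Box (K : ℕ) (D : Dim) (e : E) (ps : List (ℕ × Bool)) : Prop :=
  OKat K D ps (bernC K D (nn (bs K D) e).1) (bernC K D (nn (bs K D) e).2) (bdC D ((nn (fun _ => 1) e).1 + (nn (fun _ => 1) e).2))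

/-- the computable check of a box -/
def boxB (K : ℕ) (D : Dim) (e : E) (ps : List (ℕ × Bool)) (c : ℕ) : Bool :=
  chkAt K D (tr c) ps (bernC K D (nn (bs K D) e).1) (bernC K D (nn (bs K D) e).2) (bdC D ((nn (fun _ => 1) e).1 + (nn (fun _ => 1) e).2))

theorem Box.of {K : ℕ} {D : Dim} {e : E} {ps : List (ℕ × Bool)} (c : ℕ) (h : boxB K D e ps c = true) : Box K D e ps := ⟨_, h⟩

theorem Box.merge {K : ℕ} {D : Dim} {e : E} {ps : List (ℕ × Bool)} (k : ℕ) (h1 : Box K D e (ps ++ [(k, false)]))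
    (h2 : Box K D e (ps ++ [(k, true)])) : Box K D e ps := OKat_merge k h1 h2

theorem Box.pos {K : ℕ} {D : Dim} {e : E} (h : Box K D e []) (h0 : hdr K D e = true) (ρ : ℕ → ℝ)
    (hρ : ∀ i, 0 ≤ ρ i ∧ ρ i ≤ 1) : 0 ≤ e.val ρ := by
  obtain ⟨T, hT⟩ := h
  refine verify_pos (K := K) (D := D) (T := T) ?_ ρ hρ
  simp only [hdr, Bool.and_eq_true] at h0
  obtain ⟨a1, a2, a3, a4, a5, a6, a7⟩ := h0
  simp only [verify, Bool.and_eq_true]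
  exact ⟨a1, a2, a3, a4, a5, a6, a7, hT⟩

/-- the point with four coordinates -/
noncomputable def pt (x y z w : ℝ) : ℕ → ℝ
  | 0 => x
  | 1 => y
  | 2 => z
  | 3 => w
  | _ => 0

theorem pt_mem {x y z w : ℝ} (hx0 : 0 ≤ x) (hx1 : x ≤ 1) (hy0 : 0 ≤ y) (hy1 : y ≤ 1) (hz0 : 0 ≤ z) (hz1 : z ≤ 1)
    (hw0 : 0 ≤ w) (hw1 : w ≤ 1) : ∀ i, 0 ≤ pt x y z w i ∧ pt x y z w i ≤ 1 := by
  intro i
  unfold pt
  split
  · exact ⟨hx0, hx1⟩
  · exact ⟨hy0, hy1⟩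
  · exact ⟨hz0, hz1⟩
  · exact ⟨hw0, hw1⟩
  · exact ⟨le_rfl, zero_le_one⟩

theorem Box.pos4 {K : ℕ} {D : Dim} {e : E} (h : Box K D e []) (h0 : hdr K D e = true) {x y z w : ℝ}
    (hx0 : 0 ≤ x) (hx1 : x ≤ 1) (hy0 : 0 ≤ y) (hy1 : y ≤ 1) (hz0 : 0 ≤ z) (hz1 : z ≤ 1)
    (hw0 : 0 ≤ w) (hw1 : w ≤ 1) : 0 ≤ e.val (pt x y z w) :=
  h.pos h0 _ (pt_mem hx0 hx1 hy0 hy1 hz0 hz1 hw0 hw1)

end Pool.Agent.RX.RCM9.Pk
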