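import Mathlib

/-! A kernel checker for the nonnegativity of integer polynomials in several variables on the unit box
(nested lists of integers, Bernstein coefficients and bisection). -/

set_option autoImplicit false

namespace Pool.Agent.RX.RCM9.Bern

section ops

variable {β : Type}

end ops

section evL

variable {β : Type}

end evL

/-- subdivision trees -/
inductive Tree
  | leaf : Tree
  | split : ℕ → Tree → Tree → Tree

/-- expressions with rational constants `a / b` -/
inductive E
  | var : ℕ → E
  | num : ℤ → ℕ → E
  | add : E → E → E
  | sub : E → E → E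
  | mul : E → E → E
  | pow : E → ℕ → E

/-- the value -/
noncomputable def E.val (ρ : ℕ → ℝ) : E → ℝ
  | .var i => ρ i
  | .num a b => (a : ℝ) / (b : ℝ)
  | .add s t => s.val ρ + t.val ρ
  | .sub s t => s.val ρ - t.val ρ
  | .mul s t => s.val ρ * t.val ρ
  | .pow s k => s.val ρ ^ k

/-- well formed: variables below `n`, positive denominators -/
def E.wf (n : ℕ) : E → Bool
  | .var i => decide (i < n)
  | .num _ b => decide (0 < b)
  | .add s t => s.wf n && t.wf n
  | .sub s t => s.wf n && t.wf n
  | .mul s t => s.wf n && t.wf n
  | .pow s _ => s.wf n

end Pool.Agent.RX.RCM9.Bern
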