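import Pool.Agent.RX.RCM9.DW

/-! Certificates of `dW.Bd` (generated by gencert.py). -/

set_option autoImplicit false

namespace Pool.Agent.RX.RCM9.Dat

open Set Pool.Agent.RX.RCN.K Pool.Agent.RX.RCM9 Pool.Agent.RX.RCM9.Bern Pool.Agent.RX.RCM9.Pk

theorem cB_t10 : 0 < dW.t1 := by decide +kernel

theorem cB_t11 : dW.t1 < RCN.btq := by decide +kernel

theorem cB_rho0 : 0 ≤ dW.rho := by decide +kernel

theorem cB_th0 : 1 / 2 ≤ dW.th := by decide +kernel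

theorem cB_ST0 : 0 ≤ dW.ST := by decide +kernel

theorem cB_SP0 : 0 ≤ dW.SP := by decide +kernel

theorem cB_J1 : 0 < dW.Jeq := by decide +kernel

theorem cB_kap0 : ev dW.kapl 0 = 0 := by decide +kernel

theorem cB_kapp0 : ev dW.kappl 0 = 0 := by decide +kernel

theorem cB_Jp1 : ev dW.Jpl RCN.btq + (1 - RCN.btq) * ev dW.jp RCN.btq = dW.rho * dW.Jeq := by decide +kernel

theorem cB_F0 : ev dW.F 0 = 0 := by decide +kernel

theorem cB_F20 : ev dW.F2 0 = 0 := by decide +kernel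

theorem cB_F30 : ev dW.F3 0 = 0 := by decide +kernel

theorem cB_k10 : 0 ≤ dW.k1 := by decide +kernel

theorem cB_G0 : ev dW.G 0 = 0 := by decide +kernel

theorem cB_G1 : ev dW.G RCN.btq + (1 - RCN.btq) * ev dW.G' RCN.btq = 0 := by decide +kernel

theorem cB_Z0 : ev dW.Z 0 = 0 := by decide +kernel

theorem cB_F'0 : ev dW.F' 0 ≤ 0 := by decide +kernel

theorem cB_F2'0 : ev dW.F2' 0 ≤ 0 := by decide +kernel

theorem cB_F3'0 : ev dW.F3' 0 ≤ 0 := by decide +kernel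

theorem cB_G'0 : ev dW.G' 0 = 0 := by decide +kernel

theorem cB_Z'0 : 0 ≤ ev dW.Z' 0 := by decide +kernel

theorem posB : dW.Bd where
  t10 := cB_t10
  t11 := cB_t11
  rho0 := cB_rho0
  th0 := cB_th0
  ST0 := cB_ST0
  SP0 := cB_SP0
  J1 := cB_J1
  kap0 := cB_kap0
  kapp0 := cB_kapp0
  Jp1 := cB_Jp1
  F0 := cB_F0
  F20 := cB_F20
  F30 := cB_F30
  k10 := cB_k10
  G0 := cB_G0
  G1 := cB_G1
  Z0 := cB_Z0
  F'0 := cB_F'0
  F2'0 := cB_F2'0
  F3'0 := cB_F3'0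
  G'0 := cB_G'0
  Z'0 := cB_Z'0

end Pool.Agent.RX.RCM9.Dat
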