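import Pool.Agent.RX.RCM9.DW

/-! Certificates of `kW.Pos zW` (generated by gencert.py). -/

set_option autoImplicit false

namespace Pool.Agent.RX.RCM9.KDat

open Set Pool.Agent.RX.RCN.K Pool.Agent.RX.RCM9 Pool.Agent.RX.RCM9.Bern Pool.Agent.RX.RCM9.Pk

theorem cC_Bl : NN (kW.gBl zW) :=
  NN.of (K := 354) (D := ⟨5, 11, 1, 22⟩) (Box.of 332645880119576249955 (by decide +kernel))
    (by decide +kernel)

theorem cC_Bh : NN (kW.gBh zW) :=
  NN.of (K := 335) (D := ⟨4, 11, 1, 22⟩) (Box.of 313021842201 (by decide +kernel))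
    (by decide +kernel)

theorem cC_El : NN (kW.gEl zW) :=
  NN.of (K := 225) (D := ⟨5, 11, 1, 22⟩) (Box.of 4 (by decide +kernel))
    (by decide +kernel)

theorem cC_Eh : NN (kW.gEh zW) :=
  NN.of (K := 338) (D := ⟨4, 11, 1, 22⟩) (Box.of 20036451190537 (by decide +kernel))
    (by decide +kernel)

theorem cC_Bp : NN (kW.gBp) :=
  NN.of (K := 119) (D := ⟨1, 8, 1, 13⟩) (Box.of 4 (by decide +kernel))
    (by decide +kernel)

theorem cC_Ep : NN (kW.gEp) :=
  NN.of (K := 249) (D := ⟨1, 8, 1, 13⟩) (Box.of 337250246964359874139 (by decide +kernel))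
    (by decide +kernel)

theorem posC : kW.Pos zW where
  Bl := cC_Bl
  Bh := cC_Bh
  El := cC_El
  Eh := cC_Eh
  Bp := cC_Bp
  Ep := cC_Ep

end Pool.Agent.RX.RCM9.KDat
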