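import Pool.Agent.RX.RCM9.DW

/-! Certificates of `dW.Pos` (generated by gencert.py). -/

set_option autoImplicit false

namespace Pool.Agent.RX.RCM9.Dat

open Set Pool.Agent.RX.RCN.K Pool.Agent.RX.RCM9 Pool.Agent.RX.RCM9.Bern Pool.Agent.RX.RCM9.Pk

theorem cD_shT : NN (dW.eshT) :=
  NN.of (K := 13) (D := ⟨3, 1, 1, 1⟩) (Box.of 288 (by decide +kernel))
    (by decide +kernel)

theorem cD_shP : NN (dW.eshP) :=
  NN.of (K := 63) (D := ⟨6, 1, 1, 1⟩) (Box.of 76562464 (by decide +kernel))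
    (by decide +kernel)

theorem cD_shT0 : NN (dW.eshT0) :=
  NN.of (K := 5) (D := ⟨2, 1, 1, 1⟩) (Box.of 4 (by decide +kernel))
    (by decide +kernel)

theorem cD_sTk : NN (dW.esTk) :=
  NN.of (K := 6) (D := ⟨3, 1, 1, 1⟩) (Box.of 4 (by decide +kernel))
    (by decide +kernel)

theorem cD_shP0 : NN (dW.eshP0) :=
  NN.of (K := 20) (D := ⟨5, 1, 1, 1⟩) (Box.of 4 (by decide +kernel))
    (by decide +kernel)

theorem cD_shE0 : NN (dW.eshE) :=
  NN.of (K := 33) (D := ⟨3, 7, 1, 1⟩) (Box.of 4 (by decide +kernel))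
    (by decide +kernel)

theorem cD_shD0 : NN (dW.eshD) :=
  NN.of (K := 32) (D := ⟨3, 7, 1, 1⟩) (Box.of 4 (by decide +kernel))
    (by decide +kernel)

theorem cD_lam0 : NN (pe dW.lam vT) :=
  NN.of (K := 58) (D := ⟨1, 1, 1, 6⟩) (Box.of 4 (by decide +kernel))
    (by decide +kernel)

theorem cD_lam1 : NN (dW.elam1) :=
  NN.of (K := 229) (D := ⟨1, 1, 1, 15⟩) (Box.of 4891494619 (by decide +kernel))
    (by decide +kernel)

theorem cD_o0i : NN (dW.eo0i) :=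
  NN.of (K := 253) (D := ⟨1, 1, 1, 17⟩) (Box.of 76433627 (by decide +kernel))
    (by decide +kernel)

theorem cD_o1i : NN (dW.eo1i) :=
  NN.of (K := 268) (D := ⟨1, 1, 1, 18⟩) (Box.of 4891494619 (by decide +kernel))
    (by decide +kernel)

theorem cD_PFi : NN (dW.ePFi) :=
  NN.of (K := 243) (D := ⟨1, 1, 1, 16⟩) (Box.of 76433627 (by decide +kernel))
    (by decide +kernel)

theorem cD_PF2i : NN (dW.ePF2i) :=
  NN.of (K := 183) (D := ⟨1, 1, 1, 16⟩) (Box.of 291 (by decide +kernel))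
    (by decide +kernel)

theorem cD_PF3i : NN (dW.ePF3i) :=
  NN.of (K := 180) (D := ⟨1, 1, 1, 16⟩) (Box.of 291 (by decide +kernel))
    (by decide +kernel)

theorem cD_abd : NN (dW.eabd) :=
  NN.of (K := 96) (D := ⟨1, 1, 1, 10⟩) (Box.of 4 (by decide +kernel))
    (by decide +kernel)

theorem cD_Di : NN (dW.eDi) :=
  NN.of (K := 409) (D := ⟨1, 1, 1, 24⟩) (Box.of 313055398107 (by decide +kernel))
    (by decide +kernel)

theorem cD_W1a : NN (dW.eW1a) :=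
  NN.of (K := 341) (D := ⟨1, 1, 1, 20⟩) (Box.of 18715 (by decide +kernel))
    (by decide +kernel)

theorem cD_W1b : NN (dW.eW1b) :=
  NN.of (K := 343) (D := ⟨1, 1, 1, 20⟩) (Box.of 291 (by decide +kernel))
    (by decide +kernel)

theorem cD_N0 : NN (pe dW.N vT) :=
  NN.of (K := 110) (D := ⟨1, 1, 1, 6⟩) (Box.of 1286184270677723 (by decide +kernel))
    (by decide +kernel)

theorem cD_Nf1 : NN (dW.eNf1) :=
  NN.of (K := 118) (D := ⟨1, 1, 1, 7⟩) (Box.of 76658915 (by decide +kernel))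
    (by decide +kernel)

theorem cD_Nf2 : NN (dW.eNf2) :=
  NN.of (K := 81) (D := ⟨1, 1, 1, 7⟩) (Box.of 291 (by decide +kernel))
    (by decide +kernel)

theorem cD_Nf3 : NN (dW.eNf3) :=
  NN.of (K := 81) (D := ⟨1, 1, 1, 7⟩) (Box.of 291 (by decide +kernel))
    (by decide +kernel)

theorem cD_F3G : NN (dW.eF3G) :=
  NN.of (K := 111) (D := ⟨1, 1, 1, 9⟩) (Box.of 4 (by decide +kernel))
    (by decide +kernel)

theorem cD_kt : NN (pe dW.ktl vT) :=
  NN.of (K := 95) (D := ⟨1, 1, 1, 14⟩) (Box.of 4 (by decide +kernel))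
    (by decide +kernel)

theorem cD_F : NN (pe dW.F vT) :=
  NN.of (K := 71) (D := ⟨1, 1, 1, 8⟩) (Box.of 4 (by decide +kernel))
    (by decide +kernel)

theorem cD_F2 : NN (pe dW.F2 vT) :=
  NN.of (K := 67) (D := ⟨1, 1, 1, 6⟩) (Box.of 291 (by decide +kernel))
    (by decide +kernel)

theorem cD_F3 : NN (pe dW.F3 vT) :=
  NN.of (K := 47) (D := ⟨1, 1, 1, 5⟩) (Box.of 4 (by decide +kernel))
    (by decide +kernel)

theorem cD_F3a : NN (pe dW.F3a vT) :=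
  NN.of (K := 47) (D := ⟨1, 1, 1, 5⟩) (Box.of 4 (by decide +kernel))
    (by decide +kernel)

theorem cD_Gs : NN (pe dW.Gs vT) :=
  NN.of (K := 119) (D := ⟨1, 1, 1, 9⟩) (Box.of 4 (by decide +kernel))
    (by decide +kernel)

theorem cD_Z : NN (pe dW.Z vT) :=
  NN.of (K := 80) (D := ⟨1, 1, 1, 9⟩) (Box.of 4 (by decide +kernel))
    (by decide +kernel)

theorem cD_Mp : NN (dW.eMp) :=
  NN.of (K := 130) (D := ⟨1, 1, 1, 13⟩) (Box.of 4 (by decide +kernel))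
    (by decide +kernel)

theorem cD_M1 : NN (dW.eM1) :=
  NN.of (K := 194) (D := ⟨1, 1, 1, 15⟩) (Box.of 4 (by decide +kernel))
    (by decide +kernel)

theorem cD_GJ1 : NN (dW.eGJ1) :=
  NN.of (K := 120) (D := ⟨1, 1, 1, 9⟩) (Box.of 4 (by decide +kernel))
    (by decide +kernel)

theorem cD_GJ2 : NN (dW.eGJ2) :=
  NN.of (K := 171) (D := ⟨1, 1, 1, 14⟩) (Box.of 4 (by decide +kernel))
    (by decide +kernel)

theorem cD_nb : NN (dW.enb) :=
  NN.of (K := 151) (D := ⟨1, 1, 1, 14⟩) (Box.of 4 (by decide +kernel))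
    (by decide +kernel)

theorem cD_sg1l : NN (dW.esg1l) :=
  NN.of (K := 134) (D := ⟨6, 1, 1, 9⟩) (Box.of 4 (by decide +kernel))
    (by decide +kernel)

theorem cD_sg1h : NN (dW.esg1h) :=
  NN.of (K := 135) (D := ⟨6, 1, 1, 9⟩) (Box.of 4 (by decide +kernel))
    (by decide +kernel)

theorem cD_LP0l : NN (dW.eLP0l) :=
  NN.of (K := 111) (D := ⟨2, 1, 1, 15⟩) (Box.of 4 (by decide +kernel))
    (by decide +kernel)

theorem cD_LP0h : NN (dW.eLP0h) :=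
  NN.of (K := 111) (D := ⟨2, 1, 1, 15⟩) (Box.of 4 (by decide +kernel))
    (by decide +kernel)

theorem cD_sgl : NN (dW.esgl) :=
  NN.of (K := 100) (D := ⟨2, 1, 1, 9⟩) (Box.of 291 (by decide +kernel))
    (by decide +kernel)

theorem cD_sgh : NN (dW.esgh) :=
  NN.of (K := 102) (D := ⟨2, 1, 1, 9⟩) (Box.of 291 (by decide +kernel))
    (by decide +kernel)

theorem cD_L0l : NN (dW.eL0l) :=
  NN.of (K := 204) (D := ⟨6, 1, 1, 14⟩) (Box.of 288 (by decide +kernel))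
    (by decide +kernel)

theorem cD_L0h : NN (dW.eL0h) :=
  NN.of (K := 205) (D := ⟨6, 1, 1, 14⟩) (Box.of 288 (by decide +kernel))
    (by decide +kernel)

theorem cD_K2l : NN (dW.eK2l) :=
  NN.of (K := 89) (D := ⟨3, 1, 1, 8⟩) (Box.of 291 (by decide +kernel))
    (by decide +kernel)

theorem cD_K2h : NN (dW.eK2h) :=
  NN.of (K := 91) (D := ⟨3, 1, 1, 8⟩) (Box.of 291 (by decide +kernel))
    (by decide +kernel)

theorem cD_L1a : NN (dW.eL1a) :=
  NN.of (K := 338) (D := ⟨4, 8, 7, 16⟩) (Box.of 18531 (by decide +kernel))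
    (by decide +kernel)

theorem cD_L1b : NN (dW.eL1b) :=
  NN.of (K := 357) (D := ⟨4, 8, 7, 16⟩) (Box.of 76597337 (by decide +kernel))
    (by decide +kernel)

theorem cD_L1c : NN (dW.eL1c) :=
  NN.of (K := 306) (D := ⟨8, 8, 7, 16⟩) (Box.of 4 (by decide +kernel))
    (by decide +kernel)

theorem cD_kp : NN (pe dW.kpl vT) :=
  NN.of (K := 80) (D := ⟨1, 1, 1, 14⟩) (Box.of 4 (by decide +kernel))
    (by decide +kernel)

theorem cD_Gp : NN (pe dW.Gp vT) :=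
  NN.of (K := 200) (D := ⟨1, 1, 1, 14⟩) (Box.of 4 (by decide +kernel))
    (by decide +kernel)

theorem cD_np : NN (pe dW.np vT) :=
  NN.of (K := 44) (D := ⟨1, 1, 1, 6⟩) (Box.of 4 (by decide +kernel))
    (by decide +kernel)

theorem cD_Gp1 : NN (dW.eGp1) :=
  NN.of (K := 246) (D := ⟨1, 1, 1, 14⟩) (Box.of 4 (by decide +kernel))
    (by decide +kernel)

theorem cD_Gp2 : NN (dW.eGp2) :=
  NN.of (K := 240) (D := ⟨1, 1, 1, 14⟩) (Box.of 4 (by decide +kernel))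
    (by decide +kernel)

theorem cD_np1 : NN (dW.enp1) :=
  NN.of (K := 124) (D := ⟨1, 1, 1, 14⟩) (Box.of 4 (by decide +kernel))
    (by decide +kernel)

theorem posD : dW.Pos where
  shT := cD_shT
  shP := cD_shP
  shT0 := cD_shT0
  sTk := cD_sTk
  shP0 := cD_shP0
  shE0 := cD_shE0
  shD0 := cD_shD0
  lam0 := cD_lam0
  lam1 := cD_lam1
  o0i := cD_o0i
  o1i := cD_o1i
  PFi := cD_PFi
  PF2i := cD_PF2i
  PF3i := cD_PF3i
  abd := cD_abd
  Di := cD_Di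
  W1a := cD_W1a
  W1b := cD_W1b
  N0 := cD_N0
  Nf1 := cD_Nf1
  Nf2 := cD_Nf2
  Nf3 := cD_Nf3
  F3G := cD_F3G
  kt := cD_kt
  F := cD_F
  F2 := cD_F2
  F3 := cD_F3
  F3a := cD_F3a
  Gs := cD_Gs
  Z := cD_Z
  Mp := cD_Mp
  M1 := cD_M1
  GJ1 := cD_GJ1
  GJ2 := cD_GJ2
  nb := cD_nb
  sg1l := cD_sg1l
  sg1h := cD_sg1h
  LP0l := cD_LP0l
  LP0h := cD_LP0h
  sgl := cD_sgl
  sgh := cD_sgh
  L0l := cD_L0l
  L0h := cD_L0h
  K2l := cD_K2l
  K2h := cD_K2h
  L1a := cD_L1a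
  L1b := cD_L1b
  L1c := cD_L1c
  kp := cD_kp
  Gp := cD_Gp
  np := cD_np
  Gp1 := cD_Gp1
  Gp2 := cD_Gp2
  np1 := cD_np1

end Pool.Agent.RX.RCM9.Dat
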