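import Pool.Agent.RX.RCM9.CertG2D

/-! Generated: box certificates of level 1/2 (MP_73ccd0_lc). -/

set_option autoImplicit false

namespace Pool.Agent.RX.RCM9.CertG2

open Pool.Agent.RX.RCM9.Bern Pool.Agent.RX.RCM9.Pk Pool.Agent.RX.RCM9.G Pool.Agent.RX.RCM9.G.GDat

theorem b_B2_1 : Box 186 ⟨2, 4, 3, 5⟩ d.nB2 [(1, false)] := Box.of 4 (by decide +kernel)

theorem b_B2_2 : Box 186 ⟨2, 4, 3, 5⟩ d.nB2 [(1, true), (2, false), (1, false), (0, false)] := Box.of 4 (by decide +kernel)

theorem b_B2_3 : Box 186 ⟨2, 4, 3, 5⟩ d.nB2 [(1, true), (2, false), (1, false), (0, true), (0, false)] := Box.of 4 (by decide +kernel)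

theorem b_B2_4 : Box 186 ⟨2, 4, 3, 5⟩ d.nB2 [(1, true), (2, false), (1, false), (0, true), (0, true), (2, false), (1, false)] := Box.of 82316145093350666 (by decide +kernel)

theorem b_B2_5 : Box 186 ⟨2, 4, 3, 5⟩ d.nB2 [(1, true), (2, false), (1, false), (0, true), (0, true), (2, false), (1, true), (0, false)] := Box.of 4 (by decide +kernel)

theorem b_B2_6 : Box 186 ⟨2, 4, 3, 5⟩ d.nB2 [(1, true), (2, false), (1, false), (0, true), (0, true), (2, false), (1, true), (0, true), (0, false)] := Box.of 4 (by decide +kernel)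

theorem b_B2_7 : Box 186 ⟨2, 4, 3, 5⟩ d.nB2 [(1, true), (2, false), (1, false), (0, true), (0, true), (2, false), (1, true), (0, true), (0, true), (2, false)] := Box.of 82316145087103697 (by decide +kernel)

theorem b_B2_8 : Box 186 ⟨2, 4, 3, 5⟩ d.nB2 [(1, true), (2, false), (1, false), (0, true), (0, true), (2, false), (1, true), (0, true), (0, true), (2, true), (1, false)] := Box.of 81505392722823370 (by decide +kernel)

theorem b_B2_9 : Box 186 ⟨2, 4, 3, 5⟩ d.nB2 [(1, true), (2, false), (1, false), (0, true), (0, true), (2, false), (1, true), (0, true), (0, true), (2, true), (1, true)] := Box.of 313742694682 (by decide +kernel)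

theorem b_B2_10 : Box 186 ⟨2, 4, 3, 5⟩ d.nB2 [(1, true), (2, false), (1, false), (0, true), (0, true), (2, false), (1, true), (0, true), (0, true), (2, true)] := Box.merge 1 b_B2_8 b_B2_9

theorem b_B2_11 : Box 186 ⟨2, 4, 3, 5⟩ d.nB2 [(1, true), (2, false), (1, false), (0, true), (0, true), (2, false), (1, true), (0, true), (0, true)] := Box.merge 2 b_B2_7 b_B2_10

theorem b_B2_12 : Box 186 ⟨2, 4, 3, 5⟩ d.nB2 [(1, true), (2, false), (1, false), (0, true), (0, true), (2, false), (1, true), (0, true)] := Box.merge 0 b_B2_6 b_B2_11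

theorem b_B2_13 : Box 186 ⟨2, 4, 3, 5⟩ d.nB2 [(1, true), (2, false), (1, false), (0, true), (0, true), (2, false), (1, true)] := Box.merge 0 b_B2_5 b_B2_12

theorem b_B2_14 : Box 186 ⟨2, 4, 3, 5⟩ d.nB2 [(1, true), (2, false), (1, false), (0, true), (0, true), (2, false)] := Box.merge 1 b_B2_4 b_B2_13

theorem b_B2_15 : Box 186 ⟨2, 4, 3, 5⟩ d.nB2 [(1, true), (2, false), (1, false), (0, true), (0, true), (2, true), (1, false)] := Box.of 4 (by decide +kernel)

theorem b_B2_16 : Box 186 ⟨2, 4, 3, 5⟩ d.nB2 [(1, true), (2, false), (1, false), (0, true), (0, true), (2, true), (1, true)] := Box.of 5639735937504936726660923658 (by decide +kernel)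

theorem b_B2_17 : Box 186 ⟨2, 4, 3, 5⟩ d.nB2 [(1, true), (2, false), (1, false), (0, true), (0, true), (2, true)] := Box.merge 1 b_B2_15 b_B2_16

theorem b_B2_18 : Box 186 ⟨2, 4, 3, 5⟩ d.nB2 [(1, true), (2, false), (1, false), (0, true), (0, true)] := Box.merge 2 b_B2_14 b_B2_17

theorem b_B2_19 : Box 186 ⟨2, 4, 3, 5⟩ d.nB2 [(1, true), (2, false), (1, false), (0, true)] := Box.merge 0 b_B2_3 b_B2_18

theorem b_B2_20 : Box 186 ⟨2, 4, 3, 5⟩ d.nB2 [(1, true), (2, false), (1, false)] := Box.merge 0 b_B2_2 b_B2_19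

theorem b_B2_21 : Box 186 ⟨2, 4, 3, 5⟩ d.nB2 [(1, true), (2, false), (1, true), (2, false)] := Box.of 4 (by decide +kernel)

theorem b_B2_22 : Box 186 ⟨2, 4, 3, 5⟩ d.nB2 [(1, true), (2, false), (1, true), (2, true), (1, false), (2, false)] := Box.of 4902229777 (by decide +kernel)

theorem b_B2_23 : Box 186 ⟨2, 4, 3, 5⟩ d.nB2 [(1, true), (2, false), (1, true), (2, true), (1, false), (2, true), (1, false), (0, false)] := Box.of 4 (by decide +kernel)

theorem b_B2_24 : Box 186 ⟨2, 4, 3, 5⟩ d.nB2 [(1, true), (2, false), (1, true), (2, true), (1, false), (2, true), (1, false), (0, true), (0, false)] := Box.of 4 (by decide +kernel)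

theorem b_B2_25 : Box 186 ⟨2, 4, 3, 5⟩ d.nB2 [(1, true), (2, false), (1, true), (2, true), (1, false), (2, true), (1, false), (0, true), (0, true)] := Box.of 5600520308476495309465847840 (by decide +kernel)

theorem b_B2_26 : Box 186 ⟨2, 4, 3, 5⟩ d.nB2 [(1, true), (2, false), (1, true), (2, true), (1, false), (2, true), (1, false), (0, true)] := Box.merge 0 b_B2_24 b_B2_25

theorem b_B2_27 : Box 186 ⟨2, 4, 3, 5⟩ d.nB2 [(1, true), (2, false), (1, true), (2, true), (1, false), (2, true), (1, false)] := Box.merge 0 b_B2_23 b_B2_26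

theorem b_B2_28 : Box 186 ⟨2, 4, 3, 5⟩ d.nB2 [(1, true), (2, false), (1, true), (2, true), (1, false), (2, true), (1, true)] := Box.of 291 (by decide +kernel)

theorem b_B2_29 : Box 186 ⟨2, 4, 3, 5⟩ d.nB2 [(1, true), (2, false), (1, true), (2, true), (1, false), (2, true)] := Box.merge 1 b_B2_27 b_B2_28

theorem b_B2_30 : Box 186 ⟨2, 4, 3, 5⟩ d.nB2 [(1, true), (2, false), (1, true), (2, true), (1, false)] := Box.merge 2 b_B2_22 b_B2_29

theorem b_B2_31 : Box 186 ⟨2, 4, 3, 5⟩ d.nB2 [(1, true), (2, false), (1, true), (2, true), (1, true)] := Box.of 4 (by decide +kernel)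

theorem b_B2_32 : Box 186 ⟨2, 4, 3, 5⟩ d.nB2 [(1, true), (2, false), (1, true), (2, true)] := Box.merge 1 b_B2_30 b_B2_31

theorem b_B2_33 : Box 186 ⟨2, 4, 3, 5⟩ d.nB2 [(1, true), (2, false), (1, true)] := Box.merge 2 b_B2_21 b_B2_32

theorem b_B2_34 : Box 186 ⟨2, 4, 3, 5⟩ d.nB2 [(1, true), (2, false)] := Box.merge 1 b_B2_20 b_B2_33

theorem b_B2_35 : Box 186 ⟨2, 4, 3, 5⟩ d.nB2 [(1, true), (2, true), (1, false)] := Box.of 4 (by decide +kernel)

theorem b_B2_36 : Box 186 ⟨2, 4, 3, 5⟩ d.nB2 [(1, true), (2, true), (1, true), (1, false), (2, false), (0, false)] := Box.of 4 (by decide +kernel)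

theorem b_B2_37 : Box 186 ⟨2, 4, 3, 5⟩ d.nB2 [(1, true), (2, true), (1, true), (1, false), (2, false), (0, true), (0, false)] := Box.of 4 (by decide +kernel)

theorem b_B2_38 : Box 186 ⟨2, 4, 3, 5⟩ d.nB2 [(1, true), (2, true), (1, true), (1, false), (2, false), (0, true), (0, true), (2, false), (1, false)] := Box.of 76597338 (by decide +kernel)

theorem b_B2_39 : Box 186 ⟨2, 4, 3, 5⟩ d.nB2 [(1, true), (2, true), (1, true), (1, false), (2, false), (0, true), (0, true), (2, false), (1, true), (0, false)] := Box.of 4 (by decide +kernel)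

theorem b_B2_40 : Box 186 ⟨2, 4, 3, 5⟩ d.nB2 [(1, true), (2, true), (1, true), (1, false), (2, false), (0, true), (0, true), (2, false), (1, true), (0, true), (0, false)] := Box.of 4 (by decide +kernel)

theorem b_B2_41 : Box 186 ⟨2, 4, 3, 5⟩ d.nB2 [(1, true), (2, true), (1, true), (1, false), (2, false), (0, true), (0, true), (2, false), (1, true), (0, true), (0, true), (2, false)] := Box.of 4904327321 (by decide +kernel)

theorem b_B2_42 : Box 186 ⟨2, 4, 3, 5⟩ d.nB2 [(1, true), (2, true), (1, true), (1, false), (2, false), (0, true), (0, true), (2, false), (1, true), (0, true), (0, true), (2, true)] := Box.of 5215890493767041689 (by decide +kernel)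

theorem b_B2_43 : Box 186 ⟨2, 4, 3, 5⟩ d.nB2 [(1, true), (2, true), (1, true), (1, false), (2, false), (0, true), (0, true), (2, false), (1, true), (0, true), (0, true)] := Box.merge 2 b_B2_41 b_B2_42

theorem b_B2_44 : Box 186 ⟨2, 4, 3, 5⟩ d.nB2 [(1, true), (2, true), (1, true), (1, false), (2, false), (0, true), (0, true), (2, false), (1, true), (0, true)] := Box.merge 0 b_B2_40 b_B2_43

theorem b_B2_45 : Box 186 ⟨2, 4, 3, 5⟩ d.nB2 [(1, true), (2, true), (1, true), (1, false), (2, false), (0, true), (0, true), (2, false), (1, true)] := Box.merge 0 b_B2_39 b_B2_44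

theorem b_B2_46 : Box 186 ⟨2, 4, 3, 5⟩ d.nB2 [(1, true), (2, true), (1, true), (1, false), (2, false), (0, true), (0, true), (2, false)] := Box.merge 1 b_B2_38 b_B2_45

theorem b_B2_47 : Box 186 ⟨2, 4, 3, 5⟩ d.nB2 [(1, true), (2, true), (1, true), (1, false), (2, false), (0, true), (0, true), (2, true)] := Box.of 21514115539661113803425 (by decide +kernel)

theorem b_B2_48 : Box 186 ⟨2, 4, 3, 5⟩ d.nB2 [(1, true), (2, true), (1, true), (1, false), (2, false), (0, true), (0, true)] := Box.merge 2 b_B2_46 b_B2_47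

theorem b_B2_49 : Box 186 ⟨2, 4, 3, 5⟩ d.nB2 [(1, true), (2, true), (1, true), (1, false), (2, false), (0, true)] := Box.merge 0 b_B2_37 b_B2_48

theorem b_B2_50 : Box 186 ⟨2, 4, 3, 5⟩ d.nB2 [(1, true), (2, true), (1, true), (1, false), (2, false)] := Box.merge 0 b_B2_36 b_B2_49

theorem b_B2_51 : Box 186 ⟨2, 4, 3, 5⟩ d.nB2 [(1, true), (2, true), (1, true), (1, false), (2, true)] := Box.of 4 (by decide +kernel)

theorem b_B2_52 : Box 186 ⟨2, 4, 3, 5⟩ d.nB2 [(1, true), (2, true), (1, true), (1, false)] := Box.merge 2 b_B2_50 b_B2_51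

theorem b_B2_53 : Box 186 ⟨2, 4, 3, 5⟩ d.nB2 [(1, true), (2, true), (1, true), (1, true), (2, false), (2, false)] := Box.of 4 (by decide +kernel)

theorem b_B2_54 : Box 186 ⟨2, 4, 3, 5⟩ d.nB2 [(1, true), (2, true), (1, true), (1, true), (2, false), (2, true), (1, false), (2, false)] := Box.of 18713 (by decide +kernel)

theorem b_B2_55 : Box 186 ⟨2, 4, 3, 5⟩ d.nB2 [(1, true), (2, true), (1, true), (1, true), (2, false), (2, true), (1, false), (2, true)] := Box.of 88120282574323709400596737 (by decide +kernel)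

theorem b_B2_56 : Box 186 ⟨2, 4, 3, 5⟩ d.nB2 [(1, true), (2, true), (1, true), (1, true), (2, false), (2, true), (1, false)] := Box.merge 2 b_B2_54 b_B2_55

theorem b_B2_57 : Box 186 ⟨2, 4, 3, 5⟩ d.nB2 [(1, true), (2, true), (1, true), (1, true), (2, false), (2, true), (1, true)] := Box.of 4 (by decide +kernel)

theorem b_B2_58 : Box 186 ⟨2, 4, 3, 5⟩ d.nB2 [(1, true), (2, true), (1, true), (1, true), (2, false), (2, true)] := Box.merge 1 b_B2_56 b_B2_57

theorem b_B2_59 : Box 186 ⟨2, 4, 3, 5⟩ d.nB2 [(1, true), (2, true), (1, true), (1, true), (2, false)] := Box.merge 2 b_B2_53 b_B2_58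

theorem b_B2_60 : Box 186 ⟨2, 4, 3, 5⟩ d.nB2 [(1, true), (2, true), (1, true), (1, true), (2, true), (1, false), (2, false), (0, false)] := Box.of 4 (by decide +kernel)

theorem b_B2_61 : Box 186 ⟨2, 4, 3, 5⟩ d.nB2 [(1, true), (2, true), (1, true), (1, true), (2, true), (1, false), (2, false), (0, true), (0, false)] := Box.of 4 (by decide +kernel)

theorem b_B2_62 : Box 186 ⟨2, 4, 3, 5⟩ d.nB2 [(1, true), (2, true), (1, true), (1, true), (2, true), (1, false), (2, false), (0, true), (0, true), (2, false)] := Box.of 21513974786101132765465 (by decide +kernel)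

theorem b_B2_63 : Box 186 ⟨2, 4, 3, 5⟩ d.nB2 [(1, true), (2, true), (1, true), (1, true), (2, true), (1, false), (2, false), (0, true), (0, true), (2, true)] := Box.of 20036232550049 (by decide +kernel)

theorem b_B2_64 : Box 186 ⟨2, 4, 3, 5⟩ d.nB2 [(1, true), (2, true), (1, true), (1, true), (2, true), (1, false), (2, false), (0, true), (0, true)] := Box.merge 2 b_B2_62 b_B2_63

theorem b_B2_65 : Box 186 ⟨2, 4, 3, 5⟩ d.nB2 [(1, true), (2, true), (1, true), (1, true), (2, true), (1, false), (2, false), (0, true)] := Box.merge 0 b_B2_61 b_B2_64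

theorem b_B2_66 : Box 186 ⟨2, 4, 3, 5⟩ d.nB2 [(1, true), (2, true), (1, true), (1, true), (2, true), (1, false), (2, false)] := Box.merge 0 b_B2_60 b_B2_65

theorem b_B2_67 : Box 186 ⟨2, 4, 3, 5⟩ d.nB2 [(1, true), (2, true), (1, true), (1, true), (2, true), (1, false), (2, true)] := Box.of 4 (by decide +kernel)

theorem b_B2_68 : Box 186 ⟨2, 4, 3, 5⟩ d.nB2 [(1, true), (2, true), (1, true), (1, true), (2, true), (1, false)] := Box.merge 2 b_B2_66 b_B2_67

theorem b_B2_69 : Box 186 ⟨2, 4, 3, 5⟩ d.nB2 [(1, true), (2, true), (1, true), (1, true), (2, true), (1, true), (2, false)] := Box.of 82316145087100002 (by decide +kernel)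

theorem b_B2_70 : Box 186 ⟨2, 4, 3, 5⟩ d.nB2 [(1, true), (2, true), (1, true), (1, true), (2, true), (1, true), (2, true), (1, false)] := Box.of 88310800538813003299964498 (by decide +kernel)

theorem b_B2_71 : Box 186 ⟨2, 4, 3, 5⟩ d.nB2 [(1, true), (2, true), (1, true), (1, true), (2, true), (1, true), (2, true), (1, true), (2, false)] := Box.of 20079316444770 (by decide +kernel)

theorem b_B2_72 : Box 186 ⟨2, 4, 3, 5⟩ d.nB2 [(1, true), (2, true), (1, true), (1, true), (2, true), (1, true), (2, true), (1, true), (2, true), (2, false), (1, false)] := Box.of 82237183327537184 (by decide +kernel)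

theorem b_B2_73 : Box 186 ⟨2, 4, 3, 5⟩ d.nB2 [(1, true), (2, true), (1, true), (1, true), (2, true), (1, true), (2, true), (1, true), (2, true), (2, false), (1, true)] := Box.of 1285986668546080 (by decide +kernel)

theorem b_B2_74 : Box 186 ⟨2, 4, 3, 5⟩ d.nB2 [(1, true), (2, true), (1, true), (1, true), (2, true), (1, true), (2, true), (1, true), (2, true), (2, false)] := Box.merge 1 b_B2_72 b_B2_73

theorem b_B2_75 : Box 186 ⟨2, 4, 3, 5⟩ d.nB2 [(1, true), (2, true), (1, true), (1, true), (2, true), (1, true), (2, true), (1, true), (2, true), (2, true), (1, false)] := Box.of 4 (by decide +kernel)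

theorem b_B2_76 : Box 186 ⟨2, 4, 3, 5⟩ d.nB2 [(1, true), (2, true), (1, true), (1, true), (2, true), (1, true), (2, true), (1, true), (2, true), (2, true), (1, true), (2, false)] := Box.of 313726650521 (by decide +kernel)

theorem b_B2_77 : Box 186 ⟨2, 4, 3, 5⟩ d.nB2 [(1, true), (2, true), (1, true), (1, true), (2, true), (1, true), (2, true), (1, true), (2, true), (2, true), (1, true), (2, true), (1, false)] := Box.of 291 (by decide +kernel)

theorem b_B2_78 : Box 186 ⟨2, 4, 3, 5⟩ d.nB2 [(1, true), (2, true), (1, true), (1, true), (2, true), (1, true), (2, true), (1, true), (2, true), (2, true), (1, true), (2, true), (1, true), (0, false)] := Box.of 310918592610 (by decide +kernel)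

theorem b_B2_79 : Box 186 ⟨2, 4, 3, 5⟩ d.nB2 [(1, true), (2, true), (1, true), (1, true), (2, true), (1, true), (2, true), (1, true), (2, true), (2, true), (1, true), (2, true), (1, true), (0, true)] := Box.of 87503279043156808632944730 (by decide +kernel)

theorem b_B2_80 : Box 186 ⟨2, 4, 3, 5⟩ d.nB2 [(1, true), (2, true), (1, true), (1, true), (2, true), (1, true), (2, true), (1, true), (2, true), (2, true), (1, true), (2, true), (1, true)] := Box.merge 0 b_B2_78 b_B2_79

theorem b_B2_81 : Box 186 ⟨2, 4, 3, 5⟩ d.nB2 [(1, true), (2, true), (1, true), (1, true), (2, true), (1, true), (2, true), (1, true), (2, true), (2, true), (1, true), (2, true)] := Box.merge 1 b_B2_77 b_B2_80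

theorem b_B2_82 : Box 186 ⟨2, 4, 3, 5⟩ d.nB2 [(1, true), (2, true), (1, true), (1, true), (2, true), (1, true), (2, true), (1, true), (2, true), (2, true), (1, true)] := Box.merge 2 b_B2_76 b_B2_81

theorem b_B2_83 : Box 186 ⟨2, 4, 3, 5⟩ d.nB2 [(1, true), (2, true), (1, true), (1, true), (2, true), (1, true), (2, true), (1, true), (2, true), (2, true)] := Box.merge 1 b_B2_75 b_B2_82

theorem b_B2_84 : Box 186 ⟨2, 4, 3, 5⟩ d.nB2 [(1, true), (2, true), (1, true), (1, true), (2, true), (1, true), (2, true), (1, true), (2, true)] := Box.merge 2 b_B2_74 b_B2_83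

theorem b_B2_85 : Box 186 ⟨2, 4, 3, 5⟩ d.nB2 [(1, true), (2, true), (1, true), (1, true), (2, true), (1, true), (2, true), (1, true)] := Box.merge 2 b_B2_71 b_B2_84

theorem b_B2_86 : Box 186 ⟨2, 4, 3, 5⟩ d.nB2 [(1, true), (2, true), (1, true), (1, true), (2, true), (1, true), (2, true)] := Box.merge 1 b_B2_70 b_B2_85

theorem b_B2_87 : Box 186 ⟨2, 4, 3, 5⟩ d.nB2 [(1, true), (2, true), (1, true), (1, true), (2, true), (1, true)] := Box.merge 2 b_B2_69 b_B2_86

theorem b_B2_88 : Box 186 ⟨2, 4, 3, 5⟩ d.nB2 [(1, true), (2, true), (1, true), (1, true), (2, true)] := Box.merge 1 b_B2_68 b_B2_87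

theorem b_B2_89 : Box 186 ⟨2, 4, 3, 5⟩ d.nB2 [(1, true), (2, true), (1, true), (1, true)] := Box.merge 2 b_B2_59 b_B2_88

theorem b_B2_90 : Box 186 ⟨2, 4, 3, 5⟩ d.nB2 [(1, true), (2, true), (1, true)] := Box.merge 1 b_B2_52 b_B2_89

theorem b_B2_91 : Box 186 ⟨2, 4, 3, 5⟩ d.nB2 [(1, true), (2, true)] := Box.merge 1 b_B2_35 b_B2_90

theorem b_B2_92 : Box 186 ⟨2, 4, 3, 5⟩ d.nB2 [(1, true)] := Box.merge 2 b_B2_34 b_B2_91

theorem b_B2_93 : Box 186 ⟨2, 4, 3, 5⟩ d.nB2 [] := Box.merge 1 b_B2_1 b_B2_92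

theorem n_B2 : NG d.nB2 :=
  NG.of (K := 186) (D := ⟨2, 4, 3, 5⟩) b_B2_93 (by decide +kernel)

theorem b_P2_f_1 : Box 186 ⟨2, 7, 3, 8⟩ (d.nP2 false) [(1, false), (2, false)] := Box.of 310874085537 (by decide +kernel)

theorem b_P2_f_2 : Box 186 ⟨2, 7, 3, 8⟩ (d.nP2 false) [(1, false), (2, true)] := Box.of 1367434684407637760164961 (by decide +kernel)

theorem b_P2_f_3 : Box 186 ⟨2, 7, 3, 8⟩ (d.nP2 false) [(1, false)] := Box.merge 2 b_P2_f_1 b_P2_f_2

theorem b_P2_f_4 : Box 186 ⟨2, 7, 3, 8⟩ (d.nP2 false) [(1, true)] := Box.of 5270392530269152330 (by decide +kernel)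

theorem b_P2_f_5 : Box 186 ⟨2, 7, 3, 8⟩ (d.nP2 false) [] := Box.merge 1 b_P2_f_3 b_P2_f_4

theorem n_P2_f : NG (d.nP2 false) :=
  NG.of (K := 186) (D := ⟨2, 7, 3, 8⟩) b_P2_f_5 (by decide +kernel)

theorem b_P2_t_1 : Box 221 ⟨2, 4, 3, 8⟩ (d.nP2 true) [(1, false)] := Box.of 4 (by decide +kernel)

theorem b_P2_t_2 : Box 221 ⟨2, 4, 3, 8⟩ (d.nP2 true) [(1, true), (2, false), (1, false), (0, false)] := Box.of 4 (by decide +kernel)

theorem b_P2_t_3 : Box 221 ⟨2, 4, 3, 8⟩ (d.nP2 true) [(1, true), (2, false), (1, false), (0, true), (2, false), (1, false)] := Box.of 76682506 (by decide +kernel)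

theorem b_P2_t_4 : Box 221 ⟨2, 4, 3, 8⟩ (d.nP2 true) [(1, true), (2, false), (1, false), (0, true), (2, false), (1, true)] := Box.of 88296636996423048648853536 (by decide +kernel)

theorem b_P2_t_5 : Box 221 ⟨2, 4, 3, 8⟩ (d.nP2 true) [(1, true), (2, false), (1, false), (0, true), (2, false)] := Box.merge 1 b_P2_t_3 b_P2_t_4

theorem b_P2_t_6 : Box 221 ⟨2, 4, 3, 8⟩ (d.nP2 true) [(1, true), (2, false), (1, false), (0, true), (2, true)] := Box.of 20079534490273 (by decide +kernel)

theorem b_P2_t_7 : Box 221 ⟨2, 4, 3, 8⟩ (d.nP2 true) [(1, true), (2, false), (1, false), (0, true)] := Box.merge 2 b_P2_t_5 b_P2_t_6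

theorem b_P2_t_8 : Box 221 ⟨2, 4, 3, 8⟩ (d.nP2 true) [(1, true), (2, false), (1, false)] := Box.merge 0 b_P2_t_2 b_P2_t_7

theorem b_P2_t_9 : Box 221 ⟨2, 4, 3, 8⟩ (d.nP2 true) [(1, true), (2, false), (1, true), (2, false)] := Box.of 4 (by decide +kernel)

theorem b_P2_t_10 : Box 221 ⟨2, 4, 3, 8⟩ (d.nP2 true) [(1, true), (2, false), (1, true), (2, true), (1, false), (0, false)] := Box.of 4 (by decide +kernel)

theorem b_P2_t_11 : Box 221 ⟨2, 4, 3, 8⟩ (d.nP2 true) [(1, true), (2, false), (1, true), (2, true), (1, false), (0, true)] := Box.of 5600519764488055453032949792 (by decide +kernel)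

theorem b_P2_t_12 : Box 221 ⟨2, 4, 3, 8⟩ (d.nP2 true) [(1, true), (2, false), (1, true), (2, true), (1, false)] := Box.merge 0 b_P2_t_10 b_P2_t_11

theorem b_P2_t_13 : Box 221 ⟨2, 4, 3, 8⟩ (d.nP2 true) [(1, true), (2, false), (1, true), (2, true), (1, true)] := Box.of 4 (by decide +kernel)

theorem b_P2_t_14 : Box 221 ⟨2, 4, 3, 8⟩ (d.nP2 true) [(1, true), (2, false), (1, true), (2, true)] := Box.merge 1 b_P2_t_12 b_P2_t_13

theorem b_P2_t_15 : Box 221 ⟨2, 4, 3, 8⟩ (d.nP2 true) [(1, true), (2, false), (1, true)] := Box.merge 2 b_P2_t_9 b_P2_t_14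

theorem b_P2_t_16 : Box 221 ⟨2, 4, 3, 8⟩ (d.nP2 true) [(1, true), (2, false)] := Box.merge 1 b_P2_t_8 b_P2_t_15

theorem b_P2_t_17 : Box 221 ⟨2, 4, 3, 8⟩ (d.nP2 true) [(1, true), (2, true), (1, false)] := Box.of 4 (by decide +kernel)

theorem b_P2_t_18 : Box 221 ⟨2, 4, 3, 8⟩ (d.nP2 true) [(1, true), (2, true), (1, true), (1, false)] := Box.of 88414603546542420880659538 (by decide +kernel)

theorem b_P2_t_19 : Box 221 ⟨2, 4, 3, 8⟩ (d.nP2 true) [(1, true), (2, true), (1, true), (1, true), (2, false)] := Box.of 337022815043199189090 (by decide +kernel)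

theorem b_P2_t_20 : Box 221 ⟨2, 4, 3, 8⟩ (d.nP2 true) [(1, true), (2, true), (1, true), (1, true), (2, true), (1, false)] := Box.of 82337216571942994 (by decide +kernel)

theorem b_P2_t_21 : Box 221 ⟨2, 4, 3, 8⟩ (d.nP2 true) [(1, true), (2, true), (1, true), (1, true), (2, true), (1, true), (2, false)] := Box.of 314089542754 (by decide +kernel)

theorem b_P2_t_22 : Box 221 ⟨2, 4, 3, 8⟩ (d.nP2 true) [(1, true), (2, true), (1, true), (1, true), (2, true), (1, true), (2, true), (1, false)] := Box.of 4902230098 (by decide +kernel)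

theorem b_P2_t_23 : Box 221 ⟨2, 4, 3, 8⟩ (d.nP2 true) [(1, true), (2, true), (1, true), (1, true), (2, true), (1, true), (2, true), (1, true), (2, false)] := Box.of 76596322 (by decide +kernel)

theorem b_P2_t_24 : Box 221 ⟨2, 4, 3, 8⟩ (d.nP2 true) [(1, true), (2, true), (1, true), (1, true), (2, true), (1, true), (2, true), (1, true), (2, true), (2, false)] := Box.of 4903553105 (by decide +kernel)

theorem b_P2_t_25 : Box 221 ⟨2, 4, 3, 8⟩ (d.nP2 true) [(1, true), (2, true), (1, true), (1, true), (2, true), (1, true), (2, true), (1, true), (2, true), (2, true), (1, false)] := Box.of 4 (by decide +kernel)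

theorem b_P2_t_26 : Box 221 ⟨2, 4, 3, 8⟩ (d.nP2 true) [(1, true), (2, true), (1, true), (1, true), (2, true), (1, true), (2, true), (1, true), (2, true), (2, true), (1, true), (0, false)] := Box.of 310873827426 (by decide +kernel)

theorem b_P2_t_27 : Box 221 ⟨2, 4, 3, 8⟩ (d.nP2 true) [(1, true), (2, true), (1, true), (1, true), (2, true), (1, true), (2, true), (1, true), (2, true), (2, true), (1, true), (0, true), (2, false)] := Box.of 1186057 (by decide +kernel)

theorem b_P2_t_28 : Box 221 ⟨2, 4, 3, 8⟩ (d.nP2 true) [(1, true), (2, true), (1, true), (1, true), (2, true), (1, true), (2, true), (1, true), (2, true), (2, true), (1, true), (0, true), (2, true)] := Box.of 5600217409670914165808698593 (by decide +kernel)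

theorem b_P2_t_29 : Box 221 ⟨2, 4, 3, 8⟩ (d.nP2 true) [(1, true), (2, true), (1, true), (1, true), (2, true), (1, true), (2, true), (1, true), (2, true), (2, true), (1, true), (0, true)] := Box.merge 2 b_P2_t_27 b_P2_t_28

theorem b_P2_t_30 : Box 221 ⟨2, 4, 3, 8⟩ (d.nP2 true) [(1, true), (2, true), (1, true), (1, true), (2, true), (1, true), (2, true), (1, true), (2, true), (2, true), (1, true)] := Box.merge 0 b_P2_t_26 b_P2_t_29

theorem b_P2_t_31 : Box 221 ⟨2, 4, 3, 8⟩ (d.nP2 true) [(1, true), (2, true), (1, true), (1, true), (2, true), (1, true), (2, true), (1, true), (2, true), (2, true)] := Box.merge 1 b_P2_t_25 b_P2_t_30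

theorem b_P2_t_32 : Box 221 ⟨2, 4, 3, 8⟩ (d.nP2 true) [(1, true), (2, true), (1, true), (1, true), (2, true), (1, true), (2, true), (1, true), (2, true)] := Box.merge 2 b_P2_t_24 b_P2_t_31

theorem b_P2_t_33 : Box 221 ⟨2, 4, 3, 8⟩ (d.nP2 true) [(1, true), (2, true), (1, true), (1, true), (2, true), (1, true), (2, true), (1, true)] := Box.merge 2 b_P2_t_23 b_P2_t_32

theorem b_P2_t_34 : Box 221 ⟨2, 4, 3, 8⟩ (d.nP2 true) [(1, true), (2, true), (1, true), (1, true), (2, true), (1, true), (2, true)] := Box.merge 1 b_P2_t_22 b_P2_t_33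

theorem b_P2_t_35 : Box 221 ⟨2, 4, 3, 8⟩ (d.nP2 true) [(1, true), (2, true), (1, true), (1, true), (2, true), (1, true)] := Box.merge 2 b_P2_t_21 b_P2_t_34

theorem b_P2_t_36 : Box 221 ⟨2, 4, 3, 8⟩ (d.nP2 true) [(1, true), (2, true), (1, true), (1, true), (2, true)] := Box.merge 1 b_P2_t_20 b_P2_t_35

theorem b_P2_t_37 : Box 221 ⟨2, 4, 3, 8⟩ (d.nP2 true) [(1, true), (2, true), (1, true), (1, true)] := Box.merge 2 b_P2_t_19 b_P2_t_36

theorem b_P2_t_38 : Box 221 ⟨2, 4, 3, 8⟩ (d.nP2 true) [(1, true), (2, true), (1, true)] := Box.merge 1 b_P2_t_18 b_P2_t_37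

theorem b_P2_t_39 : Box 221 ⟨2, 4, 3, 8⟩ (d.nP2 true) [(1, true), (2, true)] := Box.merge 1 b_P2_t_17 b_P2_t_38

theorem b_P2_t_40 : Box 221 ⟨2, 4, 3, 8⟩ (d.nP2 true) [(1, true)] := Box.merge 2 b_P2_t_16 b_P2_t_39

theorem b_P2_t_41 : Box 221 ⟨2, 4, 3, 8⟩ (d.nP2 true) [] := Box.merge 1 b_P2_t_1 b_P2_t_40

theorem n_P2_t : NG (d.nP2 true) :=
  NG.of (K := 221) (D := ⟨2, 4, 3, 8⟩) b_P2_t_41 (by decide +kernel)

end Pool.Agent.RX.RCM9.CertG2
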