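import Pool.Agent.RX.RCM9.CertG2D

/-! Generated: box certificates of level 1/2 (MP_73ccd0_lc). -/

set_option autoImplicit false

namespace Pool.Agent.RX.RCM9.CertG2

open Pool.Agent.RX.RCM9.Bern Pool.Agent.RX.RCM9.Pk Pool.Agent.RX.RCM9.G Pool.Agent.RX.RCM9.G.GDat

theorem n_m_H1 : NG (d.nH1 d.m true) :=
  NG.of (K := 250) (D := ⟨3, 5, 3, 16⟩) (Box.of 313070327881 (by decide +kernel)) (by decide +kernel)

theorem n_mR_H1 : NG (d.nH1 d.mR false) :=
  NG.of (K := 259) (D := ⟨3, 5, 3, 16⟩) (Box.of 20036501521993 (by decide +kernel)) (by decide +kernel)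

end Pool.Agent.RX.RCM9.CertG2
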