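import Pool.Agent.RX.RCM9.CertG2D

/-! Generated: box certificates of level 1/2 (MP_73ccd0_lc). -/

set_option autoImplicit false

namespace Pool.Agent.RX.RCM9.CertG2

open Pool.Agent.RX.RCM9.Bern Pool.Agent.RX.RCM9.Pk Pool.Agent.RX.RCM9.G Pool.Agent.RX.RCM9.G.GDat

theorem b_m_H2_1 : Box 479 ⟨4, 8, 6, 9⟩ (d.nH2 d.m true) [(0, false), (1, false), (0, false), (2, false), (1, false)] := Box.of 4 (by decide +kernel)

theorem b_m_H2_2 : Box 479 ⟨4, 8, 6, 9⟩ (d.nH2 d.m true) [(0, false), (1, false), (0, false), (2, false), (1, true), (0, false)] := Box.of 4 (by decide +kernel)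

theorem b_m_H2_3 : Box 479 ⟨4, 8, 6, 9⟩ (d.nH2 d.m true) [(0, false), (1, false), (0, false), (2, false), (1, true), (0, true), (2, false)] := Box.of 75907809 (by decide +kernel)

theorem b_m_H2_4 : Box 479 ⟨4, 8, 6, 9⟩ (d.nH2 d.m true) [(0, false), (1, false), (0, false), (2, false), (1, true), (0, true), (2, true)] := Box.of 337257732783083504921 (by decide +kernel)

theorem b_m_H2_5 : Box 479 ⟨4, 8, 6, 9⟩ (d.nH2 d.m true) [(0, false), (1, false), (0, false), (2, false), (1, true), (0, true)] := Box.merge 2 b_m_H2_3 b_m_H2_4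

theorem b_m_H2_6 : Box 479 ⟨4, 8, 6, 9⟩ (d.nH2 d.m true) [(0, false), (1, false), (0, false), (2, false), (1, true)] := Box.merge 0 b_m_H2_2 b_m_H2_5

theorem b_m_H2_7 : Box 479 ⟨4, 8, 6, 9⟩ (d.nH2 d.m true) [(0, false), (1, false), (0, false), (2, false)] := Box.merge 1 b_m_H2_1 b_m_H2_6

theorem b_m_H2_8 : Box 479 ⟨4, 8, 6, 9⟩ (d.nH2 d.m true) [(0, false), (1, false), (0, false), (2, true), (0, false), (1, false)] := Box.of 76595987 (by decide +kernel)

theorem b_m_H2_9 : Box 479 ⟨4, 8, 6, 9⟩ (d.nH2 d.m true) [(0, false), (1, false), (0, false), (2, true), (0, false), (1, true)] := Box.of 21584495425886297555648 (by decide +kernel)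

theorem b_m_H2_10 : Box 479 ⟨4, 8, 6, 9⟩ (d.nH2 d.m true) [(0, false), (1, false), (0, false), (2, true), (0, false)] := Box.merge 1 b_m_H2_8 b_m_H2_9

theorem b_m_H2_11 : Box 479 ⟨4, 8, 6, 9⟩ (d.nH2 d.m true) [(0, false), (1, false), (0, false), (2, true), (0, true)] := Box.of 75647121 (by decide +kernel)

theorem b_m_H2_12 : Box 479 ⟨4, 8, 6, 9⟩ (d.nH2 d.m true) [(0, false), (1, false), (0, false), (2, true)] := Box.merge 0 b_m_H2_10 b_m_H2_11

theorem b_m_H2_13 : Box 479 ⟨4, 8, 6, 9⟩ (d.nH2 d.m true) [(0, false), (1, false), (0, false)] := Box.merge 2 b_m_H2_7 b_m_H2_12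

theorem b_m_H2_14 : Box 479 ⟨4, 8, 6, 9⟩ (d.nH2 d.m true) [(0, false), (1, false), (0, true), (2, false), (1, false)] := Box.of 288 (by decide +kernel)

theorem b_m_H2_15 : Box 479 ⟨4, 8, 6, 9⟩ (d.nH2 d.m true) [(0, false), (1, false), (0, true), (2, false), (1, true), (2, false)] := Box.of 5601011508141273091526508552 (by decide +kernel)

theorem b_m_H2_16 : Box 479 ⟨4, 8, 6, 9⟩ (d.nH2 d.m true) [(0, false), (1, false), (0, true), (2, false), (1, true), (2, true), (0, false), (1, false)] := Box.of 5252475107536945304 (by decide +kernel)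

theorem b_m_H2_17 : Box 479 ⟨4, 8, 6, 9⟩ (d.nH2 d.m true) [(0, false), (1, false), (0, true), (2, false), (1, true), (2, true), (0, false), (1, true), (0, false), (1, false), (3, false)] := Box.of 1198082 (by decide +kernel)

theorem b_m_H2_18 : Box 479 ⟨4, 8, 6, 9⟩ (d.nH2 d.m true) [(0, false), (1, false), (0, true), (2, false), (1, true), (2, true), (0, false), (1, true), (0, false), (1, false), (3, true), (2, false), (0, false), (2, false), (1, false), (3, false), (0, false)] := Box.of 1284954967656202 (by decide +kernel)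

theorem b_m_H2_19 : Box 479 ⟨4, 8, 6, 9⟩ (d.nH2 d.m true) [(0, false), (1, false), (0, true), (2, false), (1, true), (2, true), (0, false), (1, true), (0, false), (1, false), (3, true), (2, false), (0, false), (2, false), (1, false), (3, false), (0, true), (2, false)] := Box.of 87515749409100517535252761 (by decide +kernel)

theorem b_m_H2_20 : Box 479 ⟨4, 8, 6, 9⟩ (d.nH2 d.m true) [(0, false), (1, false), (0, true), (2, false), (1, true), (2, true), (0, false), (1, true), (0, false), (1, false), (3, true), (2, false), (0, false), (2, false), (1, false), (3, false), (0, true), (2, true), (1, false)] := Box.of 1277946112051459 (by decide +kernel)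

theorem b_m_H2_21 : Box 479 ⟨4, 8, 6, 9⟩ (d.nH2 d.m true) [(0, false), (1, false), (0, true), (2, false), (1, true), (2, true), (0, false), (1, true), (0, false), (1, false), (3, true), (2, false), (0, false), (2, false), (1, false), (3, false), (0, true), (2, true), (1, true)] := Box.of 88121761917210427281672451 (by decide +kernel)

theorem b_m_H2_22 : Box 479 ⟨4, 8, 6, 9⟩ (d.nH2 d.m true) [(0, false), (1, false), (0, true), (2, false), (1, true), (2, true), (0, false), (1, true), (0, false), (1, false), (3, true), (2, false), (0, false), (2, false), (1, false), (3, false), (0, true), (2, true)] := Box.merge 1 b_m_H2_20 b_m_H2_21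

theorem b_m_H2_23 : Box 479 ⟨4, 8, 6, 9⟩ (d.nH2 d.m true) [(0, false), (1, false), (0, true), (2, false), (1, true), (2, true), (0, false), (1, true), (0, false), (1, false), (3, true), (2, false), (0, false), (2, false), (1, false), (3, false), (0, true)] := Box.merge 2 b_m_H2_19 b_m_H2_22

theorem b_m_H2_24 : Box 479 ⟨4, 8, 6, 9⟩ (d.nH2 d.m true) [(0, false), (1, false), (0, true), (2, false), (1, true), (2, true), (0, false), (1, true), (0, false), (1, false), (3, true), (2, false), (0, false), (2, false), (1, false), (3, false)] := Box.merge 0 b_m_H2_18 b_m_H2_23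

theorem b_m_H2_25 : Box 479 ⟨4, 8, 6, 9⟩ (d.nH2 d.m true) [(0, false), (1, false), (0, true), (2, false), (1, true), (2, true), (0, false), (1, true), (0, false), (1, false), (3, true), (2, false), (0, false), (2, false), (1, false), (3, true)] := Box.of 1196192 (by decide +kernel)

theorem b_m_H2_26 : Box 479 ⟨4, 8, 6, 9⟩ (d.nH2 d.m true) [(0, false), (1, false), (0, true), (2, false), (1, true), (2, true), (0, false), (1, true), (0, false), (1, false), (3, true), (2, false), (0, false), (2, false), (1, false)] := Box.merge 3 b_m_H2_24 b_m_H2_25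

theorem b_m_H2_27 : Box 479 ⟨4, 8, 6, 9⟩ (d.nH2 d.m true) [(0, false), (1, false), (0, true), (2, false), (1, true), (2, true), (0, false), (1, true), (0, false), (1, false), (3, true), (2, false), (0, false), (2, false), (1, true)] := Box.of 1181955 (by decide +kernel)

theorem b_m_H2_28 : Box 479 ⟨4, 8, 6, 9⟩ (d.nH2 d.m true) [(0, false), (1, false), (0, true), (2, false), (1, true), (2, true), (0, false), (1, true), (0, false), (1, false), (3, true), (2, false), (0, false), (2, false)] := Box.merge 1 b_m_H2_26 b_m_H2_27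

theorem b_m_H2_29 : Box 479 ⟨4, 8, 6, 9⟩ (d.nH2 d.m true) [(0, false), (1, false), (0, true), (2, false), (1, true), (2, true), (0, false), (1, true), (0, false), (1, false), (3, true), (2, false), (0, false), (2, true)] := Box.of 1198091 (by decide +kernel)

theorem b_m_H2_30 : Box 479 ⟨4, 8, 6, 9⟩ (d.nH2 d.m true) [(0, false), (1, false), (0, true), (2, false), (1, true), (2, true), (0, false), (1, true), (0, false), (1, false), (3, true), (2, false), (0, false)] := Box.merge 2 b_m_H2_28 b_m_H2_29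

theorem b_m_H2_31 : Box 479 ⟨4, 8, 6, 9⟩ (d.nH2 d.m true) [(0, false), (1, false), (0, true), (2, false), (1, true), (2, true), (0, false), (1, true), (0, false), (1, false), (3, true), (2, false), (0, true)] := Box.of 20102127949002 (by decide +kernel)

theorem b_m_H2_32 : Box 479 ⟨4, 8, 6, 9⟩ (d.nH2 d.m true) [(0, false), (1, false), (0, true), (2, false), (1, true), (2, true), (0, false), (1, true), (0, false), (1, false), (3, true), (2, false)] := Box.merge 0 b_m_H2_30 b_m_H2_31

theorem b_m_H2_33 : Box 479 ⟨4, 8, 6, 9⟩ (d.nH2 d.m true) [(0, false), (1, false), (0, true), (2, false), (1, true), (2, true), (0, false), (1, true), (0, false), (1, false), (3, true), (2, true)] := Box.of 4 (by decide +kernel)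

theorem b_m_H2_34 : Box 479 ⟨4, 8, 6, 9⟩ (d.nH2 d.m true) [(0, false), (1, false), (0, true), (2, false), (1, true), (2, true), (0, false), (1, true), (0, false), (1, false), (3, true)] := Box.merge 2 b_m_H2_32 b_m_H2_33

theorem b_m_H2_35 : Box 479 ⟨4, 8, 6, 9⟩ (d.nH2 d.m true) [(0, false), (1, false), (0, true), (2, false), (1, true), (2, true), (0, false), (1, true), (0, false), (1, false)] := Box.merge 3 b_m_H2_17 b_m_H2_34

theorem b_m_H2_36 : Box 479 ⟨4, 8, 6, 9⟩ (d.nH2 d.m true) [(0, false), (1, false), (0, true), (2, false), (1, true), (2, true), (0, false), (1, true), (0, false), (1, true)] := Box.of 4 (by decide +kernel)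

theorem b_m_H2_37 : Box 479 ⟨4, 8, 6, 9⟩ (d.nH2 d.m true) [(0, false), (1, false), (0, true), (2, false), (1, true), (2, true), (0, false), (1, true), (0, false)] := Box.merge 1 b_m_H2_35 b_m_H2_36

theorem b_m_H2_38 : Box 479 ⟨4, 8, 6, 9⟩ (d.nH2 d.m true) [(0, false), (1, false), (0, true), (2, false), (1, true), (2, true), (0, false), (1, true), (0, true)] := Box.of 290 (by decide +kernel)

theorem b_m_H2_39 : Box 479 ⟨4, 8, 6, 9⟩ (d.nH2 d.m true) [(0, false), (1, false), (0, true), (2, false), (1, true), (2, true), (0, false), (1, true)] := Box.merge 0 b_m_H2_37 b_m_H2_38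

theorem b_m_H2_40 : Box 479 ⟨4, 8, 6, 9⟩ (d.nH2 d.m true) [(0, false), (1, false), (0, true), (2, false), (1, true), (2, true), (0, false)] := Box.merge 1 b_m_H2_16 b_m_H2_39

theorem b_m_H2_41 : Box 479 ⟨4, 8, 6, 9⟩ (d.nH2 d.m true) [(0, false), (1, false), (0, true), (2, false), (1, true), (2, true), (0, true)] := Box.of 4 (by decide +kernel)

theorem b_m_H2_42 : Box 479 ⟨4, 8, 6, 9⟩ (d.nH2 d.m true) [(0, false), (1, false), (0, true), (2, false), (1, true), (2, true)] := Box.merge 0 b_m_H2_40 b_m_H2_41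

theorem b_m_H2_43 : Box 479 ⟨4, 8, 6, 9⟩ (d.nH2 d.m true) [(0, false), (1, false), (0, true), (2, false), (1, true)] := Box.merge 2 b_m_H2_15 b_m_H2_42

theorem b_m_H2_44 : Box 479 ⟨4, 8, 6, 9⟩ (d.nH2 d.m true) [(0, false), (1, false), (0, true), (2, false)] := Box.merge 1 b_m_H2_14 b_m_H2_43

theorem b_m_H2_45 : Box 479 ⟨4, 8, 6, 9⟩ (d.nH2 d.m true) [(0, false), (1, false), (0, true), (2, true), (1, false), (3, false), (2, false), (3, false), (3, false), (2, false)] := Box.of 1381610773138820954140888 (by decide +kernel)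

theorem b_m_H2_46 : Box 479 ⟨4, 8, 6, 9⟩ (d.nH2 d.m true) [(0, false), (1, false), (0, true), (2, true), (1, false), (3, false), (2, false), (3, false), (3, false), (2, true)] := Box.of 76693507 (by decide +kernel)

theorem b_m_H2_47 : Box 479 ⟨4, 8, 6, 9⟩ (d.nH2 d.m true) [(0, false), (1, false), (0, true), (2, true), (1, false), (3, false), (2, false), (3, false), (3, false)] := Box.merge 2 b_m_H2_45 b_m_H2_46

theorem b_m_H2_48 : Box 479 ⟨4, 8, 6, 9⟩ (d.nH2 d.m true) [(0, false), (1, false), (0, true), (2, true), (1, false), (3, false), (2, false), (3, false), (3, true)] := Box.of 4 (by decide +kernel)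

theorem b_m_H2_49 : Box 479 ⟨4, 8, 6, 9⟩ (d.nH2 d.m true) [(0, false), (1, false), (0, true), (2, true), (1, false), (3, false), (2, false), (3, false)] := Box.merge 3 b_m_H2_47 b_m_H2_48

theorem b_m_H2_50 : Box 479 ⟨4, 8, 6, 9⟩ (d.nH2 d.m true) [(0, false), (1, false), (0, true), (2, true), (1, false), (3, false), (2, false), (3, true)] := Box.of 4 (by decide +kernel)

theorem b_m_H2_51 : Box 479 ⟨4, 8, 6, 9⟩ (d.nH2 d.m true) [(0, false), (1, false), (0, true), (2, true), (1, false), (3, false), (2, false)] := Box.merge 3 b_m_H2_49 b_m_H2_50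

theorem b_m_H2_52 : Box 479 ⟨4, 8, 6, 9⟩ (d.nH2 d.m true) [(0, false), (1, false), (0, true), (2, true), (1, false), (3, false), (2, true)] := Box.of 4 (by decide +kernel)

theorem b_m_H2_53 : Box 479 ⟨4, 8, 6, 9⟩ (d.nH2 d.m true) [(0, false), (1, false), (0, true), (2, true), (1, false), (3, false)] := Box.merge 2 b_m_H2_51 b_m_H2_52

theorem b_m_H2_54 : Box 479 ⟨4, 8, 6, 9⟩ (d.nH2 d.m true) [(0, false), (1, false), (0, true), (2, true), (1, false), (3, true)] := Box.of 4 (by decide +kernel)

theorem b_m_H2_55 : Box 479 ⟨4, 8, 6, 9⟩ (d.nH2 d.m true) [(0, false), (1, false), (0, true), (2, true), (1, false)] := Box.merge 3 b_m_H2_53 b_m_H2_54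

theorem b_m_H2_56 : Box 479 ⟨4, 8, 6, 9⟩ (d.nH2 d.m true) [(0, false), (1, false), (0, true), (2, true), (1, true)] := Box.of 4 (by decide +kernel)

theorem b_m_H2_57 : Box 479 ⟨4, 8, 6, 9⟩ (d.nH2 d.m true) [(0, false), (1, false), (0, true), (2, true)] := Box.merge 1 b_m_H2_55 b_m_H2_56

theorem b_m_H2_58 : Box 479 ⟨4, 8, 6, 9⟩ (d.nH2 d.m true) [(0, false), (1, false), (0, true)] := Box.merge 2 b_m_H2_44 b_m_H2_57

theorem b_m_H2_59 : Box 479 ⟨4, 8, 6, 9⟩ (d.nH2 d.m true) [(0, false), (1, false)] := Box.merge 0 b_m_H2_13 b_m_H2_58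

theorem b_m_H2_60 : Box 479 ⟨4, 8, 6, 9⟩ (d.nH2 d.m true) [(0, false), (1, true), (0, false)] := Box.of 88424285060769238720483426 (by decide +kernel)

theorem b_m_H2_61 : Box 479 ⟨4, 8, 6, 9⟩ (d.nH2 d.m true) [(0, false), (1, true), (0, true)] := Box.of 290 (by decide +kernel)

theorem b_m_H2_62 : Box 479 ⟨4, 8, 6, 9⟩ (d.nH2 d.m true) [(0, false), (1, true)] := Box.merge 0 b_m_H2_60 b_m_H2_61

theorem b_m_H2_63 : Box 479 ⟨4, 8, 6, 9⟩ (d.nH2 d.m true) [(0, false)] := Box.merge 1 b_m_H2_59 b_m_H2_62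

theorem b_m_H2_64 : Box 479 ⟨4, 8, 6, 9⟩ (d.nH2 d.m true) [(0, true)] := Box.of 18705 (by decide +kernel)

theorem b_m_H2_65 : Box 479 ⟨4, 8, 6, 9⟩ (d.nH2 d.m true) [] := Box.merge 0 b_m_H2_63 b_m_H2_64

theorem n_m_H2 : NG (d.nH2 d.m true) :=
  NG.of (K := 479) (D := ⟨4, 8, 6, 9⟩) b_m_H2_65 (by decide +kernel)

end Pool.Agent.RX.RCM9.CertG2
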