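import Pool.Agent.RX.RCM9.CertG2D

/-! Generated: box certificates of level 1/2 (MP_73ccd0_lc). -/

set_option autoImplicit false

namespace Pool.Agent.RX.RCM9.CertG2

open Pool.Agent.RX.RCM9.Bern Pool.Agent.RX.RCM9.Pk Pool.Agent.RX.RCM9.G Pool.Agent.RX.RCM9.G.GDat

theorem b_mR_H2_1 : Box 354 ⟨4, 8, 6, 9⟩ (d.nH2 d.mR false) [(0, false), (1, false), (0, false), (2, false), (1, false)] := Box.of 21438081268396884772066 (by decide +kernel)

theorem b_mR_H2_2 : Box 354 ⟨4, 8, 6, 9⟩ (d.nH2 d.mR false) [(0, false), (1, false), (0, false), (2, false), (1, true), (0, false)] := Box.of 4857414411 (by decide +kernel)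

theorem b_mR_H2_3 : Box 354 ⟨4, 8, 6, 9⟩ (d.nH2 d.mR false) [(0, false), (1, false), (0, false), (2, false), (1, true), (0, true), (2, false), (3, false), (1, false)] := Box.of 288 (by decide +kernel)

theorem b_mR_H2_4 : Box 354 ⟨4, 8, 6, 9⟩ (d.nH2 d.mR false) [(0, false), (1, false), (0, false), (2, false), (1, true), (0, true), (2, false), (3, false), (1, true)] := Box.of 88310138905986473291559704 (by decide +kernel)

theorem b_mR_H2_5 : Box 354 ⟨4, 8, 6, 9⟩ (d.nH2 d.mR false) [(0, false), (1, false), (0, false), (2, false), (1, true), (0, true), (2, false), (3, false)] := Box.merge 1 b_mR_H2_3 b_mR_H2_4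

theorem b_mR_H2_6 : Box 354 ⟨4, 8, 6, 9⟩ (d.nH2 d.mR false) [(0, false), (1, false), (0, false), (2, false), (1, true), (0, true), (2, false), (3, true), (1, false)] := Box.of 1269009887594656 (by decide +kernel)

theorem b_mR_H2_7 : Box 354 ⟨4, 8, 6, 9⟩ (d.nH2 d.mR false) [(0, false), (1, false), (0, false), (2, false), (1, true), (0, true), (2, false), (3, true), (1, true)] := Box.of 81786661403248840 (by decide +kernel)

theorem b_mR_H2_8 : Box 354 ⟨4, 8, 6, 9⟩ (d.nH2 d.mR false) [(0, false), (1, false), (0, false), (2, false), (1, true), (0, true), (2, false), (3, true)] := Box.merge 1 b_mR_H2_6 b_mR_H2_7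

theorem b_mR_H2_9 : Box 354 ⟨4, 8, 6, 9⟩ (d.nH2 d.mR false) [(0, false), (1, false), (0, false), (2, false), (1, true), (0, true), (2, false)] := Box.merge 3 b_mR_H2_5 b_mR_H2_8

theorem b_mR_H2_10 : Box 354 ⟨4, 8, 6, 9⟩ (d.nH2 d.mR false) [(0, false), (1, false), (0, false), (2, false), (1, true), (0, true), (2, true), (1, false)] := Box.of 19829398583576 (by decide +kernel)

theorem b_mR_H2_11 : Box 354 ⟨4, 8, 6, 9⟩ (d.nH2 d.mR false) [(0, false), (1, false), (0, false), (2, false), (1, true), (0, true), (2, true), (1, true)] := Box.of 333835093466871367203 (by decide +kernel)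

theorem b_mR_H2_12 : Box 354 ⟨4, 8, 6, 9⟩ (d.nH2 d.mR false) [(0, false), (1, false), (0, false), (2, false), (1, true), (0, true), (2, true)] := Box.merge 1 b_mR_H2_10 b_mR_H2_11

theorem b_mR_H2_13 : Box 354 ⟨4, 8, 6, 9⟩ (d.nH2 d.mR false) [(0, false), (1, false), (0, false), (2, false), (1, true), (0, true)] := Box.merge 2 b_mR_H2_9 b_mR_H2_12

theorem b_mR_H2_14 : Box 354 ⟨4, 8, 6, 9⟩ (d.nH2 d.mR false) [(0, false), (1, false), (0, false), (2, false), (1, true)] := Box.merge 0 b_mR_H2_2 b_mR_H2_13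

theorem b_mR_H2_15 : Box 354 ⟨4, 8, 6, 9⟩ (d.nH2 d.mR false) [(0, false), (1, false), (0, false), (2, false)] := Box.merge 1 b_mR_H2_1 b_mR_H2_14

theorem b_mR_H2_16 : Box 354 ⟨4, 8, 6, 9⟩ (d.nH2 d.mR false) [(0, false), (1, false), (0, false), (2, true), (0, false), (1, false)] := Box.of 314139878619 (by decide +kernel)

theorem b_mR_H2_17 : Box 354 ⟨4, 8, 6, 9⟩ (d.nH2 d.mR false) [(0, false), (1, false), (0, false), (2, true), (0, false), (1, true)] := Box.of 333852282461790552768 (by decide +kernel)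

theorem b_mR_H2_18 : Box 354 ⟨4, 8, 6, 9⟩ (d.nH2 d.mR false) [(0, false), (1, false), (0, false), (2, true), (0, false)] := Box.merge 1 b_mR_H2_16 b_mR_H2_17

theorem b_mR_H2_19 : Box 354 ⟨4, 8, 6, 9⟩ (d.nH2 d.mR false) [(0, false), (1, false), (0, false), (2, true), (0, true)] := Box.of 289 (by decide +kernel)

theorem b_mR_H2_20 : Box 354 ⟨4, 8, 6, 9⟩ (d.nH2 d.mR false) [(0, false), (1, false), (0, false), (2, true)] := Box.merge 0 b_mR_H2_18 b_mR_H2_19

theorem b_mR_H2_21 : Box 354 ⟨4, 8, 6, 9⟩ (d.nH2 d.mR false) [(0, false), (1, false), (0, false)] := Box.merge 2 b_mR_H2_15 b_mR_H2_20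

theorem b_mR_H2_22 : Box 354 ⟨4, 8, 6, 9⟩ (d.nH2 d.mR false) [(0, false), (1, false), (0, true), (2, false), (1, false)] := Box.of 18690 (by decide +kernel)

theorem b_mR_H2_23 : Box 354 ⟨4, 8, 6, 9⟩ (d.nH2 d.mR false) [(0, false), (1, false), (0, true), (2, false), (1, true), (2, false)] := Box.of 337021409318524826632 (by decide +kernel)

theorem b_mR_H2_24 : Box 354 ⟨4, 8, 6, 9⟩ (d.nH2 d.mR false) [(0, false), (1, false), (0, true), (2, false), (1, true), (2, true)] := Box.of 76683329 (by decide +kernel)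

theorem b_mR_H2_25 : Box 354 ⟨4, 8, 6, 9⟩ (d.nH2 d.mR false) [(0, false), (1, false), (0, true), (2, false), (1, true)] := Box.merge 2 b_mR_H2_23 b_mR_H2_24

theorem b_mR_H2_26 : Box 354 ⟨4, 8, 6, 9⟩ (d.nH2 d.mR false) [(0, false), (1, false), (0, true), (2, false)] := Box.merge 1 b_mR_H2_22 b_mR_H2_25

theorem b_mR_H2_27 : Box 354 ⟨4, 8, 6, 9⟩ (d.nH2 d.mR false) [(0, false), (1, false), (0, true), (2, true)] := Box.of 4 (by decide +kernel)

theorem b_mR_H2_28 : Box 354 ⟨4, 8, 6, 9⟩ (d.nH2 d.mR false) [(0, false), (1, false), (0, true)] := Box.merge 2 b_mR_H2_26 b_mR_H2_27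

theorem b_mR_H2_29 : Box 354 ⟨4, 8, 6, 9⟩ (d.nH2 d.mR false) [(0, false), (1, false)] := Box.merge 0 b_mR_H2_21 b_mR_H2_28

theorem b_mR_H2_30 : Box 354 ⟨4, 8, 6, 9⟩ (d.nH2 d.mR false) [(0, false), (1, true), (0, false)] := Box.of 5620166589031057628791615560 (by decide +kernel)

theorem b_mR_H2_31 : Box 354 ⟨4, 8, 6, 9⟩ (d.nH2 d.mR false) [(0, false), (1, true), (0, true)] := Box.of 4 (by decide +kernel)

theorem b_mR_H2_32 : Box 354 ⟨4, 8, 6, 9⟩ (d.nH2 d.mR false) [(0, false), (1, true)] := Box.merge 0 b_mR_H2_30 b_mR_H2_31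

theorem b_mR_H2_33 : Box 354 ⟨4, 8, 6, 9⟩ (d.nH2 d.mR false) [(0, false)] := Box.merge 1 b_mR_H2_29 b_mR_H2_32

theorem b_mR_H2_34 : Box 354 ⟨4, 8, 6, 9⟩ (d.nH2 d.mR false) [(0, true)] := Box.of 290 (by decide +kernel)

theorem b_mR_H2_35 : Box 354 ⟨4, 8, 6, 9⟩ (d.nH2 d.mR false) [] := Box.merge 0 b_mR_H2_33 b_mR_H2_34

theorem n_mR_H2 : NG (d.nH2 d.mR false) :=
  NG.of (K := 354) (D := ⟨4, 8, 6, 9⟩) b_mR_H2_35 (by decide +kernel)

end Pool.Agent.RX.RCM9.CertG2
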