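import Pool.Agent.RX.RCM9.CertG2A
import Pool.Agent.RX.RCM9.CertG2B
import Pool.Agent.RX.RCM9.CertG2H1
import Pool.Agent.RX.RCM9.CertG2H2
import Pool.Agent.RX.RCM9.CertG2H3

/-! Generated: the conditions of level 1/2 (MP_73ccd0_lc). -/

set_option autoImplicit false

namespace Pool.Agent.RX.RCM9.CertG2

open Pool.Agent.RX.RCM9.Bern Pool.Agent.RX.RCM9.Pk Pool.Agent.RX.RCM9.G Pool.Agent.RX.RCM9.G.GDat

theorem pos : d.Pos where
  hcap := Or.inr rfl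
  U0 := by norm_num [d]
  yb := n_yb
  ex := n_ex
  v1 := n_v1
  oPi := n_oPi
  Pi := n_Pi
  ops := n_ops
  ps := n_ps
  h1 := n_h1
  hle := n_hle
  aB := n_aB
  bB := n_bB
  B2 := n_B2
  B1 := n_B1
  aP := fun i => Bool.rec n_aP_f n_aP_t i
  bP := fun i => Bool.rec n_bP_f n_bP_t i
  P2 := fun i => Bool.rec n_P2_f n_P2_t i
  P1 := fun i => Bool.rec n_P1_f n_P1_t i
  m := ⟨n_m_H1, n_m_H2, n_m_M1, n_m_Mb, n_m_al, n_m_be, n_m_C, by norm_num [d], by norm_num [d], by norm_num [d], by norm_num [d], by norm_num [d], by norm_num [d]⟩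
  mR := ⟨n_mR_H1, n_mR_H2, n_mR_M1, n_mR_Mb, n_mR_al, n_mR_be, n_mR_C, by norm_num [d], by norm_num [d], by norm_num [d], by norm_num [d], by norm_num [d], by norm_num [d]⟩
  zp := fun i => Bool.rec n_zp_f n_zp_t i
  zm := fun i => Bool.rec n_zm_f n_zm_t i
  sf := n_sf
  Sm := fun i => Bool.rec n_Sm_f n_Sm_t i
  Sz := fun i => Bool.rec n_Sz_f n_Sz_t i
  Sp := fun i => Bool.rec n_Sp_f n_Sp_t i
  c1 := n_c1
  c2 := n_c2
  c := fun i => Bool.rec n_c_f n_c_t i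
  jp := fun i => Bool.rec n_jp_f n_jp_t i
  jm := fun i => Bool.rec n_jm_f n_jm_t i
  jp0 := fun i => Bool.rec n_jp0_f n_jp0_t i
  jm0 := fun i => Bool.rec n_jm0_f n_jm0_t i
  op := fun i => Bool.rec n_op_f n_op_t i
  om := fun i => Bool.rec n_om_f n_om_t i

end Pool.Agent.RX.RCM9.CertG2
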