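import Pool.Agent.RX.RCM9.CertG2D

/-! Generated: box certificates of level 1/2 (MP_73ccd0_lc). -/

set_option autoImplicit false

namespace Pool.Agent.RX.RCM9.CertG2

open Pool.Agent.RX.RCM9.Bern Pool.Agent.RX.RCM9.Pk Pool.Agent.RX.RCM9.G Pool.Agent.RX.RCM9.G.GDat

theorem n_yb : NG (pe d.yb d.u) :=
  NG.of (K := 29) (D := ⟨1, 1, 1, 4⟩) (Box.of 4 (by decide +kernel)) (by decide +kernel)

theorem n_ex : NG d.nex :=
  NG.of (K := 182) (D := ⟨1, 1, 5, 13⟩) (Box.of 4908460178 (by decide +kernel)) (by decide +kernel)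

theorem n_v1 : NG d.nv1 :=
  NG.of (K := 37) (D := ⟨1, 1, 2, 4⟩) (Box.of 4 (by decide +kernel)) (by decide +kernel)

theorem n_oPi : NG d.noPi :=
  NG.of (K := 148) (D := ⟨1, 3, 3, 9⟩) (Box.of 18715 (by decide +kernel)) (by decide +kernel)

theorem n_Pi : NG (d.P gW gZ) :=
  NG.of (K := 93) (D := ⟨1, 3, 3, 8⟩) (Box.of 4 (by decide +kernel)) (by decide +kernel)

theorem n_ops : NG d.nops :=
  NG.of (K := 61) (D := ⟨1, 1, 3, 5⟩) (Box.of 4 (by decide +kernel)) (by decide +kernel)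

theorem n_ps : NG (d.e2 d.ps gW) :=
  NG.of (K := 68) (D := ⟨1, 1, 3, 6⟩) (Box.of 4 (by decide +kernel)) (by decide +kernel)

theorem n_h1 : NG (d.h1e gW) :=
  NG.of (K := 10) (D := ⟨1, 1, 3, 1⟩) (Box.of 4 (by decide +kernel)) (by decide +kernel)

theorem n_hle : NG (1 - (1 - gW) * d.h1e gW) :=
  NG.of (K := 12) (D := ⟨1, 1, 4, 1⟩) (Box.of 4 (by decide +kernel)) (by decide +kernel)

theorem n_aB : NG (d.e2 d.aB gW) :=
  NG.of (K := 54) (D := ⟨1, 1, 3, 4⟩) (Box.of 4 (by decide +kernel)) (by decide +kernel)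

theorem n_bB : NG (d.e2 d.bB gW) :=
  NG.of (K := 58) (D := ⟨1, 1, 2, 4⟩) (Box.of 291 (by decide +kernel)) (by decide +kernel)

theorem n_B1 : NG d.nB1 :=
  NG.of (K := 61) (D := ⟨1, 1, 3, 5⟩) (Box.of 4 (by decide +kernel)) (by decide +kernel)

theorem n_aP_f : NG (d.e2 (d.aP false) gW) :=
  NG.of (K := 68) (D := ⟨1, 1, 3, 6⟩) (Box.of 4 (by decide +kernel)) (by decide +kernel)

theorem n_bP_f : NG (d.e2 (d.bP false) gW) :=
  NG.of (K := 21) (D := ⟨1, 1, 2, 3⟩) (Box.of 4 (by decide +kernel)) (by decide +kernel)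

theorem n_P1_f : NG (d.nP1 false) :=
  NG.of (K := 92) (D := ⟨1, 1, 3, 8⟩) (Box.of 4 (by decide +kernel)) (by decide +kernel)

theorem n_aP_t : NG (d.e2 (d.aP true) gW) :=
  NG.of (K := 68) (D := ⟨1, 1, 3, 6⟩) (Box.of 4 (by decide +kernel)) (by decide +kernel)

theorem n_bP_t : NG (d.e2 (d.bP true) gW) :=
  NG.of (K := 65) (D := ⟨1, 1, 2, 6⟩) (Box.of 4 (by decide +kernel)) (by decide +kernel)

theorem n_P1_t : NG (d.nP1 true) :=
  NG.of (K := 91) (D := ⟨1, 1, 3, 8⟩) (Box.of 4 (by decide +kernel)) (by decide +kernel)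

theorem n_m_M1 : NG (d.nM1 d.m) :=
  NG.of (K := 72) (D := ⟨1, 1, 3, 6⟩) (Box.of 4 (by decide +kernel)) (by decide +kernel)

theorem n_m_Mb : NG (d.e2 d.m.Mb gW) :=
  NG.of (K := 78) (D := ⟨1, 1, 3, 7⟩) (Box.of 4 (by decide +kernel)) (by decide +kernel)

theorem n_m_al : NG (d.e2 d.m.al gW) :=
  NG.of (K := 70) (D := ⟨1, 1, 3, 6⟩) (Box.of 4 (by decide +kernel)) (by decide +kernel)

theorem n_m_be : NG (d.e2 d.m.be gW) :=
  NG.of (K := 66) (D := ⟨1, 1, 2, 6⟩) (Box.of 4 (by decide +kernel)) (by decide +kernel)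

theorem n_m_C : NG (d.e3 d.m.C gZ gW) :=
  NG.of (K := 76) (D := ⟨1, 4, 3, 6⟩) (Box.of 4 (by decide +kernel)) (by decide +kernel)

theorem n_mR_M1 : NG (d.nM1 d.mR) :=
  NG.of (K := 72) (D := ⟨1, 1, 3, 6⟩) (Box.of 4 (by decide +kernel)) (by decide +kernel)

theorem n_mR_Mb : NG (d.e2 d.mR.Mb gW) :=
  NG.of (K := 78) (D := ⟨1, 1, 3, 7⟩) (Box.of 4 (by decide +kernel)) (by decide +kernel)

theorem n_mR_al : NG (d.e2 d.mR.al gW) :=
  NG.of (K := 70) (D := ⟨1, 1, 3, 6⟩) (Box.of 4 (by decide +kernel)) (by decide +kernel)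

theorem n_mR_be : NG (d.e2 d.mR.be gW) :=
  NG.of (K := 65) (D := ⟨1, 1, 2, 6⟩) (Box.of 4 (by decide +kernel)) (by decide +kernel)

theorem n_mR_C : NG (d.e3 d.mR.C gZ gW) :=
  NG.of (K := 76) (D := ⟨1, 4, 3, 6⟩) (Box.of 4 (by decide +kernel)) (by decide +kernel)

theorem n_zp_f : NG (d.e2 (d.zp false) gW) :=
  NG.of (K := 98) (D := ⟨1, 1, 3, 10⟩) (Box.of 4 (by decide +kernel)) (by decide +kernel)

theorem n_zm_f : NG (d.e2 (d.zm false) gW) :=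
  NG.of (K := 104) (D := ⟨1, 1, 3, 11⟩) (Box.of 4 (by decide +kernel)) (by decide +kernel)

theorem n_zp_t : NG (d.e2 (d.zp true) gW) :=
  NG.of (K := 98) (D := ⟨1, 1, 3, 10⟩) (Box.of 4 (by decide +kernel)) (by decide +kernel)

theorem n_zm_t : NG (d.e2 (d.zm true) gW) :=
  NG.of (K := 104) (D := ⟨1, 1, 3, 11⟩) (Box.of 4 (by decide +kernel)) (by decide +kernel)

theorem n_sf : NG d.nsf :=
  NG.of (K := 161) (D := ⟨1, 1, 6, 6⟩) (Box.of 5268242098159236378 (by decide +kernel)) (by decide +kernel)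

theorem b_Sm_f_1 : Box 270 ⟨1, 1, 6, 15⟩ (d.nSm false) [(2, false), (2, false)] := Box.of 81779652536969363 (by decide +kernel)

theorem b_Sm_f_2 : Box 270 ⟨1, 1, 6, 15⟩ (d.nSm false) [(2, false), (2, true)] := Box.of 314011890970 (by decide +kernel)

theorem b_Sm_f_3 : Box 270 ⟨1, 1, 6, 15⟩ (d.nSm false) [(2, false)] := Box.merge 2 b_Sm_f_1 b_Sm_f_2

theorem b_Sm_f_4 : Box 270 ⟨1, 1, 6, 15⟩ (d.nSm false) [(2, true)] := Box.of 4 (by decide +kernel)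

theorem b_Sm_f_5 : Box 270 ⟨1, 1, 6, 15⟩ (d.nSm false) [] := Box.merge 2 b_Sm_f_3 b_Sm_f_4

theorem n_Sm_f : NG (d.nSm false) :=
  NG.of (K := 270) (D := ⟨1, 1, 6, 15⟩) b_Sm_f_5 (by decide +kernel)

theorem n_Sz_f : NG (d.nSz false) :=
  NG.of (K := 235) (D := ⟨1, 1, 6, 14⟩) (Box.of 20088158791890 (by decide +kernel)) (by decide +kernel)

theorem b_Sp_f_1 : Box 260 ⟨1, 1, 6, 14⟩ (d.nSp false) [(2, false), (2, false)] := Box.of 1190050 (by decide +kernel)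

theorem b_Sp_f_2 : Box 260 ⟨1, 1, 6, 14⟩ (d.nSp false) [(2, false), (2, true)] := Box.of 1381463307218886956557978 (by decide +kernel)

theorem b_Sp_f_3 : Box 260 ⟨1, 1, 6, 14⟩ (d.nSp false) [(2, false)] := Box.merge 2 b_Sp_f_1 b_Sp_f_2

theorem b_Sp_f_4 : Box 260 ⟨1, 1, 6, 14⟩ (d.nSp false) [(2, true)] := Box.of 4 (by decide +kernel)

theorem b_Sp_f_5 : Box 260 ⟨1, 1, 6, 14⟩ (d.nSp false) [] := Box.merge 2 b_Sp_f_3 b_Sp_f_4

theorem n_Sp_f : NG (d.nSp false) :=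
  NG.of (K := 260) (D := ⟨1, 1, 6, 14⟩) b_Sp_f_5 (by decide +kernel)

theorem n_Sm_t : NG (d.nSm true) :=
  NG.of (K := 259) (D := ⟨1, 1, 6, 15⟩) (Box.of 5658851494538205308572542162 (by decide +kernel)) (by decide +kernel)

theorem n_Sz_t : NG (d.nSz true) :=
  NG.of (K := 235) (D := ⟨1, 1, 6, 14⟩) (Box.of 1286603969276114 (by decide +kernel)) (by decide +kernel)

theorem b_Sp_t_1 : Box 261 ⟨1, 1, 6, 14⟩ (d.nSp true) [(2, false), (2, false)] := Box.of 4908001043 (by decide +kernel)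

theorem b_Sp_t_2 : Box 261 ⟨1, 1, 6, 14⟩ (d.nSp true) [(2, false), (2, true), (2, false)] := Box.of 81779772682290387 (by decide +kernel)

theorem b_Sp_t_3 : Box 261 ⟨1, 1, 6, 14⟩ (d.nSp true) [(2, false), (2, true), (2, true)] := Box.of 19966838581018 (by decide +kernel)

theorem b_Sp_t_4 : Box 261 ⟨1, 1, 6, 14⟩ (d.nSp true) [(2, false), (2, true)] := Box.merge 2 b_Sp_t_2 b_Sp_t_3

theorem b_Sp_t_5 : Box 261 ⟨1, 1, 6, 14⟩ (d.nSp true) [(2, false)] := Box.merge 2 b_Sp_t_1 b_Sp_t_4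

theorem b_Sp_t_6 : Box 261 ⟨1, 1, 6, 14⟩ (d.nSp true) [(2, true)] := Box.of 4 (by decide +kernel)

theorem b_Sp_t_7 : Box 261 ⟨1, 1, 6, 14⟩ (d.nSp true) [] := Box.merge 2 b_Sp_t_5 b_Sp_t_6

theorem n_Sp_t : NG (d.nSp true) :=
  NG.of (K := 261) (D := ⟨1, 1, 6, 14⟩) b_Sp_t_7 (by decide +kernel)

theorem n_c1 : NG d.nc1 :=
  NG.of (K := 116) (D := ⟨1, 1, 5, 9⟩) (Box.of 4 (by decide +kernel)) (by decide +kernel)

theorem n_c2 : NG d.nc2 :=
  NG.of (K := 124) (D := ⟨1, 1, 3, 10⟩) (Box.of 4 (by decide +kernel)) (by decide +kernel)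

theorem n_c_f : NG (d.e1 (d.c false)) :=
  NG.of (K := 67) (D := ⟨1, 1, 1, 6⟩) (Box.of 4 (by decide +kernel)) (by decide +kernel)

theorem n_jp_f : NG (d.njp false) :=
  NG.of (K := 332) (D := ⟨1, 1, 8, 18⟩) (Box.of 314144016018 (by decide +kernel)) (by decide +kernel)

theorem n_jm_f : NG (d.njm false) :=
  NG.of (K := 220) (D := ⟨1, 1, 8, 19⟩) (Box.of 4 (by decide +kernel)) (by decide +kernel)

theorem n_jp0_f : NG (d.e1 (d.jp false)) :=
  NG.of (K := 81) (D := ⟨1, 1, 1, 8⟩) (Box.of 4 (by decide +kernel)) (by decide +kernel)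

theorem n_jm0_f : NG (d.e1 (d.jm false)) :=
  NG.of (K := 81) (D := ⟨1, 1, 1, 9⟩) (Box.of 4 (by decide +kernel)) (by decide +kernel)

theorem n_op_f : NG (d.nop false) :=
  NG.of (K := 222) (D := ⟨1, 1, 3, 19⟩) (Box.of 291 (by decide +kernel)) (by decide +kernel)

theorem n_om_f : NG (d.nom false) :=
  NG.of (K := 219) (D := ⟨1, 1, 3, 18⟩) (Box.of 291 (by decide +kernel)) (by decide +kernel)

theorem n_c_t : NG (d.e1 (d.c true)) :=
  NG.of (K := 67) (D := ⟨1, 1, 1, 6⟩) (Box.of 4 (by decide +kernel)) (by decide +kernel)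

theorem n_jp_t : NG (d.njp true) :=
  NG.of (K := 332) (D := ⟨1, 1, 8, 18⟩) (Box.of 20104277509778 (by decide +kernel)) (by decide +kernel)

theorem n_jm_t : NG (d.njm true) :=
  NG.of (K := 220) (D := ⟨1, 1, 8, 19⟩) (Box.of 4 (by decide +kernel)) (by decide +kernel)

theorem n_jp0_t : NG (d.e1 (d.jp true)) :=
  NG.of (K := 77) (D := ⟨1, 1, 1, 8⟩) (Box.of 4 (by decide +kernel)) (by decide +kernel)

theorem n_jm0_t : NG (d.e1 (d.jm true)) :=
  NG.of (K := 86) (D := ⟨1, 1, 1, 9⟩) (Box.of 4 (by decide +kernel)) (by decide +kernel)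

theorem n_op_t : NG (d.nop true) :=
  NG.of (K := 227) (D := ⟨1, 1, 3, 19⟩) (Box.of 291 (by decide +kernel)) (by decide +kernel)

theorem n_om_t : NG (d.nom true) :=
  NG.of (K := 219) (D := ⟨1, 1, 3, 18⟩) (Box.of 291 (by decide +kernel)) (by decide +kernel)

end Pool.Agent.RX.RCM9.CertG2
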