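import Pool.Agent.RX.RCM9.CertG2D

/-! Generated: the row lists of level 1/2 (cap 2, U = 57/100) (MP_73ccd0_lc). -/

set_option autoImplicit false

namespace Pool.Agent.RX.RCM9.CertG2

open Pool.Agent.RX.RCM9.Bern Pool.Agent.RX.RCM9.Pk Pool.Agent.RX.RCM9.G Pool.Agent.RX.RCM9.G.GDat

def Gp : List (List ℚ) := [[0, 0, 424217/1250000, 857497/10000000, 5339159/40000000, 3481713/25000000, 518529/20000000, 1680247/5000000, (-5600619/10000000), 6932189/10000000], [0, 0, 10130299/20000000, 4582073/30000000, 2845299/20000000, 551261/25000000, (-302591/30000000), 75883/200000, (-6096591/10000000), 7616791/10000000], [0, 0, 1547317/10000000, 12916981/30000000, 3883083/20000000, 13296479/50000000, 538849/12000000, 1503587/5000000, (-4889011/10000000), 767573/1250000]]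

def Gm : List (List ℚ) := [[0, 0, 0, 5654963/30000000, 2257931/40000000, 2168489/25000000, 149759/2400000, 962961/10000000, 1627/62500, (-228039/2500000), 1977443/5000000], [0, 0, 0, 286369/1250000, 425089/8000000, (-7208881/50000000), 3326407/12000000, 441861/10000000, 514197/2500000, (-6311/15625), 37733/62500], [0, 0, 0, 180577/30000000, 255387/2000000, 1021407/10000000, 16846603/60000000, 2007/2000000, 2573807/10000000, (-2411827/5000000), 5998583/10000000]]

def GmR : List (List ℚ) := [[0, 0, 0, 313489/2500000, (-79377/2500000), 10030369/50000000, 7631/2400000, 962961/10000000, 1627/62500, (-228039/2500000), 1977443/5000000], [0, 0, 0, 3390917/10000000, 1776543/40000000, (-1919019/5000000), 25112953/60000000, 441861/10000000, 514197/2500000, (-6311/15625), 37733/62500], [0, 0, 0, (-49783/750000), 4225639/20000000, 8654587/50000000, 267659/1250000, 2007/2000000, 2573807/10000000, (-2411827/5000000), 5998583/10000000]]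

def Gph : List (List ℚ) := [[0, 0, 1896873/10000000, 23799/625000, 5256727/40000000, 3040801/50000000, 255049/20000000, 2545539/10000000, (-4503823/10000000), 5490851/10000000], [0, 0, 6438223/20000000, 539851/6000000, 90881/800000, 748333/12500000, (-110731/3750000), 379371/1250000, (-956973/2000000), 180401/312500], [0, 0, 108219/2000000, 3970411/30000000, (-157909/20000000), 5802419/50000000, 1323509/60000000, 2678449/10000000, (-4735103/10000000), 2628849/5000000]]

def Gmh : List (List ℚ) := [[0, 0, 0, 5654963/30000000, 2257931/40000000, 4337673/50000000, 2075993/60000000, 963887/10000000, (-839331/10000000), 735387/10000000, 433359/2000000], [0, 0, 0, 286369/1250000, 425089/8000000, (-1802099/12500000), 3099781/12000000, 64761/2000000, 1311793/10000000, (-2693239/10000000), 2134739/5000000], [0, 0, 0, 180577/30000000, 255387/2000000, 255363/2500000, 16776337/60000000, 28699/10000000, 911839/5000000, (-1763027/5000000), 2133211/5000000]]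

def sGp : List ℚ := [0, 0, 625603/1000000, (-410413/2000000), 1570253/10000000, 2455591/10000000, (-911799/2000000), 1058603/2000000]

def sGm : List ℚ := [0, 0, 0, 41983/156250, (-996037/5000000), 6314713/10000000, (-14823303/10000000), 4392811/2500000]

def sGmR : List ℚ := [0, 0, 0, 1244607/5000000, (-13383/125000), (-499119/10000000), 1182243/2000000, (-872821/1250000), 2817721/5000000]

/-- the exponent in the scalar form -/
def yb2 : List ℚ := [0, 0, 0, 13/100]

/-- the scalar form: `l (1 + 3/5 k) (1 + v + v²/2 + v³/6 + v⁴/24)` minus the list `g` -/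
def nsc (l : List ℚ) (g : List (List ℚ)) : E :=
  let v := gW * d.u + (1 - gW) * d.e1 yb2
  d.e1 l * ((1 + E.num 3 5 * gW) * (1 + v * (1 + v * E.num 1 2 + v ^ 2 * E.num 1 6
    + v ^ 3 * E.num 1 24))) - d.e2 g gW

theorem leGp : NG (d.e2 Gp gW - (d.e2 (d.Pb true) gW + d.e2 (d.zp true) gW)) :=
  NG.of (K := 103) (D := ⟨1, 1, 3, 10⟩) (Box.of 4 (by decide +kernel)) (by decide +kernel)

theorem leGm : NG (d.e2 Gm gW - (d.e2 d.m.Mb gW + d.e2 (d.zm true) gW)) :=
  NG.of (K := 109) (D := ⟨1, 1, 3, 11⟩) (Box.of 4 (by decide +kernel)) (by decide +kernel)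

theorem leGmR : NG (d.e2 GmR gW - (d.e2 d.mR.Mb gW + d.e2 (d.zm true) gW)) :=
  NG.of (K := 110) (D := ⟨1, 1, 3, 11⟩) (Box.of 4 (by decide +kernel)) (by decide +kernel)

theorem leGph : NG (d.e2 Gph gW - (d.e2 (d.Pb false) gW + d.e2 (d.zp false) gW)) :=
  NG.of (K := 102) (D := ⟨1, 1, 3, 10⟩) (Box.of 4 (by decide +kernel)) (by decide +kernel)

theorem leGmh : NG (d.e2 Gmh gW - (d.e2 d.m.Mb gW + d.e2 (d.zm false) gW)) :=
  NG.of (K := 109) (D := ⟨1, 1, 3, 11⟩) (Box.of 4 (by decide +kernel)) (by decide +kernel)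

theorem sGp_le : NG (nsc sGp Gp) :=
  NG.of (K := 215) (D := ⟨1, 1, 6, 20⟩) (Box.of 4 (by decide +kernel)) (by decide +kernel)

theorem sGm_le : NG (nsc sGm Gm) :=
  NG.of (K := 328) (D := ⟨1, 1, 6, 20⟩) (Box.of 20087099730203 (by decide +kernel)) (by decide +kernel)

theorem sGmR_le : NG (nsc sGmR GmR) :=
  NG.of (K := 222) (D := ⟨1, 1, 6, 21⟩) (Box.of 4 (by decide +kernel)) (by decide +kernel)

theorem yb2_nn : NG (d.e1 yb2) :=
  NG.of (K := 29) (D := ⟨1, 1, 1, 4⟩) (Box.of 4 (by decide +kernel)) (by decide +kernel)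

theorem sGp0 : NG (d.e1 sGp) :=
  NG.of (K := 78) (D := ⟨1, 1, 1, 8⟩) (Box.of 4 (by decide +kernel)) (by decide +kernel)

theorem sGm0 : NG (d.e1 sGm) :=
  NG.of (K := 78) (D := ⟨1, 1, 1, 8⟩) (Box.of 4 (by decide +kernel)) (by decide +kernel)

theorem sGmR0 : NG (d.e1 sGmR) :=
  NG.of (K := 86) (D := ⟨1, 1, 1, 9⟩) (Box.of 4 (by decide +kernel)) (by decide +kernel)

end Pool.Agent.RX.RCM9.CertG2
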