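import Pool.Agent.RX.RCM9.CertGSD

/-! Generated: box certificates of level 1/2 of the star world (MP_73ccd0_lc). -/

set_option autoImplicit false

namespace Pool.Agent.RX.RCM9.CertGS

open Pool.Agent.RX.RCM9.Bern Pool.Agent.RX.RCM9.Pk Pool.Agent.RX.RCM9.G Pool.Agent.RX.RCM9.G.GDat

theorem n_B2 : NG d.nB2 :=
  NG.of (K := 112) (D := ⟨2, 4, 3, 5⟩) (Box.of 1381620259025989166744329 (by decide +kernel)) (by decide +kernel)

theorem b_P2_f_1 : Box 210 ⟨2, 7, 3, 8⟩ (d.nP2 false) [(1, false), (1, false)] := Box.of 1367314401432611389576418 (by decide +kernel)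

theorem b_P2_f_2 : Box 210 ⟨2, 7, 3, 8⟩ (d.nP2 false) [(1, false), (1, true), (1, false), (2, false), (2, false)] := Box.of 19964688943243 (by decide +kernel)

theorem b_P2_f_3 : Box 210 ⟨2, 7, 3, 8⟩ (d.nP2 false) [(1, false), (1, true), (1, false), (2, false), (2, true)] := Box.of 1367432427937098713940633 (by decide +kernel)

theorem b_P2_f_4 : Box 210 ⟨2, 7, 3, 8⟩ (d.nP2 false) [(1, false), (1, true), (1, false), (2, false)] := Box.merge 2 b_P2_f_2 b_P2_f_3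

theorem b_P2_f_5 : Box 210 ⟨2, 7, 3, 8⟩ (d.nP2 false) [(1, false), (1, true), (1, false), (2, true), (1, false)] := Box.of 87516855846794990277763731 (by decide +kernel)

theorem b_P2_f_6 : Box 210 ⟨2, 7, 3, 8⟩ (d.nP2 false) [(1, false), (1, true), (1, false), (2, true), (1, true)] := Box.of 313066132762 (by decide +kernel)

theorem b_P2_f_7 : Box 210 ⟨2, 7, 3, 8⟩ (d.nP2 false) [(1, false), (1, true), (1, false), (2, true)] := Box.merge 1 b_P2_f_5 b_P2_f_6

theorem b_P2_f_8 : Box 210 ⟨2, 7, 3, 8⟩ (d.nP2 false) [(1, false), (1, true), (1, false)] := Box.merge 2 b_P2_f_4 b_P2_f_7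

theorem b_P2_f_9 : Box 210 ⟨2, 7, 3, 8⟩ (d.nP2 false) [(1, false), (1, true), (1, true)] := Box.of 4908528722 (by decide +kernel)

theorem b_P2_f_10 : Box 210 ⟨2, 7, 3, 8⟩ (d.nP2 false) [(1, false), (1, true)] := Box.merge 1 b_P2_f_8 b_P2_f_9

theorem b_P2_f_11 : Box 210 ⟨2, 7, 3, 8⟩ (d.nP2 false) [(1, false)] := Box.merge 1 b_P2_f_1 b_P2_f_10

theorem b_P2_f_12 : Box 210 ⟨2, 7, 3, 8⟩ (d.nP2 false) [(1, true)] := Box.of 4 (by decide +kernel)

theorem b_P2_f_13 : Box 210 ⟨2, 7, 3, 8⟩ (d.nP2 false) [] := Box.merge 1 b_P2_f_11 b_P2_f_12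

theorem n_P2_f : NG (d.nP2 false) :=
  NG.of (K := 210) (D := ⟨2, 7, 3, 8⟩) b_P2_f_13 (by decide +kernel)

theorem n_P2_t : NG (d.nP2 true) :=
  NG.of (K := 146) (D := ⟨2, 4, 3, 8⟩) (Box.of 1381601780756700856369929 (by decide +kernel)) (by decide +kernel)

end Pool.Agent.RX.RCM9.CertGS
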