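import Pool.Agent.RX.RCM9.CertGSD

/-! Generated: box certificates of level 1/2 of the star world (MP_73ccd0_lc). -/

set_option autoImplicit false

namespace Pool.Agent.RX.RCM9.CertGS

open Pool.Agent.RX.RCM9.Bern Pool.Agent.RX.RCM9.Pk Pool.Agent.RX.RCM9.G Pool.Agent.RX.RCM9.G.GDat

theorem n_mR_H1 : NG (d.nH1 d.mR false) :=
  NG.of (K := 326) (D := ⟨3, 5, 3, 16⟩) (Box.of 1286664366627083 (by decide +kernel)) (by decide +kernel)

end Pool.Agent.RX.RCM9.CertGS
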