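import Pool.Agent.RX.RCM9.CertGSD

/-! Generated: box certificates of level 1/2 of the star world (MP_73ccd0_lc). -/

set_option autoImplicit false

namespace Pool.Agent.RX.RCM9.CertGS

open Pool.Agent.RX.RCM9.Bern Pool.Agent.RX.RCM9.Pk Pool.Agent.RX.RCM9.G Pool.Agent.RX.RCM9.G.GDat

theorem n_mR_H2 : NG (d.nH2 d.mR false) :=
  NG.of (K := 242) (D := ⟨4, 8, 5, 9⟩) (Box.of 1286734136776961 (by decide +kernel)) (by decide +kernel)

end Pool.Agent.RX.RCM9.CertGS
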