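import Pool.Agent.RX.RCM.GTh
import Pool.Agent.RX.RCM9.DatG2

/-! The functions of the clock variable for level 1/2 of the star world: the conditions
(MP_73ccd0_lc, route M). -/

set_option autoImplicit false

namespace Pool.Agent.RX.RCM9.G

open Set Bern Pk Pool.Agent.RX.RCM

namespace GDat

variable (d : GDat)

/-- the exponent of the star world -/
def vs : E := (gW + E.num 1 2) * d.u + (E.num 1 2 - gW) * pe d.yb d.u
def nexs : E := d.f gW - (1 + d.vs * (1 + d.vs * E.num 1 2 + d.vs ^ 2 * E.num 1 6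
  + d.vs ^ 3 * E.num 1 19))

structure SPos (nb : List ℚ) : Prop where
  hcap : d.cap = 1 ∨ d.cap = 2
  U0 : 0 < d.U
  ex : NG d.nexs
  v0 : NG d.vs
  v1 : NG (1 - d.vs)
  nbn : NG (d.e1 nb)
  oPi : NG d.noPi
  Pi : NG (d.P gW gZ)
  h1 : NG (d.h1e gW)
  hle : NG (1 - (1 - gW) * d.h1e gW)
  aB : NG (d.e2 d.aB gW)
  bB : NG (d.e2 d.bB gW)
  B2 : NG d.nB2
  B1 : NG d.nB1
  aP : ∀ i, NG (d.e2 (d.aP i) gW)
  bP : ∀ i, NG (d.e2 (d.bP i) gW)
  P2 : ∀ i, NG (d.nP2 i)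
  P1 : ∀ i, NG (d.nP1 i)
  mR : d.MPos d.mR false
  Mb : NG (d.e2 d.m.Mb gW)
  oM : NG (d.e2 (dd2 d.m.Mb) gW - (d.e1 nb + (d.e2 d.mR.al gW + d.gKe * d.e2 d.mR.be gW)))
  zp : ∀ i, NG (d.e2 (d.zp i) gW)
  zm : ∀ i, NG (d.e2 (d.zm i) gW)
  sf : NG d.nsf
  Sm : ∀ i, NG (d.nSm i)
  Sz : ∀ i, NG (d.nSz i)
  Sp : ∀ i, NG (d.nSp i)
  c1 : NG d.nc1
  c2 : NG d.nc2
  c : ∀ i, NG (d.e1 (d.c i))
  jp : ∀ i, NG (d.njp i)
  jm : ∀ i, NG (d.njm i)
  jp0 : ∀ i, NG (d.e1 (d.jp i))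
  jm0 : ∀ i, NG (d.e1 (d.jm i))
  op : ∀ i, NG (d.nop i)
  om : ∀ i, NG (d.nom i)

variable {d} {nb : List ℚ}

section

variable {k κ l u y : ℝ}

/-- simple facts: expressions in `k` and `u` -/
theorem SPos.ku (h : d.SPos nb) {e : E} (he : NG e) (hk : k ∈ Icc (0 : ℝ) 1)
    (hu : u ∈ Icc (0 : ℝ) d.U) : ∃ T : ℝ, (d.U : ℝ) * T = u ∧ 0 ≤ e.val (pt 0 0 k T) :=
  at_u h.U0 he z01 z01 hk hu

theorem SPos.nn2 (h : d.SPos nb) {l : List (List ℚ)} (he : NG (d.e2 l gW)) (hk : k ∈ Icc (0 : ℝ) 1)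
    (hu : u ∈ Icc (0 : ℝ) d.U) : 0 ≤ pv2 l k u := by
  obtain ⟨T, hT, h1⟩ := h.ku he hk hu
  simpa only [val_e2, val_gW, hT] using h1

theorem SPos.nn1 (h : d.SPos nb) {l : List ℚ} (he : NG (d.e1 l))
    (hu : u ∈ Icc (0 : ℝ) d.U) : 0 ≤ pv l u := by
  obtain ⟨T, hT, h1⟩ := h.ku he z01 hu
  simpa only [val_e1, hT] using h1

/-- the bound of the vertex function of the star -/
noncomputable def fs (y : List ℚ) (k u : ℝ) : ℝ :=
  Real.exp ((k + 1 / 2) * u + (1 / 2 - k) * pv y u)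

theorem SPos.hF (h : d.SPos nb) (hk : k ∈ Icc (0 : ℝ) 1) (hu : u ∈ Icc (0 : ℝ) d.U) :
    fs d.yb k u ≤ pv2 d.F k u := by
  obtain ⟨T, hT, h1⟩ := h.ku h.ex hk hu
  obtain ⟨T2, hT2, h2⟩ := h.ku h.v1 hk hu
  obtain ⟨T3, hT3, h3⟩ := h.ku h.v0 hk hu
  simp only [nexs, vs, val_sub, val_add, val_mul, val_pow, val_f, val_u, val_pe, val_gW, val_one,
    val_num, hT] at h1
  simp only [vs, val_sub, val_add, val_mul, val_u, val_pe, val_gW, val_one, val_num, hT2] at h2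
  simp only [vs, val_sub, val_add, val_mul, val_u, val_pe, val_gW, val_num, hT3] at h3
  push_cast at h1 h2 h3
  unfold fs
  set v := (k + 1 / 2) * u + (1 / 2 - k) * pv d.yb u with hv
  have := exp_T4 h3 (by linarith)
  refine this.trans ?_
  have e : v / 2 = v * (1 / 2) := by ring
  linarith

theorem SPos.f0 (h : d.SPos nb) (hk : k ∈ Icc (0 : ℝ) 1) (hu : u ∈ Icc (0 : ℝ) d.U) :
    0 ≤ pv2 d.F k u := (Real.exp_pos _).le.trans (h.hF hk hu)

theorem SPos.oPi' (h : d.SPos nb) (k : ℝ) (hk : k ∈ Icc (0 : ℝ) 1) (l : ℝ)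
    (hl : l ∈ Icc (0 : ℝ) 1) (u : ℝ) (hu : u ∈ Icc (0 : ℝ) d.U) :
    pv2 d.F k u * pv2 d.F l u - 1 ≤ pv3 (dd3 d.Pi) k l u := by
  obtain ⟨T, hT, h1⟩ := at_u h.U0 h.oPi z01 hl hk hu
  simp only [noPi, val_sub, val_add, val_mul, val_f, val_e3, val_gW, val_gZ, val_one, hT] at h1
  linarith

theorem SPos.Pi0 (h : d.SPos nb) (k : ℝ) (hk : k ∈ Icc (0 : ℝ) 1) (l : ℝ)
    (hl : l ∈ Icc (0 : ℝ) 1) (u : ℝ) (hu : u ∈ Icc (0 : ℝ) d.U) : 0 ≤ pv3 d.Pi k l u := by
  obtain ⟨T, hT, h1⟩ := at_u h.U0 h.Pi z01 hl hk hu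
  simp only [val_P, val_gW, val_gZ, hT] at h1
  exact h1

theorem SPos.lpf (h : d.SPos nb) {al be W : List (List ℚ)} {φ φ0 : E} (hal : NG (d.e2 al gW))
    (hbe : NG (d.e2 be gW)) (h2 : NG (d.nlp al be φ φ0)) (h1 : NG (d.nlw al be W φ0))
    (hk : k ∈ Icc (0 : ℝ) 1) (hu : u ∈ Icc (0 : ℝ) d.U) {g : ℝ → ℝ}
    (hg : ∀ X T κ : ℝ, (d.U : ℝ) * T = u → φ.val (pt X κ k T) = g κ)
    (hg0 : ∀ X T κ : ℝ, (d.U : ℝ) * T = u → φ0.val (pt X κ k T) = g 0) (g0 : 0 ≤ g 0) :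
    Lpf d.cap k g (pv2 W k u) := by
  refine ⟨pv2 al k u, pv2 be k u, h.nn2 hal hk hu, h.nn2 hbe hk hu, ?_, g0, ?_⟩
  · obtain ⟨T, hT, h3⟩ := h.ku h1 hk hu
    simp only [nlw, val_sub, val_add, val_mul, val_e2, val_gKe, val_gW, hT, hg0 _ _ _ hT] at h3
    linarith
  · intro y κ y0 κ0 hyκ
    obtain ⟨X, hX, hXy⟩ := ex_X y0 κ0 hyκ
    obtain ⟨T, hT, h3⟩ := at_u h.U0 h2 hX (⟨κ0, by linarith⟩ : κ ∈ Icc (0 : ℝ) 1) hk hu
    simp only [nlp, val_sub, val_add, val_mul, val_e2, val_eKe, val_y, val_gW, val_gZ, hT,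
      hg _ _ _ hT, hg0 _ _ _ hT, hXy] at h3
    linarith

theorem SPos.h0 (h : d.SPos nb) (hk : k ∈ Icc (0 : ℝ) 1) : 0 ≤ pv d.h1 k := by
  obtain ⟨T, hT, h1⟩ := h.ku h.h1 hk (⟨le_rfl, by exact_mod_cast h.U0.le⟩ :
    (0 : ℝ) ∈ Icc (0 : ℝ) d.U)
  simpa only [val_h1e, val_gW] using h1

theorem SPos.mok (h : d.SPos nb) {m : MDat} {s : Bool} (hm : d.MPos m s) :
    (d.mf m).Okb d.cb d.cap (fun l u => if s then pv2 d.ps l u else 0) where
  dMb k u := hasD2 m.Mb k u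
  Mb0 k hk := h.nn2 hm.Mb hk ⟨le_rfl, by exact_mod_cast h.U0.le⟩
  oMb k hk u hu := by
    obtain ⟨T, hT, h1⟩ := h.ku hm.M1 hk hu
    simp only [nM1, val_sub, val_add, val_mul, val_e2, val_gKe, val_gW, hT] at h1
    show pv2 m.al k u + gK d.cap k * pv2 m.be k u ≤ pv2 (dd2 m.Mb) k u
    linarith
  al0 k hk u hu := h.nn2 hm.al hk hu
  be0 k hk u hu := h.nn2 hm.be hk hu
  Q0 k hk u hu y κ y0 κ0 hyκ := by
    have hκ : κ ∈ Icc (0 : ℝ) 1 := ⟨κ0, by linarith⟩
    obtain ⟨T, hT, h1⟩ := at_u h.U0 hm.C z01 hκ hk hu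
    simp only [val_e3, val_gW, val_gZ, hT] at h1
    have t0 : (0 : ℝ) ≤ m.t0 := by exact_mod_cast hm.t0
    have t1 : (0 : ℝ) ≤ m.t1 := by exact_mod_cast hm.t1
    have k1 : 0 ≤ 1 - k := by linarith [hk.2]
    have k0 := hk.1
    show 0 ≤ if d.cap = 1 then _ else _
    split_ifs
    · exact add_nonneg (mul_nonneg y0 h1) (by positivity)
    · refine add_nonneg (mul_nonneg y0 h1) ?_
      have : 0 ≤ (1 - k) * (m.t0 * y ^ 2) + k * (m.t1 * y) := by positivity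
      positivity
  R0 k hk u hu l hl := by
    have s0 : (0 : ℝ) ≤ m.s0 := by exact_mod_cast hm.s0
    have s1 : (0 : ℝ) ≤ m.s1 := by exact_mod_cast hm.s1
    have k1 : 0 ≤ 1 - k := by linarith [hk.2]
    have k0 := hk.1
    show 0 ≤ if d.cap = 1 then _ else _
    split_ifs
    · positivity
    · have : 0 ≤ (1 - k) * (m.s0 : ℝ) + k * (1 - k) * m.s1 := by positivity
      positivity
  hQ k hk u hu κ hκ l hl y y0 hyκ hyk := by
    obtain ⟨T, hT, h1⟩ := at_u h.U0 hm.H1 hl hκ hk hu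
    simp only [nH1, val_sub, val_add, val_mul, val_e2, val_e3, val_f, val_P, val_psE, val_u,
      val_gW, val_gZ, val_gX, hT] at h1
    have t0 : (0 : ℝ) ≤ m.t0 := by exact_mod_cast hm.t0
    have t1 : (0 : ℝ) ≤ m.t1 := by exact_mod_cast hm.t1
    have s0 : (0 : ℝ) ≤ m.s0 := by exact_mod_cast hm.s0
    have s1 : (0 : ℝ) ≤ m.s1 := by exact_mod_cast hm.s1
    have ts0 : (1 : ℝ) ≤ m.t0 * m.s0 := by exact_mod_cast hm.ts0
    have ts1 : (1 : ℝ) ≤ m.t1 * m.s1 := by exact_mod_cast hm.ts1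
    have k1 : 0 ≤ 1 - k := by linarith [hk.2]
    -- the arithmetic-geometric mean
    have am : ∀ {t s a b : ℝ}, 0 ≤ t → 0 ≤ s → 1 ≤ t * s → a * b ≤ (t * a ^ 2 + s * b ^ 2) / 2 := by
      intro t s a b t0 s0 ts
      have tp : 0 < t := by
        rcases t0.eq_or_lt with h | h
        · rw [← h, zero_mul] at ts; linarith
        · exact h
      have h2 : 0 ≤ (t * a - b) ^ 2 := sq_nonneg _
      have h3 : b ^ 2 ≤ t * s * b ^ 2 := by nlinarith [sq_nonneg b]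
      have h4 : 0 ≤ t * ((t * a ^ 2 + s * b ^ 2) / 2 - a * b) := by nlinarith
      have := nonneg_of_mul_nonneg_right h4 tp
      linarith
    set A := pv3 m.A κ k u with hA
    set δ := pv2 m.dl l u with hδ
    set Cc := pv3 m.C κ k u with hC
    have h2 := mul_le_mul_of_nonneg_left (by linarith : (if s = true then pv2 d.ps l u else 0)
      + (pv2 d.F k u * pv2 d.F κ u * pv3 d.Pi κ l u
        + pv3 d.Pi k κ u * (pv2 d.F κ u * pv2 d.F l u)) ≤ Cc + A * u * δ) y0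
    show y * ((if s = true then pv2 d.ps l u else 0)
      + (pv2 d.F k u * pv2 d.F κ u * pv3 d.Pi κ l u
        + pv3 d.Pi k κ u * (pv2 d.F κ u * pv2 d.F l u)))
      ≤ (if d.cap = 1 then _ else _) + (if d.cap = 1 then _ else _)
    refine h2.trans ?_
    split_ifs
    · have h3 := am (a := u * y * A) (b := δ) t0 s0 ts0
      have e : y * (Cc + A * u * δ) = y * Cc + u * y * A * δ := by ring
      rw [e]
      have e2 : y * Cc + u ^ 2 * (m.t0 * y ^ 2) * A ^ 2 * (1 / 2) + δ ^ 2 * m.s0 * (1 / 2)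
          = y * Cc + (m.t0 * (u * y * A) ^ 2 + m.s0 * δ ^ 2) / 2 := by ring
      have e3 : y * Cc + u ^ 2 * (m.t0 * y ^ 2) * A ^ 2 * (1 / 2) + (δ ^ 2 * m.s0 * (1 / 2))
          = y * Cc + (m.t0 * (u * y * A) ^ 2 + m.s0 * δ ^ 2) / 2 := by ring
      linarith
    · have h3 := mul_le_mul_of_nonneg_left (am (a := u * y * A) (b := δ) t0 s0 ts0) k1
      have h4 := mul_le_mul_of_nonneg_left (mul_le_mul_of_nonneg_left
        (am (a := u * A) (b := δ) t1 s1 ts1) y0) hk.1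
      have h5 : k * (y * (m.s1 * δ ^ 2 / 2)) ≤ k * ((1 - k) * (m.s1 * δ ^ 2 / 2)) :=
        mul_le_mul_of_nonneg_left (mul_le_mul_of_nonneg_right (by linarith) (by positivity)) hk.1
      nlinarith
  hF k hk u hu y κ y0 κ0 hyκ hyk := by
    obtain ⟨X, hX, hXy⟩ := ex_X y0 κ0 hyκ
    obtain ⟨T, hT, h1⟩ := at_u h.U0 hm.H2 hX (⟨κ0, by linarith⟩ : κ ∈ Icc (0 : ℝ) 1) hk hu
    have eQ : (d.Qe m).val (pt X κ k T) = (d.mf m).Q y κ k u := by
      unfold Qe mf
      rw [val_ite']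
      simp only [val_add, val_mul, val_sub, val_pow, val_e3, val_qc, val_y, val_gW, val_gZ,
        val_u, val_one, val_num, hT, hXy]
      push_cast
      rfl
    have eR : (d.Re m).val (pt X κ k T) = (d.mf m).R κ k u := by
      unfold Re mf
      rw [val_ite']
      simp only [val_add, val_mul, val_sub, val_pow, val_e2, val_qc, val_gW, val_gZ,
        val_one, val_num, hT]
      push_cast
      rfl
    simp only [nH2, val_sub, val_add, val_mul, val_e2, val_eKe, val_psE, val_y, val_gW, val_gZ,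
      val_one, hT, hXy, eQ, eR] at h1
    show y * ((1 - k) * (if s = true then pv2 d.ps κ u else 0)
      + y * (if s = true then pv2 d.ps k u else 0))
      + ((d.mf m).Q y κ k u + (d.mf m).R κ k u) * (1 - κ - y)
      ≤ pv2 m.al k u * y + eK d.cap k * pv2 m.be k u * κ
    linarith

theorem SPos.Okb_false (h : d.SPos nb) : (d.mf d.mR).Okb d.cb d.cap fun _ _ => 0 := by
  have := h.mok h.mR
  simp only [Bool.false_eq_true, if_false] at this
  exact this

/-- **the conditions hold** -/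
theorem SPos.okz (h : d.SPos nb) : d.ct.Okz d.cap := by
  have U0 : (0 : ℝ) ∈ Icc (0 : ℝ) d.U := ⟨le_rfl, by exact_mod_cast h.U0.le⟩
  have f0 : ∀ {k u : ℝ}, k ∈ Icc (0 : ℝ) 1 → u ∈ Icc (0 : ℝ) d.U → 0 ≤ pv2 d.F k u :=
    fun hk hu => h.f0 hk hu
  have n1 : ∀ {k : ℝ}, k ∈ Icc (0 : ℝ) 1 → 0 ≤ 1 - k := fun hk => by linarith [hk.2]
  have hB : ∀ k ∈ Icc (0 : ℝ) 1, ∀ u ∈ Icc (0 : ℝ) d.U,
      Lpf d.cap k (fun κ => pv2 d.F κ u) (pv2 d.B k u) := fun k hk u hu =>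
    h.lpf h.aB h.bB h.B2 h.B1 hk hu (g := fun κ => pv2 d.F κ u)
      (fun X T κ hT => by simp only [val_f, val_gZ, hT])
      (fun X T κ hT => by simp only [val_f, val_zero, hT]) (f0 z01 hu)
  have hi : ∀ (i : Bool) {k : ℝ}, k ∈ Icc (0 : ℝ) 1 →
      0 ≤ (if i = true then (1 : ℝ) else (1 - k) * pv d.h1 k) := fun i k hk => by
    split_ifs
    · exact zero_le_one
    · exact mul_nonneg (n1 hk) (h.h0 hk)
  have hP : ∀ i, ∀ k ∈ Icc (0 : ℝ) 1, ∀ u ∈ Icc (0 : ℝ) d.U,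
      Lpf d.cap k (fun κ => pv3 d.Pi k κ u * (if i = true then (1 : ℝ) else (1 - κ) * pv d.h1 κ))
        (pv2 (d.Pb i) k u) := fun i k hk u hu =>
    h.lpf (h.aP i) (h.bP i) (h.P2 i) (h.P1 i) hk hu
      (g := fun κ => pv3 d.Pi k κ u * (if i = true then (1 : ℝ) else (1 - κ) * pv d.h1 κ))
      (fun X T κ hT => by simp only [val_mul, val_P, val_he, val_gW, val_gZ, hT])
      (fun X T κ hT => by simp only [val_mul, val_P, val_he, val_gW, val_zero, hT])
      (mul_nonneg (h.Pi0 k hk 0 z01 u hu) (hi i z01))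
  have lpn : ∀ {k : ℝ} {φ : ℝ → ℝ} {W : ℝ}, k ∈ Icc (0 : ℝ) 1 → Lpf d.cap k φ W → 0 ≤ W := by
    rintro k φ W hk ⟨α, β, α0, β0, hW, φ0, -⟩
    have : 0 ≤ gK d.cap k := by
      unfold gK; split_ifs
      · exact zero_le_one
      · linarith [hk.2]
    have := mul_nonneg this β0
    linarith
  exact
    { f0 := fun k hk u hu => f0 hk hu
      h0 := fun k hk => h.h0 hk
      hle := fun k hk => by
        obtain ⟨T, hT, h1⟩ := h.ku h.hle hk U0
        simp only [val_sub, val_mul, val_one, val_h1e, val_gW] at h1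
        show (1 - k) * pv d.h1 k ≤ 1
        linarith
      B0 := fun k hk u hu => lpn hk (hB k hk u hu)
      hB := hB
      hP := hP
      Pb0 := fun i k hk u hu => lpn hk (hP i k hk u hu)
      M0 := fun k hk u hu => h.nn2 h.Mb hk hu
      z0 := fun i k hk u hu => h.nn2 (h.zp i) hk hu
      z1 := fun i k hk u hu => h.nn2 (h.zm i) hk hu
      dzp := fun i k u => hasD2 (d.zp i) k u
      dzm := fun i k u => hasD2 (d.zm i) k u
      hsf := fun k hk u hu => by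
        obtain ⟨T, hT, h1⟩ := h.ku h.sf hk hu
        simp only [nsf, val_sub, val_mul, val_e1, val_f, val_one, val_h1e, val_gW, hT] at h1
        show pv2 d.F k u * ((1 - k) * pv d.h1 k) ≤ pv d.sf u
        linarith
      sf0 := fun u hu => by
        obtain ⟨T, hT, h1⟩ := h.ku h.sf z01 hu
        simp only [nsf, val_sub, val_mul, val_e1, val_f, val_one, val_h1e, val_gW, hT] at h1
        have := mul_nonneg (f0 z01 hu) (mul_nonneg (n1 z01) (h.h0 z01))
        show 0 ≤ pv d.sf u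
        linarith
      hSm := fun i k hk u hu => by
        obtain ⟨T, hT, h1⟩ := h.ku (h.Sm i) hk hu
        simp only [nSm, R, val_sub, val_add, val_mul, val_e1, val_e2, val_f, val_one, val_gW,
          hT] at h1
        show pv2 d.F k u * ((1 - k) * (pv2 d.m.Mb k u + pv2 (d.zm i) k u)) ≤ pv (d.Sm i) u
        linarith
      hSz := fun i k hk u hu => by
        obtain ⟨T, hT, h1⟩ := h.ku (h.Sz i) hk hu
        simp only [nSz, val_sub, val_mul, val_e1, val_e2, val_f, val_one, val_gW, hT] at h1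
        show pv2 d.F k u * ((1 - k) * pv2 (d.zp i) k u) ≤ pv (d.Sz i) u
        linarith
      hSp := fun i k hk u hu => by
        obtain ⟨T, hT, h1⟩ := h.ku (h.Sp i) hk hu
        simp only [nSp, R, val_sub, val_add, val_mul, val_e1, val_e2, val_f, val_one, val_gW,
          hT] at h1
        show pv2 d.F k u * ((1 - k) * (pv2 (d.Pb i) k u + pv2 (d.zp i) k u)) ≤ pv (d.Sp i) u
        linarith
      Sm0 := fun i u hu => by
        obtain ⟨T, hT, h1⟩ := h.ku (h.Sm i) z01 hu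
        simp only [nSm, R, val_sub, val_add, val_mul, val_e1, val_e2, val_f, val_one, val_gW,
          hT] at h1
        have := mul_nonneg (f0 z01 hu) (mul_nonneg (n1 z01) (add_nonneg (h.nn2 h.Mb z01 hu)
          (h.nn2 (h.zm i) z01 hu)))
        show 0 ≤ pv (d.Sm i) u
        linarith
      Sz0 := fun i u hu => by
        obtain ⟨T, hT, h1⟩ := h.ku (h.Sz i) z01 hu
        simp only [nSz, val_sub, val_mul, val_e1, val_e2, val_f, val_one, val_gW, hT] at h1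
        have := mul_nonneg (f0 z01 hu) (mul_nonneg (n1 z01) (h.nn2 (h.zp i) z01 hu))
        show 0 ≤ pv (d.Sz i) u
        linarith
      Sp0 := fun i u hu => by
        obtain ⟨T, hT, h1⟩ := h.ku (h.Sp i) z01 hu
        simp only [nSp, R, val_sub, val_add, val_mul, val_e1, val_e2, val_f, val_one, val_gW,
          hT] at h1
        have := mul_nonneg (f0 z01 hu) (mul_nonneg (n1 z01) (add_nonneg
          (lpn z01 (hP i 0 z01 u hu)) (h.nn2 (h.zp i) z01 hu)))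
        show 0 ≤ pv (d.Sp i) u
        linarith
      hc1 := fun k hk u hu => by
        obtain ⟨T, hT, h1⟩ := h.ku h.c1 hk hu
        simp only [nc1, val_sub, val_mul, val_e1, val_e2, val_f, val_h1e, val_gW, hT] at h1
        show pv2 d.F k u * pv2 d.B k u ≤ pv (d.c true) u * pv d.h1 k
        linarith
      hc2 := fun k hk u hu => by
        obtain ⟨T, hT, h1⟩ := h.ku h.c2 hk hu
        simp only [nc2, val_sub, val_mul, val_e1, val_f, val_h1e, val_gW, hT] at h1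
        show pv2 d.F k u * pv d.sf u ≤ pv (d.c false) u * pv d.h1 k
        linarith
      c0 := fun i u hu => h.nn1 (h.c i) hu
      hjp := fun i k hk u hu => by
        obtain ⟨T, hT, h1⟩ := h.ku (h.jp i) hk hu
        simp only [njp, R, val_sub, val_add, val_mul, val_e1, val_e2, val_f, val_h1e, val_one,
          val_gW, hT] at h1
        show pv2 d.F k u * (pv2 d.B k u * ((1 - k) * (pv2 (d.Pb i) k u + pv2 (d.zp i) k u))
          + pv (d.Sp i) u) ≤ pv (d.jp i) u * pv d.h1 k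
        linarith
      hjm := fun i k hk u hu => by
        obtain ⟨T, hT, h1⟩ := h.ku (h.jm i) hk hu
        simp only [njm, R, val_sub, val_add, val_mul, val_e1, val_e2, val_f, val_h1e, val_one,
          val_gW, hT] at h1
        show pv2 d.F k u * (pv2 d.B k u * ((1 - k) * (pv2 d.m.Mb k u + pv2 (d.zm i) k u))
          + pv (d.Sm i) u) ≤ pv (d.jm i) u * pv d.h1 k
        linarith
      jp0 := fun i u hu => h.nn1 (h.jp0 i) hu
      jm0 := fun i u hu => h.nn1 (h.jm0 i) hu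
      op := fun i k hk u hu => by
        obtain ⟨T, hT, h1⟩ := h.ku (h.op i) hk hu
        simp only [nop, R, val_sub, val_add, val_mul, val_e1, val_e2, val_f,
          val_gW, hT] at h1
        show pv2 d.F k u * pv (d.Sm i) u + (pv (d.c i) u + pv (d.jm i) u)
          * (pv2 d.m.Mb k u + pv2 (d.zm false) k u) + pv (d.jp i) u
          * (pv2 (d.Pb false) k u + pv2 (d.zp false) k u) ≤ pv2 (dd2 (d.zp i)) k u
        linarith
      om := fun i k hk u hu => by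
        obtain ⟨T, hT, h1⟩ := h.ku (h.om i) hk hu
        simp only [nom, R, val_sub, val_add, val_mul, val_e1, val_e2, val_f,
          val_gW, hT] at h1
        show pv2 d.F k u * pv (d.Sz i) u + pv (d.c i) u * pv2 (d.zp false) k u
          + pv (d.jp i) u * (pv2 d.m.Mb k u + pv2 (d.zm false) k u) + pv (d.jm i) u
          * (pv2 (d.Pb false) k u + pv2 (d.zp false) k u) ≤ pv2 (dd2 (d.zm i)) k u
        linarith }

/-- **the conditions of the star hold** -/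
theorem SPos.oks (h : d.SPos nb) : d.ct.Oks d.cap (pv nb) where
  z := h.okz
  nb0 u hu := h.nn1 h.nbn hu
  dPi k l u := hasD3 d.Pi k l u
  oPi := h.oPi'
  Pi0 := h.Pi0
  mR := h.Okb_false
  dM k u := hasD2 d.m.Mb k u
  M00 k hk := h.nn2 h.Mb hk ⟨le_rfl, by exact_mod_cast h.U0.le⟩
  oM k hk u hu := by
    obtain ⟨T, hT, h1⟩ := h.ku h.oM hk hu
    simp only [val_sub, val_add, val_mul, val_e1, val_e2, val_gKe, val_gW, hT] at h1
    show pv nb u + (pv2 d.mR.al k u + gK d.cap k * pv2 d.mR.be k u) ≤ pv2 (dd2 d.m.Mb) k u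
    linarith

end

end GDat

end Pool.Agent.RX.RCM9.G
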