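import Pool.Agent.RX.RCM9.CertGSD
import Pool.Agent.RX.RCM9.DatGS

/-! Generated: box certificates of level 1/2 of the star world (MP_73ccd0_lc). -/

set_option autoImplicit false

namespace Pool.Agent.RX.RCM9.CertGS

open Pool.Agent.RX.RCM9.Bern Pool.Agent.RX.RCM9.Pk Pool.Agent.RX.RCM9.G Pool.Agent.RX.RCM9.G.GDat

theorem n_ex : NG d.nexs :=
  NG.of (K := 197) (D := ⟨1, 1, 5, 13⟩) (Box.of 1282275980421266 (by decide +kernel)) (by decide +kernel)

theorem n_v1 : NG (1 - d.vs) :=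
  NG.of (K := 38) (D := ⟨1, 1, 2, 4⟩) (Box.of 4 (by decide +kernel)) (by decide +kernel)

theorem n_oPi : NG d.noPi :=
  NG.of (K := 133) (D := ⟨1, 3, 3, 9⟩) (Box.of 291 (by decide +kernel)) (by decide +kernel)

theorem n_Pi : NG (d.P gW gZ) :=
  NG.of (K := 93) (D := ⟨1, 3, 3, 8⟩) (Box.of 4 (by decide +kernel)) (by decide +kernel)

theorem n_h1 : NG (d.h1e gW) :=
  NG.of (K := 10) (D := ⟨1, 1, 3, 1⟩) (Box.of 4 (by decide +kernel)) (by decide +kernel)

theorem n_hle : NG (1 - (1 - gW) * d.h1e gW) :=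
  NG.of (K := 12) (D := ⟨1, 1, 4, 1⟩) (Box.of 4 (by decide +kernel)) (by decide +kernel)

theorem n_aB : NG (d.e2 d.aB gW) :=
  NG.of (K := 53) (D := ⟨1, 1, 3, 4⟩) (Box.of 4 (by decide +kernel)) (by decide +kernel)

theorem n_bB : NG (d.e2 d.bB gW) :=
  NG.of (K := 52) (D := ⟨1, 1, 2, 4⟩) (Box.of 4 (by decide +kernel)) (by decide +kernel)

theorem n_B1 : NG d.nB1 :=
  NG.of (K := 61) (D := ⟨1, 1, 3, 5⟩) (Box.of 4 (by decide +kernel)) (by decide +kernel)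

theorem n_aP_f : NG (d.e2 (d.aP false) gW) :=
  NG.of (K := 67) (D := ⟨1, 1, 3, 6⟩) (Box.of 4 (by decide +kernel)) (by decide +kernel)

theorem n_bP_f : NG (d.e2 (d.bP false) gW) :=
  NG.of (K := 21) (D := ⟨1, 1, 2, 3⟩) (Box.of 4 (by decide +kernel)) (by decide +kernel)

theorem n_P1_f : NG (d.nP1 false) :=
  NG.of (K := 92) (D := ⟨1, 1, 3, 8⟩) (Box.of 4 (by decide +kernel)) (by decide +kernel)

theorem n_aP_t : NG (d.e2 (d.aP true) gW) :=
  NG.of (K := 70) (D := ⟨1, 1, 3, 6⟩) (Box.of 4 (by decide +kernel)) (by decide +kernel)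

theorem n_bP_t : NG (d.e2 (d.bP true) gW) :=
  NG.of (K := 68) (D := ⟨1, 1, 2, 6⟩) (Box.of 4 (by decide +kernel)) (by decide +kernel)

theorem n_P1_t : NG (d.nP1 true) :=
  NG.of (K := 91) (D := ⟨1, 1, 3, 8⟩) (Box.of 4 (by decide +kernel)) (by decide +kernel)

theorem n_mR_M1 : NG (d.nM1 d.mR) :=
  NG.of (K := 72) (D := ⟨1, 1, 3, 6⟩) (Box.of 4 (by decide +kernel)) (by decide +kernel)

theorem n_mR_Mb : NG (d.e2 d.mR.Mb gW) :=
  NG.of (K := 79) (D := ⟨1, 1, 3, 7⟩) (Box.of 4 (by decide +kernel)) (by decide +kernel)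

theorem n_mR_al : NG (d.e2 d.mR.al gW) :=
  NG.of (K := 71) (D := ⟨1, 1, 3, 6⟩) (Box.of 4 (by decide +kernel)) (by decide +kernel)

theorem n_mR_be : NG (d.e2 d.mR.be gW) :=
  NG.of (K := 65) (D := ⟨1, 1, 2, 6⟩) (Box.of 4 (by decide +kernel)) (by decide +kernel)

theorem n_mR_C : NG (d.e3 d.mR.C gZ gW) :=
  NG.of (K := 78) (D := ⟨1, 4, 3, 6⟩) (Box.of 4 (by decide +kernel)) (by decide +kernel)

theorem n_zp_f : NG (d.e2 (d.zp false) gW) :=
  NG.of (K := 112) (D := ⟨1, 1, 3, 11⟩) (Box.of 4 (by decide +kernel)) (by decide +kernel)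

theorem n_zm_f : NG (d.e2 (d.zm false) gW) :=
  NG.of (K := 119) (D := ⟨1, 1, 3, 12⟩) (Box.of 4 (by decide +kernel)) (by decide +kernel)

theorem n_zp_t : NG (d.e2 (d.zp true) gW) :=
  NG.of (K := 113) (D := ⟨1, 1, 3, 11⟩) (Box.of 4 (by decide +kernel)) (by decide +kernel)

theorem n_zm_t : NG (d.e2 (d.zm true) gW) :=
  NG.of (K := 120) (D := ⟨1, 1, 3, 12⟩) (Box.of 4 (by decide +kernel)) (by decide +kernel)

theorem n_sf : NG d.nsf :=
  NG.of (K := 162) (D := ⟨1, 1, 6, 6⟩) (Box.of 1381036901409918871750874 (by decide +kernel)) (by decide +kernel)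

theorem n_Sm_f : NG (d.nSm false) :=
  NG.of (K := 276) (D := ⟨1, 1, 6, 16⟩) (Box.of 1286725398841050 (by decide +kernel)) (by decide +kernel)

theorem n_Sz_f : NG (d.nSz false) :=
  NG.of (K := 243) (D := ⟨1, 1, 6, 15⟩) (Box.of 4908009170 (by decide +kernel)) (by decide +kernel)

theorem n_Sp_f : NG (d.nSp false) :=
  NG.of (K := 292) (D := ⟨1, 1, 6, 15⟩) (Box.of 88414824185422022823486674 (by decide +kernel)) (by decide +kernel)

theorem n_Sm_t : NG (d.nSm true) :=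
  NG.of (K := 276) (D := ⟨1, 1, 6, 16⟩) (Box.of 1286725398841050 (by decide +kernel)) (by decide +kernel)

theorem n_Sz_t : NG (d.nSz true) :=
  NG.of (K := 243) (D := ⟨1, 1, 6, 15⟩) (Box.of 4908009170 (by decide +kernel)) (by decide +kernel)

theorem n_Sp_t : NG (d.nSp true) :=
  NG.of (K := 271) (D := ⟨1, 1, 6, 15⟩) (Box.of 82342671063070418 (by decide +kernel)) (by decide +kernel)

theorem n_c1 : NG d.nc1 :=
  NG.of (K := 115) (D := ⟨1, 1, 5, 9⟩) (Box.of 4 (by decide +kernel)) (by decide +kernel)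

theorem n_c2 : NG d.nc2 :=
  NG.of (K := 142) (D := ⟨1, 1, 3, 10⟩) (Box.of 291 (by decide +kernel)) (by decide +kernel)

theorem n_c_f : NG (d.e1 (d.c false)) :=
  NG.of (K := 68) (D := ⟨1, 1, 1, 6⟩) (Box.of 4 (by decide +kernel)) (by decide +kernel)

theorem n_jp_f : NG (d.njp false) :=
  NG.of (K := 324) (D := ⟨1, 1, 8, 19⟩) (Box.of 76433627 (by decide +kernel)) (by decide +kernel)

theorem n_jm_f : NG (d.njm false) :=
  NG.of (K := 336) (D := ⟨1, 1, 8, 20⟩) (Box.of 76433627 (by decide +kernel)) (by decide +kernel)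

theorem n_jp0_f : NG (d.e1 (d.jp false)) :=
  NG.of (K := 94) (D := ⟨1, 1, 1, 9⟩) (Box.of 4 (by decide +kernel)) (by decide +kernel)

theorem n_jm0_f : NG (d.e1 (d.jm false)) :=
  NG.of (K := 100) (D := ⟨1, 1, 1, 10⟩) (Box.of 4 (by decide +kernel)) (by decide +kernel)

theorem n_op_f : NG (d.nop false) :=
  NG.of (K := 363) (D := ⟨1, 1, 3, 21⟩) (Box.of 313070339803 (by decide +kernel)) (by decide +kernel)

theorem n_om_f : NG (d.nom false) :=
  NG.of (K := 351) (D := ⟨1, 1, 3, 20⟩) (Box.of 313995183835 (by decide +kernel)) (by decide +kernel)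

theorem n_c_t : NG (d.e1 (d.c true)) :=
  NG.of (K := 64) (D := ⟨1, 1, 1, 6⟩) (Box.of 4 (by decide +kernel)) (by decide +kernel)

theorem n_jp_t : NG (d.njp true) :=
  NG.of (K := 324) (D := ⟨1, 1, 8, 19⟩) (Box.of 76433627 (by decide +kernel)) (by decide +kernel)

theorem n_jm_t : NG (d.njm true) :=
  NG.of (K := 336) (D := ⟨1, 1, 8, 20⟩) (Box.of 76433627 (by decide +kernel)) (by decide +kernel)

theorem n_jp0_t : NG (d.e1 (d.jp true)) :=
  NG.of (K := 95) (D := ⟨1, 1, 1, 9⟩) (Box.of 4 (by decide +kernel)) (by decide +kernel)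

theorem n_jm0_t : NG (d.e1 (d.jm true)) :=
  NG.of (K := 103) (D := ⟨1, 1, 1, 10⟩) (Box.of 4 (by decide +kernel)) (by decide +kernel)

theorem n_op_t : NG (d.nop true) :=
  NG.of (K := 365) (D := ⟨1, 1, 3, 21⟩) (Box.of 313070339803 (by decide +kernel)) (by decide +kernel)

theorem n_om_t : NG (d.nom true) :=
  NG.of (K := 351) (D := ⟨1, 1, 3, 20⟩) (Box.of 313995183835 (by decide +kernel)) (by decide +kernel)

theorem n_v0 : NG d.vs :=
  NG.of (K := 37) (D := ⟨1, 1, 2, 4⟩) (Box.of 4 (by decide +kernel)) (by decide +kernel)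

theorem n_nbn : NG (d.e1 nb) :=
  NG.of (K := 32) (D := ⟨1, 1, 1, 4⟩) (Box.of 4 (by decide +kernel)) (by decide +kernel)

theorem n_Mb : NG (d.e2 d.m.Mb gW) :=
  NG.of (K := 79) (D := ⟨1, 1, 3, 7⟩) (Box.of 4 (by decide +kernel)) (by decide +kernel)

theorem n_oM : NG (d.e2 (dd2 d.m.Mb) gW - (d.e1 nb + (d.e2 d.mR.al gW + d.gKe * d.e2 d.mR.be gW))) :=
  NG.of (K := 72) (D := ⟨1, 1, 3, 6⟩) (Box.of 4 (by decide +kernel)) (by decide +kernel)

end Pool.Agent.RX.RCM9.CertGS
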