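import Pool.Agent.RX.RCM9.CertGSD

/-! Generated: the scalar row lists of the star world (U = 57/100) (MP_73ccd0_lc). -/

set_option autoImplicit false

namespace Pool.Agent.RX.RCM9.CertGS

open Pool.Agent.RX.RCM9.Bern Pool.Agent.RX.RCM9.Pk Pool.Agent.RX.RCM9.G Pool.Agent.RX.RCM9.G.GDat

def sHp : List ℚ := [0, 0, 3938101/5000000, (-1901219/2000000), 102062361/10000000, (-128017559/2500000), 1475393483/10000000, (-2158584961/10000000), 1324377857/10000000]

def sHm : List ℚ := [0, 0, 0, 3175053/5000000, 487557/1250000, (-38399651/10000000), 224905881/10000000, (-5063657/100000), 230913967/5000000]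

/-- the exponent in the scalar form -/
def yb2 : List ℚ := [0, 0, 0, 13/100]

/-- the scalar form: `l (1 + 3/5 k) (1 + v + v²/2 + v³/6 + v⁴/24)` minus the list `g` -/
def nscS (l : List ℚ) (g : List (List ℚ)) : E :=
  let v := (gW + E.num 1 2) * d.u + (E.num 1 2 - gW) * d.e1 yb2
  d.e1 l * ((1 + E.num 3 5 * gW) * (1 + v * (1 + v * E.num 1 2 + v ^ 2 * E.num 1 6
    + v ^ 3 * E.num 1 24))) - d.e2 g gW

theorem yv0 : NG ((gW + E.num 1 2) * d.u + (E.num 1 2 - gW) * d.e1 yb2) :=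
  NG.of (K := 37) (D := ⟨1, 1, 2, 4⟩) (Box.of 4 (by decide +kernel)) (by decide +kernel)

theorem sHp0 : NG (d.e1 sHp) :=
  NG.of (K := 94) (D := ⟨1, 1, 1, 9⟩) (Box.of 4 (by decide +kernel)) (by decide +kernel)

theorem sHp_le : NG (nscS sHp Hp) :=
  NG.of (K := 343) (D := ⟨1, 1, 6, 21⟩) (Box.of 1198299 (by decide +kernel)) (by decide +kernel)

theorem sHm0 : NG (d.e1 sHm) :=
  NG.of (K := 90) (D := ⟨1, 1, 1, 9⟩) (Box.of 4 (by decide +kernel)) (by decide +kernel)

theorem sHm_le : NG (nscS sHm Hm) :=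
  NG.of (K := 303) (D := ⟨1, 1, 6, 21⟩) (Box.of 18659 (by decide +kernel)) (by decide +kernel)

end Pool.Agent.RX.RCM9.CertGS
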