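import Pool.Agent.RX.RCM9.DW

/-! Certificates of `zW.Pos dW` (generated by gencert.py). -/

set_option autoImplicit false

namespace Pool.Agent.RX.RCM9.HDat

open Set Pool.Agent.RX.RCN.K Pool.Agent.RX.RCM9 Pool.Agent.RX.RCM9.Bern Pool.Agent.RX.RCM9.Pk

theorem cH_El : NN (zW.fEl dW) :=
  NN.of (K := 401) (D := ⟨9, 1, 1, 33⟩) (Box.of 18691 (by decide +kernel))
    (by decide +kernel)

theorem cH_Eh : NN (zW.fEh dW) :=
  NN.of (K := 395) (D := ⟨5, 1, 1, 33⟩) (Box.of 18467 (by decide +kernel))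
    (by decide +kernel)

theorem cH_denl : NN (zW.fdl) :=
  NN.of (K := 111) (D := ⟨5, 1, 1, 11⟩) (Box.of 4 (by decide +kernel))
    (by decide +kernel)

theorem cH_denh : NN (zW.fdh) :=
  NN.of (K := 109) (D := ⟨4, 1, 1, 11⟩) (Box.of 4 (by decide +kernel))
    (by decide +kernel)

theorem cH_Rl : NN (zW.fRl) :=
  NN.of (K := 299) (D := ⟨9, 1, 1, 19⟩) (Box.of 76429595 (by decide +kernel))
    (by decide +kernel)

theorem cH_Rh : NN (zW.fRh) :=
  NN.of (K := 294) (D := ⟨7, 1, 1, 19⟩) (Box.of 76429595 (by decide +kernel))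
    (by decide +kernel)

theorem cH_mb1 : NN (zW.fmb1) :=
  NN.of (K := 98) (D := ⟨1, 1, 1, 9⟩) (Box.of 291 (by decide +kernel))
    (by decide +kernel)

theorem cH_mbl : NN (zW.fmbl) :=
  NN.of (K := 143) (D := ⟨5, 1, 1, 9⟩) (Box.of 1194211 (by decide +kernel))
    (by decide +kernel)

theorem cH_mbh : NN (zW.fmbh) :=
  NN.of (K := 139) (D := ⟨4, 1, 1, 9⟩) (Box.of 1194211 (by decide +kernel))
    (by decide +kernel)

theorem cH_thl : NN (zW.fthl) :=
  NN.of (K := 263) (D := ⟨5, 10, 1, 12⟩) (Box.of 1362517474268832468453595 (by decide +kernel))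
    (by decide +kernel)

theorem cH_thh : NN (zW.fthh) :=
  NN.of (K := 224) (D := ⟨4, 10, 1, 12⟩) (Box.of 4890966115 (by decide +kernel))
    (by decide +kernel)

theorem cH_th1 : NN (zW.fth1) :=
  NN.of (K := 162) (D := ⟨1, 6, 1, 11⟩) (Box.of 313065359579 (by decide +kernel))
    (by decide +kernel)

theorem posH : zW.Pos dW where
  El := cH_El
  Eh := cH_Eh
  denl := cH_denl
  denh := cH_denh
  Rl := cH_Rl
  Rh := cH_Rh
  mb1 := cH_mb1
  mbl := cH_mbl
  mbh := cH_mbh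
  thl := cH_thl
  thh := cH_thh
  th1 := cH_th1

end Pool.Agent.RX.RCM9.HDat
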