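import Pool.Agent.RX.RCM9.DatOk
import Pool.Agent.RX.RCN.KleC

/-! The side conditions of the cherry cost for the certificate with rational polynomials. -/

set_option autoImplicit false

namespace Pool.Agent.RX.RCM9

open Set Bern Pk Pool.Agent.RX.RCN.K

namespace Dat

variable (d : Dat)

/-- the density factor -/
noncomputable def rPe (w t : ℝ) : ℝ := (1 + w * t) * (1 + (d.ee : ℝ) * t)

noncomputable def rez (z e t : ℝ) : ℝ :=
  t + (1 + t) * (-(e * pv d.Z t) + (1 - z) / 2 * (pv d.F t + pv d.F3 t + pv d.F2 t)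
    + (d.SP : ℝ) * (1 - z) * pv d.Gp t)

def ePe (w t : E) : E := (1 + w * t) * (1 + qc d.ee * t)

def eez (z e t : E) : E :=
  t + (1 + t) * ((0 - e * pe d.Z t) + (1 - z) * hlf * (pe d.F t + pe d.F3 t + pe d.F2 t)
    + qc d.SP * (1 - z) * pe d.Gp t)

theorem val_ePe (ρ : ℕ → ℝ) (w t : E) : (d.ePe w t).val ρ = d.rPe (w.val ρ) (t.val ρ) := by
  simp only [ePe, rPe, val_mul, val_add, val_one, val_qc]

theorem val_eez (ρ : ℕ → ℝ) (z e t : E) : (d.eez z e t).val ρ
    = d.rez (z.val ρ) (e.val ρ) (t.val ρ) := by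
  simp only [eez, rez, val_mul, val_add, val_sub, val_zero, val_one, val_qc, val_pe, val_hlf]
  ring

def ebe00 : E := pe d.be0 vT - 1 - qc d.SP * d.eW0 vT
def ebe01 : E := pe d.be0 vT - 1 - (1 + vT) ^ 2 * pe d.F' vT * hlf - qc d.SP * d.eW0 vT
def ebe02 : E := pe d.be0 vT - 1 - (1 + vT) ^ 2 * (pe d.F' vT + pe d.F3' vT) * hlf
  - qc d.SP * d.eW0 vT
def ebe03 : E := pe d.be0 vT - 1
  - (1 + vT) ^ 2 * (pe d.F' vT + pe d.F3' vT + pe d.F2' vT) * hlf - qc d.SP * d.eW0 vT
def ebe1 : E := pe d.be1 vT + pe d.Z' vT * (1 + vT) ^ 2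
def eElo : E := d.eez zlo zlo vT
def eEhi : E := d.eez zhi hlf vT
/-- `w = 2 (1 - z) X = (1 - Z) X` in the second case -/
def whi : E := (1 - vZ) * vX
def embl : E := 1 + vT - zlo * (d.ePe vX vT * d.eez zlo zlo vT) - dl
def embh : E := 1 + vT - zhi * (d.ePe whi vT * d.eez zhi hlf vT) - dl
def ePlo : E := (1 + vT) * (1 + vT - zlo * (d.ePe vX vT * d.eez zlo zlo vT)) * pe3 d.Plo vX zlo vT
  - d.ePe vX vT * d.eez zlo zlo vT
def ePhi : E := (1 + vT) * (1 + vT - zhi * (d.ePe whi vT * d.eez zhi hlf vT))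
    * pe3 d.Phi whi zlo vT - d.ePe whi vT * d.eez zhi hlf vT

/-- the polynomial inequalities -/
structure PosK : Prop where
  ee0 : 0 ≤ d.ee
  be00 : NN d.ebe00
  be01 : NN d.ebe01
  be02 : NN d.ebe02
  be03 : NN d.ebe03
  be1 : NN d.ebe1
  Elo : NN d.eElo
  Ehi : NN d.eEhi
  mbl : NN d.embl
  mbh : NN d.embh
  Plo : NN d.ePlo
  Phi : NN d.ePhi

variable {d}

theorem rez_eq (z t : ℝ) : d.dt.ez z t = d.rez z (eta z) t := rfl

theorem val_whi (X Z U T : ℝ) : whi.val (pt' X Z U T) = (1 - Z) * X := by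
  simp only [whi, val_mul, val_sub, val_one, val_vX, val_vZ]

theorem whi_ex {w z : ℝ} (hw : 0 ≤ w) (h : w ≤ 2 * (1 - z)) :
    ∃ X ∈ Icc (0 : ℝ) 1, (1 - (2 * z - 1)) * X = w := by
  obtain ⟨u, hu, hu2⟩ := div_mem hw h
  exact ⟨u, hu, by rw [← hu2]; ring⟩

/-- **the side conditions of the cherry cost** -/
theorem kok (h : d.PosK) : d.dt.KOk (pv d.be0) (pv d.be1) d.rPe d.rP where
  cb0 := (continuous_pv _).continuousOn
  cb1 := (continuous_pv _).continuousOn
  cPe w := by unfold rPe; fun_prop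
  be00 t ht := by
    have h2 := h.be00.t ht
    simp only [ebe00, val_sub, val_mul, val_one, val_qc, val_pe, val_eW0, val_vT] at h2
    exact h2
  be01 t ht := by
    have h2 := h.be01.t ht
    simp only [ebe01, val_sub, val_mul, val_add, val_pow, val_one, val_qc, val_pe, val_eW0, val_hlf,
      val_vT] at h2
    show 0 ≤ pv d.be0 t - 1 - (1 + t) ^ 2 * pv d.F' t / 2 - (d.SP : ℝ) * d.rW0 t
    linarith
  be02 t ht := by
    have h2 := h.be02.t ht
    simp only [ebe02, val_sub, val_mul, val_add, val_pow, val_one, val_qc, val_pe, val_eW0, val_hlf,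
      val_vT] at h2
    show 0 ≤ pv d.be0 t - 1 - (1 + t) ^ 2 * (pv d.F' t + pv d.F3' t) / 2 - (d.SP : ℝ) * d.rW0 t
    linarith
  be03 t ht := by
    have h2 := h.be03.t ht
    simp only [ebe03, val_sub, val_mul, val_add, val_pow, val_one, val_qc, val_pe, val_eW0, val_hlf,
      val_vT] at h2
    show 0 ≤ pv d.be0 t - 1 - (1 + t) ^ 2 * (pv d.F' t + pv d.F3' t + pv d.F2' t) / 2
      - (d.SP : ℝ) * d.rW0 t
    linarith
  be1 t ht := by
    have h2 := h.be1.t ht
    simp only [ebe1, val_mul, val_add, val_pow, val_one, val_pe, val_vT] at h2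
    exact h2
  ez0 z hz t ht := by
    rw [rez_eq]
    rcases le_total z (1 / 2) with h1 | h1
    · have h2 := h.Elo 0 (2 * z) 0 t z01 (two_mul_mem hz.1 h1) z01 ht
      rw [eElo, val_eez, val_zlo, val_vT, show 1 / 2 * (2 * z) = z by ring] at h2
      rwa [eta_lo h1]
    · have h2 := h.Ehi 0 (2 * z - 1) 0 t z01 (two_sub_mem h1 hz.2) z01 ht
      rw [eEhi, val_eez, val_zhi, val_hlf, val_vT,
        show 1 / 2 + 1 / 2 * (2 * z - 1) = z by ring] at h2
      rwa [eta_hi h1]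
  Pe0 w hw t ht := by
    have h1 : (0 : ℝ) ≤ (d.ee : ℝ) := by exact_mod_cast h.ee0
    have h2 := mul_nonneg hw.1 ht.1
    have h3 := mul_nonneg h1 ht.1
    show 0 ≤ (1 + w * t) * (1 + (d.ee : ℝ) * t)
    positivity
  lt w hw z hz hwz t ht := by
    rw [rez_eq]
    rcases le_total z (1 / 2) with h1 | h1
    · have h2 := h.mbl w (2 * z) 0 t hw (two_mul_mem hz.1 h1) z01 ht
      simp only [embl, val_sub, val_mul, val_add, val_one, val_ePe, val_eez, val_zlo, val_vT,
        val_vX, val_dl] at h2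
      rw [show 1 / 2 * (2 * z) = z by ring] at h2
      rw [eta_lo h1]
      linarith
    · obtain ⟨X, hX, hX2⟩ := whi_ex hw.1 hwz
      have h2 := h.mbh X (2 * z - 1) 0 t hX (two_sub_mem h1 hz.2) z01 ht
      simp only [embh, val_sub, val_mul, val_add, val_one, val_ePe, val_eez, val_zhi, val_vT,
        val_whi, val_hlf, val_dl] at h2
      rw [show 1 / 2 + 1 / 2 * (2 * z - 1) = z by ring, hX2] at h2
      rw [eta_hi h1]
      linarith
  pt w hw z hz hwz t ht := by
    rw [rez_eq]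
    rcases le_or_gt z (1 / 2) with h1 | h1
    · have h2 := h.Plo w (2 * z) 0 t hw (two_mul_mem hz.1 h1) z01 ht
      simp only [ePlo, val_sub, val_mul, val_add, val_one, val_ePe, val_eez, val_zlo, val_vT,
        val_vX, val_pe3] at h2
      rw [show 1 / 2 * (2 * z) = z by ring] at h2
      unfold rP
      rw [eta_lo h1, if_pos h1]
      linarith
    · obtain ⟨X, hX, hX2⟩ := whi_ex hw.1 hwz
      have h2 := h.Phi X (2 * z - 1) 0 t hX (two_sub_mem h1.le hz.2) z01 ht
      simp only [ePhi, val_sub, val_mul, val_add, val_one, val_ePe, val_eez, val_zhi, val_zlo,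
        val_vT, val_whi, val_hlf, val_pe3] at h2
      rw [show 1 / 2 * (2 * z - 1) = z - 1 / 2 by ring, show 1 / 2 + (z - 1 / 2) = z by ring,
        hX2] at h2
      unfold rP
      rw [eta_hi h1.le, if_neg (not_le.2 h1)]
      linarith
  hC x _ y _ z _ t _ _ _ _ := le_rfl

end Dat

end Pool.Agent.RX.RCM9
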