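import Pool.Agent.RX.RCM9.DW
import Pool.Agent.RX.RCM9.DatK

/-! Certificates of `dW.PosK` (generated by gencert.py). -/

set_option autoImplicit false

namespace Pool.Agent.RX.RCM9.Dat

open Set Pool.Agent.RX.RCN.K Pool.Agent.RX.RCM9 Pool.Agent.RX.RCM9.Bern Pool.Agent.RX.RCM9.Pk

theorem cK_ee0 : 0 ≤ dW.ee := by decide +kernel

theorem cK_be00 : NN (dW.ebe00) :=
  NN.of (K := 324) (D := ⟨1, 1, 1, 15⟩) (Box.of 76429539 (by decide +kernel))
    (by decide +kernel)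

theorem cK_be01 : NN (dW.ebe01) :=
  NN.of (K := 221) (D := ⟨1, 1, 1, 15⟩) (Box.of 4 (by decide +kernel))
    (by decide +kernel)

theorem cK_be02 : NN (dW.ebe02) :=
  NN.of (K := 299) (D := ⟨1, 1, 1, 15⟩) (Box.of 1197851 (by decide +kernel))
    (by decide +kernel)

theorem cK_be03 : NN (dW.ebe03) :=
  NN.of (K := 299) (D := ⟨1, 1, 1, 15⟩) (Box.of 1198299 (by decide +kernel))
    (by decide +kernel)

theorem cK_be1 : NN (dW.ebe1) :=
  NN.of (K := 105) (D := ⟨1, 1, 1, 10⟩) (Box.of 291 (by decide +kernel))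
    (by decide +kernel)

theorem cK_Elo : NN (dW.eElo) :=
  NN.of (K := 220) (D := ⟨1, 2, 1, 15⟩) (Box.of 4 (by decide +kernel))
    (by decide +kernel)

theorem cK_Ehi : NN (dW.eEhi) :=
  NN.of (K := 220) (D := ⟨1, 2, 1, 15⟩) (Box.of 4 (by decide +kernel))
    (by decide +kernel)

theorem cK_mbl : NN (dW.embl) :=
  NN.of (K := 244) (D := ⟨2, 3, 1, 17⟩) (Box.of 4 (by decide +kernel))
    (by decide +kernel)

theorem cK_mbh : NN (dW.embh) :=
  NN.of (K := 247) (D := ⟨2, 4, 1, 17⟩) (Box.of 4 (by decide +kernel))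
    (by decide +kernel)

theorem cK_Plo : NN (dW.ePlo) :=
  NN.of (K := 413) (D := ⟨4, 5, 1, 24⟩) (Box.of 4841162843 (by decide +kernel))
    (by decide +kernel)

theorem cK_Phi : NN (dW.ePhi) :=
  NN.of (K := 410) (D := ⟨4, 8, 1, 24⟩) (Box.of 1181979 (by decide +kernel))
    (by decide +kernel)

theorem posK : dW.PosK where
  ee0 := cK_ee0
  be00 := cK_be00
  be01 := cK_be01
  be02 := cK_be02
  be03 := cK_be03
  be1 := cK_be1
  Elo := cK_Elo
  Ehi := cK_Ehi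
  mbl := cK_mbl
  mbh := cK_mbh
  Plo := cK_Plo
  Phi := cK_Phi

end Pool.Agent.RX.RCM9.Dat
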