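import Pool.Agent.RX.RCM9.DW
import Pool.Agent.RX.RCM9.DatS

/-! Certificates of `dW.BdS` (generated by gencert.py). -/

set_option autoImplicit false

namespace Pool.Agent.RX.RCM9.Dat

open Set Pool.Agent.RX.RCN.K Pool.Agent.RX.RCM9 Pool.Agent.RX.RCM9.Bern Pool.Agent.RX.RCM9.Pk

theorem cS_z1 : ev dW.sg0 0 ≤ ev dW.Z' 0 := by decide +kernel

theorem cS_z2 : ev dW.sg0 0 + 1 / 2 * ev dW.sg1 0 ≤ ev dW.Z' 0 := by decide +kernel

theorem cS_z3 : ev dW.sg0 0 + 1 / 2 * ev dW.sg1 0 + 1 / 2 * ev dW.sg2 0 ≤ 1 / 2 * ev dW.Z' 0 := by decide +kernel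

theorem posS : dW.BdS where
  z1 := cS_z1
  z2 := cS_z2
  z3 := cS_z3

end Pool.Agent.RX.RCM9.Dat
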