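import Pool.Agent.RX.RCM9.DatK
import Pool.Agent.RX.RCN.Tend_1

/-! The certificate of the conditions at the end time (MP_73ccd0_lc, route M). -/

set_option autoImplicit false

namespace Pool.Agent.RX.RCM9

open Set Bern Pk Pool.Agent.RX.RCN.K

namespace Dat

variable (d : Dat)

/-- the end time -/
def tb : E := qc RCN.btq

/-- the value `X(bt) + (1 - bt) X'(bt)` -/
def vEnd (l l' : List ℚ) : ℚ := ev l RCN.btq + (1 - RCN.btq) * ev l' RCN.btq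

/-- the part of the loss which is left to the cherries -/
def ddp : ℚ := RCN.ddq - (1 - RCN.btq) ^ 2 / 2 * (RCN.phq * RCN.e0q)

/-- the factor of the densities -/
def cqq : ℚ := ((1 + RCN.btq) ^ 2)⁻¹

/-- the constant part of the factor of the slopes in the loss -/
def caq : ℚ := (1 - RCN.btq) ^ 2 / 2 - RCN.tgq * (2 * RCN.r0q - RCN.mtq * RCN.laq)

/-- the part of the factor of the slopes in the loss proportional to the weight -/
def cbq : ℚ := RCN.tgq * (RCN.mtq * (1 - RCN.lbq))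

/-- the factor of the densities from the tangent -/
def crq : ℚ := cqq * (RCN.tgq * RCN.r0q ^ 2)

noncomputable def rbT (y e : ℝ) : ℝ :=
  1 + (1 - y) * ((ev d.be0 RCN.btq : ℝ) - 1) + e * (ev d.be1 RCN.btq : ℝ)

noncomputable def rFT (y z : ℝ) : ℝ :=
  y * z * ((vEnd d.F d.F' : ℝ) + (y + z) * (vEnd d.F3 d.F3' : ℝ)
    + 4 * (y * z) * (vEnd d.F2 d.F2' : ℝ))

noncomputable def rV1 (y z b p : ℝ) : ℝ :=
  (((1 + RCN.btq)⁻¹ : ℚ) : ℝ) * (y * b) + y * z * (b * p)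

noncomputable def rV0 (y z b1 b2 p1 p2 : ℝ) : ℝ := rV1 y z b1 p1 + rV1 z y b2 p2

noncomputable def rVT (x y z b1 b2 p1 p2 : ℝ) : ℝ := rV0 y z b1 b2 p1 p2 + d.rkE x y z

/-- the factor of one side of a cherry in the loss -/
noncomputable def rcs (y z : ℝ) : ℝ :=
  (caq : ℝ) + (cbq : ℝ) * (y + z)
    - (((RCN.tgq * RCN.hlbq : ℚ) : ℝ) + ((RCN.tgq * RCN.hlsq : ℚ) : ℝ) * z) * z

noncomputable def rLs (x y z b1 b2 p1 p2 : ℝ) : ℝ :=
  rV1 y z b1 p1 * rcs y z + rV1 z y b2 p2 * rcs z y + d.rkE x y z * ((caq + cbq : ℚ) : ℝ)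

/-- the constant of the lower bound of the hazards -/
def chq : ℚ := (1 + RCN.btq) + d.th * ev d.Z RCN.btq * (1 + RCN.btq) ^ 2

noncomputable def rHL (x e : ℝ) : ℝ :=
  d.rLP x e RCN.bt - ((RCN.hlbq : ℝ) + (RCN.hlsq : ℝ) * x) * (d.chq : ℝ)

/-- what is left of the loss for the weight `x` -/
noncomputable def rdZ (x ex : ℝ) : ℝ :=
  (ddp : ℝ) - ex * (vEnd d.Z d.Z' : ℝ) - (crq : ℝ) * d.rbT x ex

noncomputable def rDI (x y z ex ey ez p1 p2 : ℝ) : ℝ :=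
  (y + z) * d.rdZ x ex
    - 2 * (1 - x) * ((cqq : ℝ) * (d.rbT x ex * d.rLs x y z (d.rbT y ey) (d.rbT z ez) p1 p2)
      - d.rFT y z)

noncomputable def rRW (x y z ey ez p1 p2 : ℝ) : ℝ :=
  (y + z) * (RCN.rmq : ℝ) - 2 * (1 - x) * d.rVT x y z (d.rbT y ey) (d.rbT z ez) p1 p2

/-! ### expressions -/

def ebT (y e : E) : E := 1 + (1 - y) * (qc (ev d.be0 RCN.btq) - 1) + e * qc (ev d.be1 RCN.btq)

def eFT (y z : E) : E :=
  y * z * (qc (vEnd d.F d.F') + (y + z) * qc (vEnd d.F3 d.F3') + 4 * (y * z) * qc (vEnd d.F2 d.F2'))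

def eV1 (y z b p : E) : E := qc ((1 + RCN.btq)⁻¹) * (y * b) + y * z * (b * p)

def eV0 (y z b1 b2 p1 p2 : E) : E := eV1 y z b1 p1 + eV1 z y b2 p2

def eVT (x y z b1 b2 p1 p2 : E) : E := eV0 y z b1 b2 p1 p2 + d.ekE x y z

def ecs (y z : E) : E :=
  qc caq + qc cbq * (y + z) - (qc (RCN.tgq * RCN.hlbq) + qc (RCN.tgq * RCN.hlsq) * z) * z

def eLs (x y z b1 b2 p1 p2 : E) : E :=
  eV1 y z b1 p1 * ecs y z + eV1 z y b2 p2 * ecs z y + d.ekE x y z * qc (caq + cbq)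

def eHL (x e : E) : E := d.eLP x e tb - (qc RCN.hlbq + qc RCN.hlsq * x) * qc d.chq

def edZ (x ex : E) : E := qc ddp - ex * qc (vEnd d.Z d.Z') - qc crq * d.ebT x ex

def eDI (x y z ex ey ez p1 p2 : E) : E :=
  (y + z) * d.edZ x ex
    - 2 * (1 - x) * (qc cqq * (d.ebT x ex * d.eLs x y z (d.ebT y ey) (d.ebT z ez) p1 p2)
      - d.eFT y z)

def eRW (x y z ey ez p1 p2 : E) : E :=
  (y + z) * qc RCN.rmq - 2 * (1 - x) * d.eVT x y z (d.ebT y ey) (d.ebT z ez) p1 p2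

section
variable (ρ : ℕ → ℝ)

theorem val_ebT (y e : E) : (d.ebT y e).val ρ = d.rbT (y.val ρ) (e.val ρ) := by
  simp only [ebT, rbT, val_mul, val_sub, val_add, val_one, val_qc]

theorem val_eFT (y z : E) : (d.eFT y z).val ρ = d.rFT (y.val ρ) (z.val ρ) := by
  simp only [eFT, rFT, val_mul, val_add, val_four, val_qc]

theorem val_eV1 (y z b p : E) : (eV1 y z b p).val ρ
    = rV1 (y.val ρ) (z.val ρ) (b.val ρ) (p.val ρ) := by
  simp only [eV1, rV1, val_mul, val_add, val_qc]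

theorem val_eV0 (y z b1 b2 p1 p2 : E) : (eV0 y z b1 b2 p1 p2).val ρ
    = rV0 (y.val ρ) (z.val ρ) (b1.val ρ) (b2.val ρ) (p1.val ρ) (p2.val ρ) := by
  simp only [eV0, rV0, val_add, val_eV1]

theorem val_ecs (y z : E) : (ecs y z).val ρ = rcs (y.val ρ) (z.val ρ) := by
  simp only [ecs, rcs, val_mul, val_sub, val_add, val_qc]

theorem val_eVT (x y z b1 b2 p1 p2 : E) : (d.eVT x y z b1 b2 p1 p2).val ρ
    = d.rVT (x.val ρ) (y.val ρ) (z.val ρ) (b1.val ρ) (b2.val ρ) (p1.val ρ) (p2.val ρ) := by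
  simp only [eVT, rVT, val_add, val_eV0, val_ekE]

theorem val_eLs (x y z b1 b2 p1 p2 : E) : (d.eLs x y z b1 b2 p1 p2).val ρ
    = d.rLs (x.val ρ) (y.val ρ) (z.val ρ) (b1.val ρ) (b2.val ρ) (p1.val ρ) (p2.val ρ) := by
  simp only [eLs, rLs, val_mul, val_add, val_qc, val_eV1, val_ecs, val_ekE]

theorem val_edZ (x ex : E) : (d.edZ x ex).val ρ = d.rdZ (x.val ρ) (ex.val ρ) := by
  simp only [edZ, rdZ, val_mul, val_sub, val_qc, val_ebT]

theorem val_eDI (x y z ex ey ez p1 p2 : E) : (d.eDI x y z ex ey ez p1 p2).val ρ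
    = d.rDI (x.val ρ) (y.val ρ) (z.val ρ) (ex.val ρ) (ey.val ρ) (ez.val ρ) (p1.val ρ)
      (p2.val ρ) := by
  simp only [eDI, rDI, val_mul, val_sub, val_add, val_one, val_two, val_qc, val_ebT, val_eFT,
    val_eLs, val_edZ]

theorem val_eRW (x y z ey ez p1 p2 : E) : (d.eRW x y z ey ez p1 p2).val ρ
    = d.rRW (x.val ρ) (y.val ρ) (z.val ρ) (ey.val ρ) (ez.val ρ) (p1.val ρ) (p2.val ρ) := by
  simp only [eRW, rRW, val_mul, val_sub, val_add, val_one, val_two, val_qc, val_ebT,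
    val_eVT]

theorem val_tb : tb.val ρ = RCN.bt := val_qc ρ _

theorem val_eHL (x e : E) : (d.eHL x e).val ρ = d.rHL (x.val ρ) (e.val ρ) := by
  simp only [eHL, rHL, val_mul, val_sub, val_add, val_qc, val_eLP, val_tb]

end

def eT1l : E := d.ebT xlo xlo - 1
def eT1h : E := d.ebT xhi hlf - 1
def eT2l : E := qc (RCN.phq * (1 + RCN.btq) ^ 2) - d.ebT xlo xlo
def eT2h : E := qc (RCN.phq * (1 + RCN.btq) ^ 2) - d.ebT xhi hlf
def eHLl : E := d.eHL xlo xlo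
def eHLh : E := d.eHL xhi hlf
def eZl : E := d.edZ xlo xlo
def eZh : E := d.edZ xhi hlf
def eDIa : E := d.eDI xlo (vU * zlo) zlo xlo (vU * zlo) zlo
  (pe3 d.Plo (xlo + vU * zlo) zlo tb) (pe3 d.Plo (xlo + zlo) (vU * zlo) tb)
def eDIb : E := d.eDI (vX * omz) (vU * omz) zhi (vX * omz) (vU * omz) hlf
  (pe3 d.Phi (vX * omz + vU * omz) zlo tb) (pe3 d.Plo (vX * omz + zhi) (vU * omz) tb)
def eDIc : E := d.eDI xhi (vU * (vZ * omx)) (vZ * omx) hlf (vU * (vZ * omx)) (vZ * omx)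
  (pe3 d.Plo (xhi + vU * (vZ * omx)) (vZ * omx) tb)
  (pe3 d.Plo (xhi + vZ * omx) (vU * (vZ * omx)) tb)
def eRWa : E := d.eRW xlo (vU * zlo) zlo (vU * zlo) zlo
  (pe3 d.Plo (xlo + vU * zlo) zlo tb) (pe3 d.Plo (xlo + zlo) (vU * zlo) tb)
def eRWb : E := d.eRW (vX * omz) (vU * omz) zhi (vU * omz) hlf
  (pe3 d.Phi (vX * omz + vU * omz) zlo tb) (pe3 d.Plo (vX * omz + zhi) (vU * omz) tb)
def eRWc : E := d.eRW xhi (vU * (vZ * omx)) (vZ * omx) (vU * (vZ * omx)) (vZ * omx)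
  (pe3 d.Plo (xhi + vU * (vZ * omx)) (vZ * omx) tb)
  (pe3 d.Plo (xhi + vZ * omx) (vU * (vZ * omx)) tb)

/-- the polynomial inequalities at the end time -/
structure PosT : Prop where
  T1l : NN d.eT1l
  T1h : NN d.eT1h
  T2l : NN d.eT2l
  T2h : NN d.eT2h
  DIa : NN d.eDIa
  DIb : NN d.eDIb
  DIc : NN d.eDIc
  RWa : NN d.eRWa
  RWb : NN d.eRWb
  RWc : NN d.eRWc
  Zl : NN d.eZl
  Zh : NN d.eZh
  HLl : NN d.eHLl
  HLh : NN d.eHLh

variable {d}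

theorem evb_end (l l' : List ℚ) : pv l RCN.bt + RCN.wt * pv l' RCN.bt = (vEnd l l' : ℝ) := by
  unfold vEnd
  rw [pv_evb, pv_evb, RCN.wt_eq]
  push_cast
  ring

theorem ddp_eq : RCN.K.dd' = (ddp : ℝ) := by
  unfold RCN.K.dd' ddp RCN.dd RCN.ph RCN.e0
  rw [RCN.wt_eq]
  push_cast
  ring

theorem rbT_eq (y : ℝ) : d.rb y (eta y) RCN.bt = d.rbT y (eta y) := by
  unfold rb rbT
  rw [pv_evb, pv_evb]

theorem eFs_eq (y z : ℝ) : d.dt.eFs y z = d.rFT y z := by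
  unfold Dt.eFs rFT
  rw [← evb_end, ← evb_end, ← evb_end]
  rfl

theorem V1_eq {fb : ℝ → ℝ} (hfb : ∀ y, fb y = d.rbT y (eta y) * ((1 + RCN.bt) ^ 2)⁻¹)
    (x y z : ℝ) : d.dt.V1 fb x y z
      = rV1 y z (d.rbT y (eta y)) (d.rP (x + y) z RCN.bt) := by
  have h1 : 0 < 1 + RCN.bt := by linarith [RCN.bt_nn]
  have e1 : (((1 + RCN.btq)⁻¹ : ℚ) : ℝ) = (1 + RCN.bt)⁻¹ := by
    push_cast
    rfl
  have e2 : (1 + RCN.bt) * ((1 + RCN.bt) ^ 2)⁻¹ = (1 + RCN.bt)⁻¹ := by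
    field_simp
  have e4 : d.dt.C1' x y z RCN.bt = d.rbT y (eta y) * d.rP (x + y) z RCN.bt := by
    rw [← rbT_eq]; rfl
  unfold Dt.V1 rV1
  rw [hfb y, e1, e4, ← e2]
  ring

theorem V0_eq {fb : ℝ → ℝ} (hfb : ∀ y, fb y = d.rbT y (eta y) * ((1 + RCN.bt) ^ 2)⁻¹)
    (x y z : ℝ) : d.dt.V0 fb x y z
      = rV0 y z (d.rbT y (eta y)) (d.rbT z (eta z)) (d.rP (x + y) z RCN.bt)
        (d.rP (x + z) y RCN.bt) := by
  unfold Dt.V0 rV0
  rw [V1_eq hfb, V1_eq hfb]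

theorem Vt_eq {fb : ℝ → ℝ} (hfb : ∀ y, fb y = d.rbT y (eta y) * ((1 + RCN.bt) ^ 2)⁻¹)
    (x y z : ℝ) : d.dt.Vt fb x y z
      = d.rVT x y z (d.rbT y (eta y)) (d.rbT z (eta z)) (d.rP (x + y) z RCN.bt)
        (d.rP (x + z) y RCN.bt) := by
  unfold Dt.Vt rVT
  rw [V0_eq hfb]
  rfl

/-- the factor of the slopes in the loss -/
theorem cw_eq (y z : ℝ) : RCN.K.cw (RCN.ksw y z) = rcs y z := by
  unfold RCN.K.cw rcs RCN.ksw caq cbq RCN.tgc RCN.r0 RCN.mt RCN.la RCN.lb RCN.hlb RCN.hls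
  rw [RCN.wt_eq]
  push_cast
  ring

theorem cwE_eq : RCN.K.cwE = ((caq + cbq : ℚ) : ℝ) := by
  unfold RCN.K.cwE RCN.K.cw caq cbq RCN.tgc RCN.r0 RCN.mt RCN.la RCN.lb
  rw [RCN.wt_eq]
  push_cast
  ring

theorem cr_eq : (crq : ℝ) = ((1 + RCN.bt) ^ 2)⁻¹ * (RCN.tgc * RCN.r0 ^ 2) := by
  unfold crq cqq RCN.tgc RCN.r0 RCN.bt
  push_cast
  ring

theorem Ls_eq {fb : ℝ → ℝ} (hfb : ∀ y, fb y = d.rbT y (eta y) * ((1 + RCN.bt) ^ 2)⁻¹)
    (x y z : ℝ) : d.dt.Ls fb x y z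
      = d.rLs x y z (d.rbT y (eta y)) (d.rbT z (eta z)) (d.rP (x + y) z RCN.bt)
        (d.rP (x + z) y RCN.bt) := by
  have e3 : d.dt.kE x y z = d.rkE x y z := rfl
  unfold Dt.Ls rLs
  rw [V1_eq hfb, V1_eq hfb, cw_eq, cw_eq, cwE_eq, e3]

theorem PosT.dZ (h : d.PosT) {x : ℝ} (hx : x ∈ Icc (0 : ℝ) 1) : 0 ≤ d.rdZ x (eta x) := by
  rcases le_total x (1 / 2) with h1 | h1
  · have h2 := h.Zl (2 * x) 0 0 0 (two_mul_mem hx.1 h1) z01 z01 bm0
    simp only [eZl, val_edZ, val_xlo] at h2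
    rw [show 1 / 2 * (2 * x) = x by ring] at h2
    rw [eta_lo h1]
    exact h2
  · have h2 := h.Zh (2 * x - 1) 0 0 0 (two_sub_mem h1 hx.2) z01 z01 bm0
    simp only [eZh, val_edZ, val_xhi, val_hlf] at h2
    rw [show 1 / 2 + 1 / 2 * (2 * x - 1) = x by ring] at h2
    rw [eta_hi h1]
    exact h2

theorem PosT.HL (h : d.PosT) {x : ℝ} (hx : x ∈ Icc (0 : ℝ) 1) : 0 ≤ d.rHL x (eta x) := by
  rcases le_total x (1 / 2) with h1 | h1
  · have h2 := h.HLl (2 * x) 0 0 0 (two_mul_mem hx.1 h1) z01 z01 bm0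
    simp only [eHLl, val_eHL, val_xlo] at h2
    rw [show 1 / 2 * (2 * x) = x by ring] at h2
    rw [eta_lo h1]
    exact h2
  · have h2 := h.HLh (2 * x - 1) 0 0 0 (two_sub_mem h1 hx.2) z01 z01 bm0
    simp only [eHLh, val_eHL, val_xhi, val_hlf] at h2
    rw [show 1 / 2 + 1 / 2 * (2 * x - 1) = x by ring] at h2
    rw [eta_hi h1]
    exact h2

theorem PosT.b1 (h : d.PosT) {y : ℝ} (hy : y ∈ Icc (0 : ℝ) 1) : 1 ≤ d.rbT y (eta y) := by
  rcases le_total y (1 / 2) with h1 | h1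
  · have h2 := h.T1l (2 * y) 0 0 0 (two_mul_mem hy.1 h1) z01 z01 bm0
    simp only [eT1l, val_sub, val_ebT, val_xlo, val_one] at h2
    rw [show 1 / 2 * (2 * y) = y by ring] at h2
    rw [eta_lo h1]
    linarith
  · have h2 := h.T1h (2 * y - 1) 0 0 0 (two_sub_mem h1 hy.2) z01 z01 bm0
    simp only [eT1h, val_sub, val_ebT, val_xhi, val_hlf, val_one] at h2
    rw [show 1 / 2 + 1 / 2 * (2 * y - 1) = y by ring] at h2
    rw [eta_hi h1]
    linarith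

theorem PosT.b2 (h : d.PosT) {y : ℝ} (hy : y ∈ Icc (0 : ℝ) 1) :
    d.rbT y (eta y) ≤ RCN.ph * (1 + RCN.bt) ^ 2 := by
  have e1 : ((RCN.phq * (1 + RCN.btq) ^ 2 : ℚ) : ℝ) = RCN.ph * (1 + RCN.bt) ^ 2 := by
    unfold RCN.ph RCN.bt
    push_cast
    ring
  rcases le_total y (1 / 2) with h1 | h1
  · have h2 := h.T2l (2 * y) 0 0 0 (two_mul_mem hy.1 h1) z01 z01 bm0
    simp only [eT2l, val_sub, val_ebT, val_xlo, val_qc] at h2
    rw [show 1 / 2 * (2 * y) = y by ring, e1] at h2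
    rw [eta_lo h1]
    linarith
  · have h2 := h.T2h (2 * y - 1) 0 0 0 (two_sub_mem h1 hy.2) z01 z01 bm0
    simp only [eT2h, val_sub, val_ebT, val_xhi, val_hlf, val_qc] at h2
    rw [show 1 / 2 + 1 / 2 * (2 * y - 1) = y by ring, e1] at h2
    rw [eta_hi h1]
    linarith

theorem PosT.DI (h : d.PosT) {x y z : ℝ} (hx : x ∈ Icc (0 : ℝ) 1) (hy : y ∈ Icc (0 : ℝ) 1)
    (hz : z ∈ Icc (0 : ℝ) 1) (hxz : x + z ≤ 1) (hyz : y + z ≤ 1) (hle : y ≤ z) :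
    0 ≤ d.rDI x y z (eta x) (eta y) (eta z) (d.rP (x + y) z RCN.bt) (d.rP (x + z) y RCN.bt) ∧
    0 ≤ d.rRW x y z (eta y) (eta z) (d.rP (x + y) z RCN.bt) (d.rP (x + z) y RCN.bt) := by
  have hy2 : y ≤ 1 / 2 := by linarith
  have ey : eta y = y := eta_lo hy2
  rcases le_or_gt z (1 / 2) with hz2 | hz2
  · have ez : eta z = z := eta_lo hz2
    rcases le_or_gt x (1 / 2) with hx2 | hx2
    · obtain ⟨u, hu, hu2⟩ := div_mem hy.1 hle
      have h2 := h.DIa (2 * x) (2 * z) u 0 (two_mul_mem hx.1 hx2) (two_mul_mem hz.1 hz2) hu bm0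
      have h3 := h.RWa (2 * x) (2 * z) u 0 (two_mul_mem hx.1 hx2) (two_mul_mem hz.1 hz2) hu bm0
      simp only [eDIa, val_eDI, val_pe3, val_tb, val_mul, val_add, val_xlo, val_zlo, val_vU] at h2
      simp only [eRWa, val_eRW, val_pe3, val_tb, val_mul, val_add, val_xlo, val_zlo, val_vU] at h3
      rw [show 1 / 2 * (2 * x) = x by ring, show 1 / 2 * (2 * z) = z by ring, hu2] at h2 h3
      unfold rP
      rw [eta_lo hx2, ey, ez, if_pos hz2, if_pos hy2]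
      exact ⟨h2, h3⟩
    · -- `x > 1/2`
      obtain ⟨v, hv, hv2⟩ := div_mem hz.1 (show z ≤ 1 - x by linarith)
      obtain ⟨u, hu, hu2⟩ := div_mem hy.1 hle
      have h2 := h.DIc (2 * x - 1) v u 0 (two_sub_mem hx2.le hx.2) hv hu bm0
      have h3 := h.RWc (2 * x - 1) v u 0 (two_sub_mem hx2.le hx.2) hv hu bm0
      simp only [eDIc, val_eDI, val_pe3, val_tb, val_mul, val_add, val_xhi, val_omx, val_vU,
        val_vZ, val_hlf] at h2
      simp only [eRWc, val_eRW, val_pe3, val_tb, val_mul, val_add, val_xhi, val_omx, val_vU,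
        val_vZ] at h3
      rw [show 1 / 2 * (1 - (2 * x - 1)) = 1 - x by ring, hv2, hu2,
        show 1 / 2 + 1 / 2 * (2 * x - 1) = x by ring] at h2 h3
      unfold rP
      rw [eta_hi hx2.le, ey, ez, if_pos hz2, if_pos hy2]
      exact ⟨h2, h3⟩
  · have ez : eta z = 1 / 2 := eta_hi hz2.le
    have hx2 : x ≤ 1 / 2 := by linarith
    obtain ⟨v, hv, hv2⟩ := div_mem hx.1 (show x ≤ 1 - z by linarith)
    obtain ⟨u, hu, hu2⟩ := div_mem hy.1 (show y ≤ 1 - z by linarith)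
    have h2 := h.DIb v (2 * z - 1) u 0 hv (two_sub_mem hz2.le hz.2) hu bm0
    have h3 := h.RWb v (2 * z - 1) u 0 hv (two_sub_mem hz2.le hz.2) hu bm0
    simp only [eDIb, val_eDI, val_pe3, val_tb, val_mul, val_add, val_zhi, val_zlo, val_omz,
      val_vU, val_vX, val_hlf] at h2
    simp only [eRWb, val_eRW, val_pe3, val_tb, val_mul, val_add, val_zhi, val_zlo, val_omz,
      val_vU, val_vX, val_hlf] at h3
    rw [show 1 / 2 * (1 - (2 * z - 1)) = 1 - z by ring, hv2, hu2,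
      show 1 / 2 * (2 * z - 1) = z - 1 / 2 by ring,
      show 1 / 2 + (z - 1 / 2) = z by ring] at h2 h3
    unfold rP
    rw [eta_lo hx2, ey, ez, if_neg (not_le.2 hz2), if_pos hy2]
    exact ⟨h2, h3⟩

/-- **the conditions at the end time** -/
theorem te (h : d.PosT) (hk : d.PosK) :
    d.dt.Te fun y => (d.dt.kf (pv d.be0) (pv d.be1) d.rPe d.rP).fh y RCN.bt := by
  have hfb : ∀ y, (d.dt.kf (pv d.be0) (pv d.be1) d.rPe d.rP).fh y RCN.bt
      = d.rbT y (eta y) * ((1 + RCN.bt) ^ 2)⁻¹ := fun y => by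
    rw [← rbT_eq]
    rfl
  have h1 : 0 < 1 + RCN.bt := by linarith [RCN.bt_nn]
  have h2 : 0 < ((1 + RCN.bt) ^ 2)⁻¹ := by positivity
  have hK := kok hk
  have eZ : d.dt.Z RCN.bt + RCN.wt * d.dt.Z' RCN.bt = (vEnd d.Z d.Z' : ℝ) := evb_end _ _
  have ec : (cqq : ℝ) = ((1 + RCN.bt) ^ 2)⁻¹ := by
    unfold cqq RCN.bt
    push_cast
    ring
  refine ⟨fun y hy => ?_, fun y hy => ?_, fun x hx y hy z hz hxy hxz hyz => ?_, fun x hx => ?_,
    fun x hx y hy z hz hxy hxz hyz hle => ?_, fun x hx y hy z hz hxy hxz hyz hle => ?_,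
    fun y hy => ?_⟩
  · rw [hfb]
    have := h.b1 hy
    nlinarith
  · rw [hfb, ← div_eq_mul_inv, div_le_iff₀ (by positivity)]
    exact h.b2 hy
  · show 0 ≤ d.rb y (eta y) RCN.bt * d.rP (x + y) z RCN.bt
    rw [rbT_eq]
    have b1 := h.b1 hy
    refine mul_nonneg (by linarith) ?_
    have hw : x + y ∈ Icc (0 : ℝ) 1 := ⟨add_nonneg hx.1 hy.1, hxy⟩
    have hwz : x + y ≤ 2 * (1 - z) := by linarith
    have k1 := hK.lt (x + y) hw z hz hwz RCN.bt RCN.bt_m1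
    have k2 := hK.pt (x + y) hw z hz hwz RCN.bt RCN.bt_m1
    have k3 := hK.ez0 z hz RCN.bt RCN.bt_m1
    have k4 := hK.Pe0 (x + y) hw RCN.bt RCN.bt_m1
    have k5 := mul_nonneg k4 k3
    by_contra hc
    push Not at hc
    have k6 := mul_pos h1 (sub_pos.2 k1)
    nlinarith
  · have k := h.dZ hx
    rw [eZ, ddp_eq, hfb]
    unfold rdZ at k
    rw [cr_eq] at k
    linarith
  · have k := (h.DI hx hy hz hxz hyz hle).1
    rw [eZ, ddp_eq, Ls_eq hfb, eFs_eq, hfb]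
    unfold rDI rdZ at k
    rw [ec, cr_eq] at k
    linarith
  · have k := (h.DI hx hy hz hxz hyz hle).2
    rw [Vt_eq hfb]
    unfold rRW at k
    show _ ≤ (y + z) * (RCN.rmq : ℝ)
    linarith
  · have k := h.HL hy
    unfold rHL rLP at k
    have e1 : (d.chq : ℝ) = (1 + RCN.bt) + (d.th : ℝ) * pv d.Z RCN.bt * (1 + RCN.bt) ^ 2 := by
      unfold chq
      rw [pv_evb]
      unfold RCN.bt
      push_cast
      ring
    rw [e1, pv_kappl] at k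
    show (RCN.hlb + RCN.hls * y) * ((1 + RCN.bt)⁻¹ + (d.th : ℝ) * pv d.Z RCN.bt)
      ≤ ((1 + RCN.bt) ^ 2)⁻¹ - eta y * pv d.Z' RCN.bt - 2 * (1 - y) * pv d.N RCN.bt
        - (d.SP : ℝ) * (1 - y) * pv d.jp RCN.bt
    have e3 : ((RCN.hlbq : ℝ) + (RCN.hlsq : ℝ) * y) = RCN.hlb + RCN.hls * y := rfl
    rw [e3] at k
    have h4 : 0 < (1 + RCN.bt) ^ 2 := by positivity
    have k2 := mul_le_mul_of_nonneg_left k h2.le
    rw [mul_zero] at k2
    have e5 : ((1 + RCN.bt) ^ 2)⁻¹ * (1 - (eta y * pv d.Z' RCN.bt * (1 + RCN.bt) ^ 2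
          + 2 * (1 - y) * pv d.N RCN.bt * (1 + RCN.bt) ^ 2
          + (d.SP : ℝ) * (1 - y) * ((1 + RCN.bt) ^ 2 * pv d.jp RCN.bt))
          - (RCN.hlb + RCN.hls * y) * ((1 + RCN.bt)
            + (d.th : ℝ) * pv d.Z RCN.bt * (1 + RCN.bt) ^ 2))
        = ((1 + RCN.bt) ^ 2)⁻¹ - eta y * pv d.Z' RCN.bt - 2 * (1 - y) * pv d.N RCN.bt
        - (d.SP : ℝ) * (1 - y) * pv d.jp RCN.bt
        - (RCN.hlb + RCN.hls * y) * ((1 + RCN.bt)⁻¹ + (d.th : ℝ) * pv d.Z RCN.bt) := by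
      field_simp
      ring
    rw [e5] at k2
    linarith

end Dat

end Pool.Agent.RX.RCM9
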