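import Pool.Agent.RX.RCM9.DW
import Pool.Agent.RX.RCM9.DatT

/-! Certificates of `dW.PosT` (generated by gencert.py). -/

set_option autoImplicit false

namespace Pool.Agent.RX.RCM9.Dat

open Set Pool.Agent.RX.RCN.K Pool.Agent.RX.RCM9 Pool.Agent.RX.RCM9.Bern Pool.Agent.RX.RCM9.Pk

theorem cT_T1l : NN (dW.eT1l) :=
  NN.of (K := 64) (D := ⟨2, 1, 1, 1⟩) (Box.of 4 (by decide +kernel))
    (by decide +kernel)

theorem cT_T1h : NN (dW.eT1h) :=
  NN.of (K := 64) (D := ⟨2, 1, 1, 1⟩) (Box.of 4 (by decide +kernel))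
    (by decide +kernel)

theorem cT_T2l : NN (dW.eT2l) :=
  NN.of (K := 64) (D := ⟨2, 1, 1, 1⟩) (Box.of 4 (by decide +kernel))
    (by decide +kernel)

theorem cT_T2h : NN (dW.eT2h) :=
  NN.of (K := 64) (D := ⟨2, 1, 1, 1⟩) (Box.of 4 (by decide +kernel))
    (by decide +kernel)

theorem cT_DIa : NN (dW.eDIa) :=
  NN.of (K := 356) (D := ⟨5, 10, 7, 1⟩) (Box.of 21582844399088317809697 (by decide +kernel))
    (by decide +kernel)

theorem cT_DIb : NN (dW.eDIb) :=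
  NN.of (K := 311) (D := ⟨5, 12, 7, 1⟩) (Box.of 4904337537 (by decide +kernel))
    (by decide +kernel)

theorem cT_DIc : NN (dW.eDIc) :=
  NN.of (K := 266) (D := ⟨12, 10, 7, 1⟩) (Box.of 4 (by decide +kernel))
    (by decide +kernel)

theorem cT_RWa : NN (dW.eRWa) :=
  NN.of (K := 156) (D := ⟨4, 8, 7, 1⟩) (Box.of 4 (by decide +kernel))
    (by decide +kernel)

theorem cT_RWb : NN (dW.eRWb) :=
  NN.of (K := 163) (D := ⟨4, 10, 7, 1⟩) (Box.of 4 (by decide +kernel))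
    (by decide +kernel)

theorem cT_RWc : NN (dW.eRWc) :=
  NN.of (K := 168) (D := ⟨10, 8, 7, 1⟩) (Box.of 4 (by decide +kernel))
    (by decide +kernel)

theorem cT_Zl : NN (dW.eZl) :=
  NN.of (K := 82) (D := ⟨2, 1, 1, 1⟩) (Box.of 4 (by decide +kernel))
    (by decide +kernel)

theorem cT_Zh : NN (dW.eZh) :=
  NN.of (K := 82) (D := ⟨2, 1, 1, 1⟩) (Box.of 4 (by decide +kernel))
    (by decide +kernel)

theorem cT_HLl : NN (dW.eHLl) :=
  NN.of (K := 104) (D := ⟨2, 1, 1, 1⟩) (Box.of 4 (by decide +kernel))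
    (by decide +kernel)

theorem cT_HLh : NN (dW.eHLh) :=
  NN.of (K := 104) (D := ⟨2, 1, 1, 1⟩) (Box.of 4 (by decide +kernel))
    (by decide +kernel)

theorem posT : dW.PosT where
  T1l := cT_T1l
  T1h := cT_T1h
  T2l := cT_T2l
  T2h := cT_T2h
  DIa := cT_DIa
  DIb := cT_DIb
  DIc := cT_DIc
  RWa := cT_RWa
  RWb := cT_RWb
  RWc := cT_RWc
  Zl := cT_Zl
  Zh := cT_Zh
  HLl := cT_HLl
  HLh := cT_HLh

end Pool.Agent.RX.RCM9.Dat
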