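import Pool.Agent.RX.RCM9.DW

/-! Certificates of `yW.Pos zW` (generated by gencert.py). -/

set_option autoImplicit false

namespace Pool.Agent.RX.RCM9.YDat

open Set Pool.Agent.RX.RCN.K Pool.Agent.RX.RCM9 Pool.Agent.RX.RCM9.Bern Pool.Agent.RX.RCM9.Pk

theorem cY_h1 : NN (yW.f1 zW) :=
  NN.of (K := 251) (D := ⟨1, 13, 1, 17⟩) (Box.of 1186017 (by decide +kernel))
    (by decide +kernel)

theorem cY_h2 : NN (yW.f2 zW) :=
  NN.of (K := 579) (D := ⟨1, 36, 1, 52⟩) (Box.of 289 (by decide +kernel))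
    (by decide +kernel)

theorem cY_hY : NN (yW.eQY) :=
  NN.of (K := 87) (D := ⟨1, 5, 1, 9⟩) (Box.of 4 (by decide +kernel))
    (by decide +kernel)

theorem cY_hN : NN (yW.eQN) :=
  NN.of (K := 88) (D := ⟨1, 5, 1, 9⟩) (Box.of 4 (by decide +kernel))
    (by decide +kernel)

theorem cY_h1n : NN (yW.f1n) :=
  NN.of (K := 102) (D := ⟨1, 7, 1, 11⟩) (Box.of 4 (by decide +kernel))
    (by decide +kernel)

theorem cY_hYT : NN (yW.fYT zW) :=
  NN.of (K := 107) (D := ⟨1, 7, 1, 11⟩) (Box.of 4 (by decide +kernel))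
    (by decide +kernel)

theorem cY_hV : NN (yW.fV zW) :=
  NN.of (K := 115) (D := ⟨1, 8, 1, 12⟩) (Box.of 4 (by decide +kernel))
    (by decide +kernel)

theorem cY_mY : NN (yW.gY) :=
  NN.of (K := 91) (D := ⟨1, 6, 1, 9⟩) (Box.of 4 (by decide +kernel))
    (by decide +kernel)

theorem cY_mN : NN (yW.gN) :=
  NN.of (K := 92) (D := ⟨1, 6, 1, 9⟩) (Box.of 4 (by decide +kernel))
    (by decide +kernel)

theorem cY_mT : NN (gT zW) :=
  NN.of (K := 108) (D := ⟨1, 7, 1, 11⟩) (Box.of 4 (by decide +kernel))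
    (by decide +kernel)

theorem cY_hT2 : NN (fT2 zW) :=
  NN.of (K := 111) (D := ⟨1, 7, 1, 12⟩) (Box.of 4 (by decide +kernel))
    (by decide +kernel)

theorem posY : yW.Pos zW where
  h1 := cY_h1
  h2 := cY_h2
  hY := cY_hY
  hN := cY_hN
  h1n := cY_h1n
  hYT := cY_hYT
  hV := cY_hV
  mY := cY_mY
  mN := cY_mN
  mT := cY_mT
  hT2 := cY_hT2

end Pool.Agent.RX.RCM9.YDat
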