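import Pool.Agent.RX.RCM9.DatH
import Pool.Agent.RX.RCN.Cst

/-! The constants of the tail systems with rational polynomials. -/

set_option autoImplicit false

namespace Pool.Agent.RX.RCM9

open Set Bern Pk Pool.Agent.RX.RCN.K

/-- the data of the constants -/
structure KDat where
  QB : List (List ℚ)
  QE : List (List ℚ)

namespace KDat

variable (k : KDat) (z : HDat)

noncomputable def rB (t r : ℝ) : ℝ := (t - r) * pv2 k.QB r t
noncomputable def rE1 (t r : ℝ) : ℝ := 1 + (t - r) * pv2 k.QE r t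

def eB : E := (vT - HDat.rZ) * pe2 k.QB HDat.rZ vT
def eE1 : E := 1 + (vT - HDat.rZ) * pe2 k.QE HDat.rZ vT

def gBl : E := k.eB * (1 - Dat.xlo * z.eSl vT) - (z.eSl vT - z.eSl HDat.rZ)
def gBh : E := k.eB * (1 - Dat.xhi * z.eSh vT) - (z.eSh vT - z.eSh HDat.rZ)
def gEl : E := k.eE1 * (1 - Dat.xlo * z.eSl vT) - (1 - Dat.xlo * z.eSl HDat.rZ)
def gEh : E := k.eE1 * (1 - Dat.xhi * z.eSh vT) - (1 - Dat.xhi * z.eSh HDat.rZ)
def gBp : E := k.eB * (1 + HDat.rZ) - (vT - HDat.rZ)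
def gEp : E := k.eE1 * (1 + HDat.rZ) - (1 + vT)

structure Pos : Prop where
  Bl : NN (k.gBl z)
  Bh : NN (k.gBh z)
  El : NN (k.gEl z)
  Eh : NN (k.gEh z)
  Bp : NN k.gBp
  Ep : NN k.gEp

variable {k z}

open Dat

/-- **the bounds of `D / x` and of `e^H`** -/
theorem Pos.cf (h : k.Pos z) : z.hz.Cf k.rB k.rE1 where
  b x hx r t hr hrt ht := by
    obtain ⟨u, hu, hu2⟩ := div_mem hr hrt
    have htt : t ∈ Icc (0 : ℝ) RCN.bt := ⟨hr.trans hrt, ht⟩
    show z.rSh x t - z.rSh x r ≤ (t - r) * pv2 k.QB r t * (1 - x * z.rSh x t)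
    rcases le_or_gt x (1 / 2) with h1 | h1
    · have h2 := h.Bl (2 * x) u 0 t (two_mul_mem hx.1 h1) hu z01 htt
      simp only [gBl, eB, HDat.eSl, HDat.rZ, val_sub, val_mul, val_add, val_one, val_pe2, val_xlo,
        val_vT, val_vZ, hu2] at h2
      rw [show 1 / 2 * (2 * x) = x by ring] at h2
      unfold HDat.rSh
      rw [if_pos h1, if_pos h1]
      linarith
    · have h2 := h.Bh (2 * x - 1) u 0 t (two_sub_mem h1.le hx.2) hu z01 htt
      simp only [gBh, eB, HDat.eSh, HDat.rZ, val_sub, val_mul, val_one, val_pe2, val_xlo,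
        val_xhi, val_vT, val_vZ, hu2] at h2
      rw [show 1 / 2 * (2 * x - 1) = x - 1 / 2 by ring,
        show 1 / 2 + (x - 1 / 2) = x by ring] at h2
      unfold HDat.rSh
      rw [if_neg (not_le.2 h1), if_neg (not_le.2 h1)]
      linarith
  bp r t hr hrt ht := by
    obtain ⟨u, hu, hu2⟩ := div_mem hr hrt
    have htt : t ∈ Icc (0 : ℝ) RCN.bt := ⟨hr.trans hrt, ht⟩
    have h2 := h.Bp 0 u 0 t z01 hu z01 htt
    simp only [gBp, eB, HDat.rZ, val_sub, val_mul, val_add, val_one, val_pe2, val_vT, val_vZ,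
      hu2] at h2
    show t - r ≤ (t - r) * pv2 k.QB r t * (1 + r)
    linarith
  e x hx r t hr hrt ht := by
    obtain ⟨u, hu, hu2⟩ := div_mem hr hrt
    have htt : t ∈ Icc (0 : ℝ) RCN.bt := ⟨hr.trans hrt, ht⟩
    show 1 - x * z.rSh x r ≤ (1 + (t - r) * pv2 k.QE r t) * (1 - x * z.rSh x t)
    rcases le_or_gt x (1 / 2) with h1 | h1
    · have h2 := h.El (2 * x) u 0 t (two_mul_mem hx.1 h1) hu z01 htt
      simp only [gEl, eE1, HDat.eSl, HDat.rZ, val_sub, val_mul, val_add, val_one, val_pe2,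
        val_xlo, val_vT, val_vZ, hu2] at h2
      rw [show 1 / 2 * (2 * x) = x by ring] at h2
      unfold HDat.rSh
      rw [if_pos h1, if_pos h1]
      linarith
    · have h2 := h.Eh (2 * x - 1) u 0 t (two_sub_mem h1.le hx.2) hu z01 htt
      simp only [gEh, eE1, HDat.eSh, HDat.rZ, val_sub, val_mul, val_add, val_one, val_pe2,
        val_xlo, val_xhi, val_vT, val_vZ, hu2] at h2
      rw [show 1 / 2 * (2 * x - 1) = x - 1 / 2 by ring,
        show 1 / 2 + (x - 1 / 2) = x by ring] at h2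
      unfold HDat.rSh
      rw [if_neg (not_le.2 h1), if_neg (not_le.2 h1)]
      linarith
  ep r t hr hrt ht := by
    obtain ⟨u, hu, hu2⟩ := div_mem hr hrt
    have htt : t ∈ Icc (0 : ℝ) RCN.bt := ⟨hr.trans hrt, ht⟩
    have h2 := h.Ep 0 u 0 t z01 hu z01 htt
    simp only [gEp, eE1, HDat.rZ, val_sub, val_mul, val_add, val_one, val_pe2, val_vT, val_vZ,
      hu2] at h2
    show 1 + t ≤ (1 + (t - r) * pv2 k.QE r t) * (1 + r)
    linarith

end KDat

end Pool.Agent.RX.RCM9
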