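import Pool.Agent.RX.RCM.GTe
import Pool.Agent.RX.RCM9.PVal2
import Pool.Agent.RX.RCM9.PkR

/-! The functions of the clock variable for level 1/2 with rational polynomials
(MP_73ccd0_lc, route M). -/

set_option autoImplicit false

namespace Pool.Agent.RX.RCM9.G

open Set Bern Pk Pool.Agent.RX.RCM

/-- nonnegative on the cube -/
def NG (e : E) : Prop := ∀ X Z W T : ℝ, X ∈ Icc (0 : ℝ) 1 → Z ∈ Icc (0 : ℝ) 1 →
  W ∈ Icc (0 : ℝ) 1 → T ∈ Icc (0 : ℝ) 1 → 0 ≤ e.val (pt X Z W T)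

theorem NG.of {K : ℕ} {D : Dim} {e : E} (h : Box K D e []) (h0 : hdr K D e = true) : NG e :=
  fun _ _ _ _ hX hZ hU hT => h.pos4 h0 hX.1 hX.2 hZ.1 hZ.2 hU.1 hU.2 hT.1 hT.2

def gX : E := E.var 0
def gZ : E := E.var 1
def gW : E := E.var 2
def gT : E := E.var 3

section
variable (X Z W T : ℝ)
theorem val_gX : gX.val (pt X Z W T) = X := rfl
theorem val_gZ : gZ.val (pt X Z W T) = Z := rfl
theorem val_gW : gW.val (pt X Z W T) = W := rfl
theorem val_gT : gT.val (pt X Z W T) = T := rfl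
end

/-! ### derivatives -/

def dd2 (l : List (List ℚ)) : List (List ℚ) := l.map pd
def dd3 (l : List (List (List ℚ))) : List (List (List ℚ)) := l.map dd2

theorem hasD2 (l : List (List ℚ)) (z t : ℝ) : HasDerivAt (pv2 l z) (pv2 (dd2 l) z t) t := by
  unfold dd2
  induction l with
  | nil =>
    have h1 : pv2 ([] : List (List ℚ)) z = fun _ => 0 := by funext t; simp [pv2]
    rw [h1]
    simp only [List.map_nil, pv2]
    exact hasDerivAt_const t (0 : ℝ)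
  | cons a l ih =>
    have h1 : pv2 (a :: l) z = fun t => pv a t + z * pv2 l z t := by funext t; simp [pv2]
    rw [h1]
    simp only [List.map_cons, pv2]
    exact (hasDerivAt_pv a t).add (ih.const_mul z)

theorem hasD3 (l : List (List (List ℚ))) (w z t : ℝ) :
    HasDerivAt (pv3 l w z) (pv3 (dd3 l) w z t) t := by
  unfold dd3
  induction l with
  | nil =>
    have h1 : pv3 ([] : List (List (List ℚ))) w z = fun _ => 0 := by funext t; simp [pv3]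
    rw [h1]
    simp only [List.map_nil, pv3]
    exact hasDerivAt_const t (0 : ℝ)
  | cons a l ih =>
    have h1 : pv3 (a :: l) w z = fun t => pv2 a z t + w * pv3 l w z t := by funext t; simp [pv3]
    rw [h1]
    simp only [List.map_cons, pv3]
    exact (hasD2 a z t).add (ih.const_mul w)

/-- `e^v ≤ 1 + v + v²/2 + v³/6 + v⁴/19` for `v ≤ 1` -/
theorem exp_T4 {v : ℝ} (h0 : 0 ≤ v) (h1 : v ≤ 1) :
    Real.exp v ≤ 1 + v * (1 + v / 2 + v ^ 2 / 6 + v ^ 3 / 19) := by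
  have h := Real.exp_bound' h0 h1 (n := 6) (by norm_num)
  have e : ∑ m ∈ Finset.range 6, v ^ m / (m.factorial : ℝ)
      = 1 + v + v ^ 2 / 2 + v ^ 3 / 6 + v ^ 4 / 24 + v ^ 5 / 120 := by
    simp only [Finset.sum_range_succ, Finset.sum_range_zero, Nat.factorial]
    norm_num
  rw [e] at h
  have h4 : 0 ≤ v ^ 4 := by positivity
  have e2 : v ^ 6 * ((6 : ℕ) + 1 : ℝ) / (((6 : ℕ).factorial : ℝ) * (6 : ℕ)) = v ^ 6 * 7 / 4320 := by
    simp only [Nat.factorial]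
    norm_num
  rw [e2] at h
  have h5 : v ^ 5 ≤ v ^ 4 := by
    have := mul_le_mul_of_nonneg_left h1 h4
    calc v ^ 5 = v ^ 4 * v := by ring
      _ ≤ _ := by linarith
  have h6 : v ^ 6 ≤ v ^ 4 := by
    have h7 : v ^ 2 ≤ 1 := by nlinarith
    have := mul_le_mul_of_nonneg_left h7 h4
    calc v ^ 6 = v ^ 4 * v ^ 2 := by ring
      _ ≤ _ := by linarith
  nlinarith

/-- data for the rows of a leading part -/
structure MDat where
  Mb : List (List ℚ)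
  al : List (List ℚ)
  be : List (List ℚ)
  C : List (List (List ℚ))
  A : List (List (List ℚ))
  dl : List (List ℚ)
  t0 : ℚ
  s0 : ℚ
  t1 : ℚ
  s1 : ℚ

/-- the data of level 1/2 -/
structure GDat where
  cap : ℕ
  U : ℚ
  yb : List ℚ
  F : List (List ℚ)
  Pi : List (List (List ℚ))
  ps : List (List ℚ)
  h1 : List ℚ
  aB : List (List ℚ)
  bB : List (List ℚ)
  B : List (List ℚ)
  aP : Bool → List (List ℚ)
  bP : Bool → List (List ℚ)
  Pb : Bool → List (List ℚ)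
  m : MDat
  mR : MDat
  zp : Bool → List (List ℚ)
  zm : Bool → List (List ℚ)
  sf : List ℚ
  Sm : Bool → List ℚ
  Sz : Bool → List ℚ
  Sp : Bool → List ℚ
  c : Bool → List ℚ
  jp : Bool → List ℚ
  jm : Bool → List ℚ

namespace GDat

variable (d : GDat)

/-! ### expressions: `gW` is `k`, `gZ` is `κ`, `gX` is `l` or `y / (1 - κ)` -/

def u : E := qc d.U * gT
def f (k : E) : E := pe2 d.F k d.u
def P (k l : E) : E := pe3 d.Pi k l d.u
def h1e (k : E) : E := pe d.h1 k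
def he (i : Bool) (k : E) : E := if i then 1 else (1 - k) * d.h1e k
def e1 (l : List ℚ) : E := pe l d.u
def e2 (l : List (List ℚ)) (k : E) : E := pe2 l k d.u
def e3 (l : List (List (List ℚ))) (a b : E) : E := pe3 l a b d.u
def eKe : E := if d.cap = 1 then 1 else 1 - gW
def gKe : E := if d.cap = 1 then 1 else 2 - gW
def y : E := gX * (1 - gZ)
def v : E := gW * d.u + (1 - gW) * pe d.yb d.u

def nex : E := d.f gW - (1 + d.v * (1 + d.v * E.num 1 2 + d.v ^ 2 * E.num 1 6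
  + d.v ^ 3 * E.num 1 19))
def nv1 : E := 1 - d.v
def noPi : E := 1 + d.e3 (dd3 d.Pi) gW gZ - d.f gW * d.f gZ
def nops : E := 1 + d.e2 (dd2 d.ps) gW - d.f gW

/-- the polynomial of a one step linear program: `φ` at `κ` minus `φ` at `0` -/
def nlp (al be : List (List ℚ)) (φ φ0 : E) : E :=
  d.e2 al gW * y + d.eKe * d.e2 be gW * gZ - y * (φ - φ0)
def nlw (al be W : List (List ℚ)) (φ0 : E) : E :=
  d.e2 W gW - (φ0 + d.e2 al gW + d.gKe * d.e2 be gW)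

def nB2 : E := d.nlp d.aB d.bB (d.f gZ) (d.f 0)
def nB1 : E := d.nlw d.aB d.bB d.B (d.f 0)
def nP2 (i : Bool) : E := d.nlp (d.aP i) (d.bP i) (d.P gW gZ * d.he i gZ) (d.P gW 0 * d.he i 0)
def nP1 (i : Bool) : E := d.nlw (d.aP i) (d.bP i) (d.Pb i) (d.P gW 0 * d.he i 0)

/-! the rows of the leading parts of `gm`; `s` says whether the direct part is present -/

def psE (s : Bool) (k : E) : E := if s then d.e2 d.ps k else 0
def nH1 (m : MDat) (s : Bool) : E :=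
  d.e3 m.C gZ gW + d.e3 m.A gZ gW * d.u * d.e2 m.dl gX
    - (d.psE s gX + (d.f gW * d.f gZ * d.P gZ gX + d.P gW gZ * (d.f gZ * d.f gX)))
def Qe (m : MDat) : E := if d.cap = 1 then
    y * d.e3 m.C gZ gW + d.u ^ 2 * (qc m.t0 * y ^ 2) * d.e3 m.A gZ gW ^ 2 * E.num 1 2
  else y * d.e3 m.C gZ gW + d.u ^ 2 * ((1 - gW) * (qc m.t0 * y ^ 2) + gW * (qc m.t1 * y))
    * d.e3 m.A gZ gW ^ 2 * E.num 1 2
def Re (m : MDat) : E := if d.cap = 1 then
    d.e2 m.dl gZ ^ 2 * qc m.s0 * E.num 1 2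
  else d.e2 m.dl gZ ^ 2 * ((1 - gW) * qc m.s0 + gW * (1 - gW) * qc m.s1) * E.num 1 2
def nH2 (m : MDat) (s : Bool) : E :=
  d.e2 m.al gW * y + d.eKe * d.e2 m.be gW * gZ
    - (y * ((1 - gW) * d.psE s gZ + y * d.psE s gW) + (d.Qe m + d.Re m) * (1 - gZ - y))
def nM1 (m : MDat) : E := d.e2 (dd2 m.Mb) gW - (d.e2 m.al gW + d.gKe * d.e2 m.be gW)

structure MPos (m : MDat) (s : Bool) : Prop where
  H1 : NG (d.nH1 m s)
  H2 : NG (d.nH2 m s)
  M1 : NG (d.nM1 m)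
  Mb : NG (d.e2 m.Mb gW)
  al : NG (d.e2 m.al gW)
  be : NG (d.e2 m.be gW)
  C : NG (d.e3 m.C gZ gW)
  t0 : 0 ≤ m.t0
  s0 : 0 ≤ m.s0
  t1 : 0 ≤ m.t1
  s1 : 0 ≤ m.s1
  ts0 : 1 ≤ m.t0 * m.s0
  ts1 : 1 ≤ m.t1 * m.s1

/-! remainders -/

def R (l : List (List ℚ)) (l' : List (List ℚ)) : E := d.e2 l gW + d.e2 l' gW
def nsf : E := d.e1 d.sf - d.f gW * ((1 - gW) * d.h1e gW)
def nSm (i : Bool) : E := d.e1 (d.Sm i) - d.f gW * ((1 - gW) * d.R d.m.Mb (d.zm i))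
def nSz (i : Bool) : E := d.e1 (d.Sz i) - d.f gW * ((1 - gW) * d.e2 (d.zp i) gW)
def nSp (i : Bool) : E := d.e1 (d.Sp i) - d.f gW * ((1 - gW) * d.R (d.Pb i) (d.zp i))
def nc1 : E := d.e1 (d.c true) * d.h1e gW - d.f gW * d.e2 d.B gW
def nc2 : E := d.e1 (d.c false) * d.h1e gW - d.f gW * d.e1 d.sf
def njp (i : Bool) : E := d.e1 (d.jp i) * d.h1e gW
  - d.f gW * (d.e2 d.B gW * ((1 - gW) * d.R (d.Pb i) (d.zp i)) + d.e1 (d.Sp i))
def njm (i : Bool) : E := d.e1 (d.jm i) * d.h1e gW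
  - d.f gW * (d.e2 d.B gW * ((1 - gW) * d.R d.m.Mb (d.zm i)) + d.e1 (d.Sm i))
def nop (i : Bool) : E := d.e2 (dd2 (d.zp i)) gW - (d.f gW * d.e1 (d.Sm i)
  + (d.e1 (d.c i) + d.e1 (d.jm i)) * d.R d.m.Mb (d.zm false)
  + d.e1 (d.jp i) * d.R (d.Pb false) (d.zp false))
def nom (i : Bool) : E := d.e2 (dd2 (d.zm i)) gW - (d.f gW * d.e1 (d.Sz i)
  + d.e1 (d.c i) * d.e2 (d.zp false) gW
  + d.e1 (d.jp i) * d.R d.m.Mb (d.zm false)
  + d.e1 (d.jm i) * d.R (d.Pb false) (d.zp false))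

structure Pos : Prop where
  hcap : d.cap = 1 ∨ d.cap = 2
  U0 : 0 < d.U
  yb : NG (pe d.yb d.u)
  ex : NG d.nex
  v1 : NG d.nv1
  oPi : NG d.noPi
  Pi : NG (d.P gW gZ)
  ops : NG d.nops
  ps : NG (d.e2 d.ps gW)
  h1 : NG (d.h1e gW)
  hle : NG (1 - (1 - gW) * d.h1e gW)
  aB : NG (d.e2 d.aB gW)
  bB : NG (d.e2 d.bB gW)
  B2 : NG d.nB2
  B1 : NG d.nB1
  aP : ∀ i, NG (d.e2 (d.aP i) gW)
  bP : ∀ i, NG (d.e2 (d.bP i) gW)
  P2 : ∀ i, NG (d.nP2 i)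
  P1 : ∀ i, NG (d.nP1 i)
  m : d.MPos d.m true
  mR : d.MPos d.mR false
  zp : ∀ i, NG (d.e2 (d.zp i) gW)
  zm : ∀ i, NG (d.e2 (d.zm i) gW)
  sf : NG d.nsf
  Sm : ∀ i, NG (d.nSm i)
  Sz : ∀ i, NG (d.nSz i)
  Sp : ∀ i, NG (d.nSp i)
  c1 : NG d.nc1
  c2 : NG d.nc2
  c : ∀ i, NG (d.e1 (d.c i))
  jp : ∀ i, NG (d.njp i)
  jm : ∀ i, NG (d.njm i)
  jp0 : ∀ i, NG (d.e1 (d.jp i))
  jm0 : ∀ i, NG (d.e1 (d.jm i))
  op : ∀ i, NG (d.nop i)
  om : ∀ i, NG (d.nom i)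

/-! ### the real functions -/

noncomputable def mf (m : MDat) : Mf where
  Mb k u := pv2 m.Mb k u
  Mb' k u := pv2 (dd2 m.Mb) k u
  al k u := pv2 m.al k u
  be k u := pv2 m.be k u
  Q y κ k u := if d.cap = 1 then
      y * pv3 m.C κ k u + u ^ 2 * (m.t0 * y ^ 2) * pv3 m.A κ k u ^ 2 * (1 / 2)
    else y * pv3 m.C κ k u + u ^ 2 * ((1 - k) * (m.t0 * y ^ 2) + k * (m.t1 * y))
      * pv3 m.A κ k u ^ 2 * (1 / 2)
  R l k u := if d.cap = 1 then pv2 m.dl l u ^ 2 * m.s0 * (1 / 2)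
    else pv2 m.dl l u ^ 2 * ((1 - k) * m.s0 + k * (1 - k) * m.s1) * (1 / 2)

noncomputable def cb : Cb where
  U := d.U
  Yb := pv d.yb
  f k u := pv2 d.F k u
  Pi k l u := pv3 d.Pi k l u
  Pi' k l u := pv3 (dd3 d.Pi) k l u
  ps k u := pv2 d.ps k u
  ps' k u := pv2 (dd2 d.ps) k u

noncomputable def ct : Ct where
  b := d.cb
  h1 := pv d.h1
  B k u := pv2 d.B k u
  Pb i k u := pv2 (d.Pb i) k u
  m := d.mf d.m
  mR := d.mf d.mR
  zp i k u := pv2 (d.zp i) k u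
  zp' i k u := pv2 (dd2 (d.zp i)) k u
  zm i k u := pv2 (d.zm i) k u
  zm' i k u := pv2 (dd2 (d.zm i)) k u
  sf := pv d.sf
  Sm i := pv (d.Sm i)
  Sz i := pv (d.Sz i)
  Sp i := pv (d.Sp i)
  c i := pv (d.c i)
  jp i := pv (d.jp i)
  jm i := pv (d.jm i)

end GDat

end Pool.Agent.RX.RCM9.G
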