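import Pool.Agent.RX.RCM.NuRc
import Pool.Agent.RX.RCM9.DatY

/-! Level 0 of the cells with rational polynomials. -/

set_option autoImplicit false

namespace Pool.Agent.RX.RCM9

open Set Bern Pk Pool.Agent.RX.RCN.K

namespace YDat

variable {y : YDat} {z : HDat} {d : Dat}
variable {V : Type*} [Fintype V] [DecidableEq V]

/-- the clocks of the world of `a` (time `t`) and the others (time `s`) -/
noncomputable def th2 (y : YDat) (z : HDat) (a : V) (t s : ℝ) (w : V) (r : ℝ) : ℝ :=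
  if w = a then z.Th t r else y.tb z t s r

variable (y z) in
/-- level 0 of the world of `a` (time `t`) and `b` (time `s ≤ sg`) -/
noncomputable def lz2 (x : V → V → ℝ) (P : V → Prop) [DecidablePred P] (a b : V) (sg τ : ℝ) :
    Lz V :=
  lz z.hz x P {a, b} (y.th2 z a) (fun t _ r => y.Y t r) (y.th2 z a τ sg) (y.Y τ) τ

theorem cTh (t : ℝ) {S : Set ℝ} : ContinuousOn (fun r => z.Th t r) S :=
  ((cont_Th (z := z)).comp (continuous_const.prodMk continuous_id)).continuousOn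

theorem ctb (t s : ℝ) {S : Set ℝ} : ContinuousOn (fun r => y.tb z t s r) S :=
  ((cont_tb (y := y) (z := z)).comp
    (continuous_const.prodMk (continuous_const.prodMk continuous_id))).continuousOn

theorem Pos.oN2 (h : y.Pos z) (hz : z.Pos d) {t r θa θb : ℝ} (hr : 0 ≤ r) (hrt : r ≤ t)
    (ht : t ≤ RCN.bt) (ha : θa ≤ z.Th t r) (hb : θb ≤ z.Th t r) :
    pv z.mb r * (Real.exp (θa / 2 + θb / 6 + y.Y t r / 3) - 1) ≤ -y.N' t r := by
  refine le_trans (mul_le_mul_of_nonneg_left (sub_le_sub_right (Real.exp_le_exp.2 ?_) 1)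
    (zero_le_one.trans (hz.mb_one ⟨hr, hrt.trans ht⟩))) (h.oN hz hr hrt ht)
  linarith

theorem Pos.oN1 (h : y.Pos z) (hz : z.Pos d) {t r : ℝ} (hr : 0 ≤ r) (hrt : r ≤ t)
    (ht : t ≤ RCN.bt) :
    pv z.mb r * (Real.exp (z.Th t r / 2 + y.Y t r / 2) - 1) ≤ -y.N' t r := by
  refine le_trans (mul_le_mul_of_nonneg_left (sub_le_sub_right (Real.exp_le_exp.2 ?_) 1)
    (zero_le_one.trans (hz.mb_one ⟨hr, hrt.trans ht⟩))) (h.oN hz hr hrt ht)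
  linarith [h.YTh hr hrt ht]

variable {x : V → V → ℝ} {P : V → Prop} [DecidablePred P] {a b : V} {sg α τ : ℝ}

theorem sy2 (h : y.Pos z) (hz : z.Pos d) (hd : d.Pos) (hx : Pool.Agent.RX.RCG.Ct.Wt x P 1)
    (hab : a ≠ b) {t s : ℝ} (ht : t ∈ Icc (0 : ℝ) RCN.bt) (hs : s ∈ Icc 0 t) :
    Sy z.hz x P {a, b} (pv z.mb) t (y.th2 z a t s) (y.Y t) := by
  have ea : y.th2 z a t s a = fun r => z.Th t r := by funext r; unfold th2; rw [if_pos rfl]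
  have eb : y.th2 z a t s b = fun r => y.tb z t s r := by
    funext r; unfold th2; rw [if_neg hab.symm]
  refine sy_two (Y' := y.Y' t) (N := y.N t) (N' := y.N' t) (hz.ok hd) hx hab ht
    (fun _ hy _ hs => hz.rr_mb hy hs) (fun _ hs => hz.mb_one hs)
    (by rw [ea]; exact cTh t) (by rw [eb]; exact ctb t s) (fun r hr => ?_) (fun r hr => ?_)
    (fun r hr => ?_) (fun r _ => hasDerivAt_Y t r) (fun r _ => hasDerivAt_N t r)
    (fun r hr => h.Y0 hr.1 hr.2 ht.2) (fun r hr => h.N0 hr.1 hr.2 ht.2)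
    (fun r hr => h.N1 hr.1 hr.2 ht.2) (fun r hr => h.oY hr.1 hr.2 ht.2) (fun r hr => ?_)
  · rw [eb]; exact h.Y_tb t s r
  · rw [ea, eb]; exact h.tb_le hz hs.1 hs.2 hr.1 hr.2 le_rfl ht.2
  · rw [ea]; exact h.Th2 hr.1 hr.2 ht.2
  · rw [ea, eb]
    exact h.oN2 hz hr.1 hr.2 ht.2 le_rfl (h.tb_le hz hs.1 hs.2 hr.1 hr.2 le_rfl ht.2)

theorem cY3 : C3 α τ fun t _ r => y.Y t r := by
  unfold C3
  exact ((cont_Y (y := y)).comp (continuous_fst.prodMk continuous_snd.snd)).continuousOn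

theorem cTh3 : C3 α τ fun t _ r => z.Th t r := by
  unfold C3
  exact ((cont_Th (z := z)).comp (continuous_fst.prodMk continuous_snd.snd)).continuousOn

theorem ctb3 : C3 α τ fun t s r => y.tb z t s r := by
  unfold C3
  exact (cont_tb (y := y) (z := z)).continuousOn

/-- the clock of `b` grows with both times -/
theorem Pos.tb_mono (h : y.Pos z) (hz : z.Pos d) {t s r : ℝ} (s0 : 0 ≤ s) (hst : s ≤ t)
    (hsg : s ≤ sg) (sgτ : sg ≤ τ) (htτ : t ≤ τ) (τ1 : τ ≤ RCN.bt) (r0 : 0 ≤ r) (hrt : r ≤ t) :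
    y.tb z t s r ≤ y.tb z τ sg r := by
  unfold tb
  refine max_le ?_ ((h.Y_mono r0 hrt htτ τ1).trans (le_max_right _ _))
  refine le_trans ?_ (le_max_left _ _)
  have T0 : ∀ {u v : ℝ}, 0 ≤ u → u ≤ v → v ≤ RCN.bt → 0 ≤ z.Th v u := fun h0 h1 h2 =>
    (h.Y0 h0 h1 h2).trans (h.YTh h0 h1 h2)
  rcases le_total r s with h1 | h1
  · rw [min_eq_left h1, min_eq_left (h1.trans hsg)]
    exact h.Th_mono r0 h1 hsg (sgτ.trans τ1)
  · rw [min_eq_right h1]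
    have e : z.Th s s = 0 := by
      unfold HDat.Th
      simp
    rw [e]
    exact T0 (le_min r0 (s0.trans hsg)) (min_le_right _ _) (sgτ.trans τ1)

/-- **level 0 of the world of `a`, `b`** -/
theorem lz2_okN (h : y.Pos z) (hz : z.Pos d) (hd : d.Pos) (hx : Pool.Agent.RX.RCG.Ct.Wt x P 1)
    (hab : a ≠ b) (α0 : 0 ≤ α) (ατ : α ≤ τ) (τ1 : τ ≤ RCN.bt) (sg0 : 0 ≤ sg) (sgτ : sg ≤ τ) :
    (y.lz2 z x P a b sg τ).OkN z.hz x P {a} {a, b} sg α τ := by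
  refine lz_okN (mb := pv z.mb) hx (by simp) α0 ατ τ1 sg0 sgτ
    (fun t ht s hs => sy2 h hz hd hx hab ⟨α0.trans ht.1, ht.2.trans τ1⟩ hs)
    (sy2 h hz hd hx hab ⟨α0.trans ατ, τ1⟩ ⟨sg0, sgτ⟩) (fun t ht s hs hsg w hw r hr => ?_)
    (fun t ht s hs r hr => h.Y_mono hr.1 hr.2 ht.2 τ1) (fun t ht s hs w hw r hr => ?_)
    (fun t ht s hs w hw hA r hr => ?_)
  · unfold th2
    split_ifs
    · exact h.Th_mono hr.1 hr.2 ht.2 τ1
    · exact h.tb_mono hz hs.1 hs.2 hsg sgτ ht.2 τ1 hr.1 hr.2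
  · refine Pos.clt (z := z) hz hd hr.1 hr.2 (ht.2.trans τ1) (le_of_eq ?_)
    unfold th2
    rw [if_pos (Finset.mem_singleton.1 hw)]
  · refine Pos.clt (z := z) hz hd hr.1 hr.2 (hs.2.trans (ht.2.trans τ1)) ?_
    unfold th2
    rw [if_neg fun e => hA (Finset.mem_singleton.2 e)]
    exact h.Th_tb hr.2

theorem lz2_c3 (hz : z.Pos d) (hd : d.Pos) (hx : Pool.Agent.RX.RCG.Ct.Wt x P 1) (α0 : 0 ≤ α)
    (ατ : α ≤ τ) (τ1 : τ ≤ RCN.bt) (e : V) :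
    C3 α τ fun t s r => (y.lz2 z x P a b sg τ).y2 t s e r := by
  unfold lz2
  refine lz_c3 (hz.ok hd) hx α0 ατ τ1 (fun w hw => ?_) cY3 e
  unfold th2
  split_ifs
  · exact cTh3
  · exact ctb3

theorem lz2_n2 (hz : z.Pos d) (hd : d.Pos) (hx : Pool.Agent.RX.RCG.Ct.Wt x P 1) (α0 : 0 ≤ α)
    (ατ : α ≤ τ) (τ1 : τ ≤ RCN.bt) (e : V) :
    C3 α τ fun t s r => (y.lz2 z x P a b sg τ).n2 t s e r := by
  unfold lz2
  refine lz_n2c3 (hz.ok hd) hx α0 ατ τ1 (fun w hw => ?_) cY3 e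
  unfold th2
  split_ifs
  · exact cTh3
  · exact ctb3

theorem lz2_y1 (h : y.Pos z) (hz : z.Pos d) (hd : d.Pos) (hx : Pool.Agent.RX.RCG.Ct.Wt x P 1)
    (hab : a ≠ b) (hτ : τ ∈ Icc (0 : ℝ) RCN.bt) (sg0 : 0 ≤ sg) (sgτ : sg ≤ τ) (e : V) :
    ContinuousOn ((y.lz2 z x P a b sg τ).y1 e) (Icc 0 τ) :=
  lz_y1 hx hτ.1 (sy2 h hz hd hx hab hτ ⟨sg0, sgτ⟩) e

theorem sy1 (h : y.Pos z) (hz : z.Pos d) (hd : d.Pos) (hx : Pool.Agent.RX.RCG.Ct.Wt x P 1)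
    {t : ℝ} (ht : t ∈ Icc (0 : ℝ) RCN.bt) :
    Sy z.hz x P {a} (pv z.mb) t (fun _ r => z.Th t r) (y.Y t) :=
  sy_one (Y' := y.Y' t) (N := y.N t) (N' := y.N' t) (hz.ok hd) hx ht
    (fun _ hy _ hs => hz.rr_mb hy hs) (fun _ hs => hz.mb_one hs) (cTh t)
    (fun r hr => h.YTh hr.1 hr.2 ht.2)
    (fun r hr => h.Th2 hr.1 hr.2 ht.2) (fun r _ => hasDerivAt_Y t r)
    (fun r _ => hasDerivAt_N t r) (fun r hr => h.Y0 hr.1 hr.2 ht.2)
    (fun r hr => h.N0 hr.1 hr.2 ht.2) (fun r hr => h.N1 hr.1 hr.2 ht.2)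
    (fun r hr => h.oY hr.1 hr.2 ht.2) (fun r hr => h.oN1 hz hr.1 hr.2 ht.2)

end YDat

end Pool.Agent.RX.RCM9
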