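import Mathlib

/-! Packed arrays of natural numbers (fields of `K` bits in one natural number). -/

set_option autoImplicit false

namespace Pool.Agent.RX.RCM9.Pk

open Finset

/-- the packed number -/
def pk (K M : ℕ) (a : ℕ → ℕ) : ℕ := ∑ p ∈ range M, a p * 2 ^ (K * p)

theorem pk_congr {K M : ℕ} {a b : ℕ → ℕ} (h : ∀ p < M, a p = b p) : pk K M a = pk K M b :=
  Finset.sum_congr rfl fun p hp => by rw [h p (mem_range.1 hp)]

theorem pk_succ (K M : ℕ) (a : ℕ → ℕ) : pk K (M + 1) a = pk K M a + a M * 2 ^ (K * M) := by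
  unfold pk
  rw [Finset.sum_range_succ]

theorem pk_lt {K M : ℕ} {a : ℕ → ℕ} (h : ∀ p < M, a p < 2 ^ K) : pk K M a < 2 ^ (K * M) := by
  induction M with
  | zero => simp [pk]
  | succ M ih =>
    rw [pk_succ]
    have h1 := ih fun p hp => h p (Nat.lt_succ_of_lt hp)
    have h2 : a M + 1 ≤ 2 ^ K := h M (Nat.lt_succ_self M)
    have h3 : 2 ^ (K * (M + 1)) = 2 ^ K * 2 ^ (K * M) := by rw [← pow_add]; ring_nf
    have h4 := Nat.mul_le_mul_right (2 ^ (K * M)) h2
    rw [h3]
    nlinarith

theorem pk_add_len (K m n : ℕ) (a : ℕ → ℕ) : pk K (m + n) a = pk K m a + 2 ^ (K * m) * pk K n (fun p => a (m + p)) := by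
  unfold pk
  rw [Finset.sum_range_add, Finset.mul_sum]
  congr 1
  refine Finset.sum_congr rfl fun p _ => ?_
  rw [Nat.mul_add, pow_add]
  ring

theorem pk_div {K m n : ℕ} {a : ℕ → ℕ} (h : ∀ p < m, a p < 2 ^ K) :
    pk K (m + n) a / 2 ^ (K * m) = pk K n (fun p => a (m + p)) := by
  rw [pk_add_len, Nat.add_mul_div_left _ _ (by positivity), Nat.div_eq_of_lt (pk_lt h), zero_add]

theorem pk_head (K n : ℕ) (a : ℕ → ℕ) : pk K (1 + n) a = a 0 + 2 ^ K * pk K n (fun p => a (1 + p)) := by
  rw [pk_add_len]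
  simp [pk]

theorem pk_dig {K M : ℕ} {a : ℕ → ℕ} (h : ∀ p < M, a p < 2 ^ K) {p : ℕ} (hp : p < M) :
    pk K M a / 2 ^ (K * p) % 2 ^ K = a p := by
  obtain ⟨n, rfl⟩ := Nat.exists_eq_add_of_lt hp
  rw [show p + n + 1 = p + (1 + n) by ring, pk_div fun q hq => h q (by omega), pk_head]
  rw [Nat.add_mul_mod_self_left, Nat.mod_eq_of_lt (by simpa using h p hp)]
  simp

theorem pk_inj {K M : ℕ} {a b : ℕ → ℕ} (ha : ∀ p < M, a p < 2 ^ K) (hb : ∀ p < M, b p < 2 ^ K)
    (h : pk K M a = pk K M b) : ∀ p < M, a p = b p := by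
  intro p hp
  rw [← pk_dig ha hp, ← pk_dig hb hp, h]

theorem pk_digits (K M N : ℕ) : pk K M (fun p => N / 2 ^ (K * p) % 2 ^ K) = N % 2 ^ (K * M) := by
  induction M with
  | zero => simp [pk, Nat.mod_one]
  | succ M ih =>
    rw [pk_succ, ih]
    have h1 : 2 ^ (K * (M + 1)) = 2 ^ (K * M) * 2 ^ K := by rw [← pow_add]; ring_nf
    rw [h1, Nat.mod_mul]
    ring

theorem testBit_pk {K M : ℕ} {a : ℕ → ℕ} (h : ∀ p < M, a p < 2 ^ K) (p r : ℕ) (hr : r < K) :
    (pk K M a).testBit (K * p + r) = (decide (p < M) && (a p).testBit r) := by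
  by_cases hp : p < M
  · have h1 := pk_dig h hp
    have h2 : (pk K M a / 2 ^ (K * p) % 2 ^ K).testBit r = (a p).testBit r := by rw [h1]
    rw [Nat.testBit_mod_two_pow, Nat.testBit_div_two_pow] at h2
    simp only [hr, decide_true, Bool.true_and] at h2
    simp only [hp, decide_true, Bool.true_and]
    rw [← h2, Nat.add_comm]
  · have h1 : pk K M a < 2 ^ (K * p + r) := by
      refine (pk_lt h).trans_le (Nat.pow_le_pow_right (by norm_num) ?_)
      have : K * M ≤ K * p := Nat.mul_le_mul_left K (not_lt.1 hp)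
      omega
    rw [Nat.testBit_lt_two_pow h1]
    simp [hp]

theorem pk_land {K M : ℕ} (hK : 0 < K) {a : ℕ → ℕ} (h : ∀ p < M, a p < 2 ^ K) (S : ℕ → Prop) [DecidablePred S] :
    pk K M a &&& pk K M (fun p => if S p then 2 ^ K - 1 else 0) = pk K M (fun p => if S p then a p else 0) := by
  have hpos : 0 < 2 ^ K := by positivity
  have h2 : ∀ p < M, (fun p => if S p then 2 ^ K - 1 else 0) p < 2 ^ K := by
    intro p _
    show (if S p then 2 ^ K - 1 else 0) < 2 ^ K
    split_ifs <;> omega
  have h3 : ∀ p < M, (fun p => if S p then a p else 0) p < 2 ^ K := by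
    intro p hp
    show (if S p then a p else 0) < 2 ^ K
    split_ifs
    · exact h p hp
    · exact hpos
  refine Nat.eq_of_testBit_eq fun i => ?_
  have hi : i = K * (i / K) + i % K := (Nat.div_add_mod i K).symm
  have hr : i % K < K := Nat.mod_lt _ hK
  rw [hi, Nat.testBit_and, testBit_pk h _ _ hr, testBit_pk h2 _ _ hr, testBit_pk h3 _ _ hr]
  by_cases hS : S (i / K)
  · simp only [hS, if_true]
    rw [Nat.testBit_two_pow_sub_one]
    simp only [hr, decide_true, Bool.and_true]
    cases decide (i / K < M) <;> simp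
  · simp [hS]

/-- the representation: `a` vanishes outside and the digits are at most `bd` -/
structure Rep (K M N bd : ℕ) (a : ℕ → ℕ) : Prop where
  eq : N = pk K M a
  le : ∀ p, a p ≤ bd
  out : ∀ p, M ≤ p → a p = 0

theorem Rep.shift {K M N bd : ℕ} {a : ℕ → ℕ} (h : Rep K M N bd a) (hbd : bd < 2 ^ K) (q : ℕ) :
    Rep K M (N >>> (K * q)) bd (fun p => a (p + q)) := by
  refine ⟨?_, fun p => h.le _, fun p hp => h.out _ (by omega)⟩
  rw [Nat.shiftRight_eq_div_pow, h.eq]
  have h1 : pk K M a = pk K (q + M) a := by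
    rw [Nat.add_comm, pk_add_len]
    have : pk K q (fun p => a (M + p)) = 0 := Finset.sum_eq_zero fun p _ => by
      show a (M + p) * 2 ^ (K * p) = 0
      rw [h.out _ (by omega), Nat.zero_mul]
    rw [this]
    simp
  rw [h1, pk_div fun p _ => (h.le p).trans_lt hbd]
  exact pk_congr fun p _ => by rw [Nat.add_comm]

theorem Rep.land {K M N bd : ℕ} {a : ℕ → ℕ} (hK : 0 < K) (h : Rep K M N bd a) (hbd : bd < 2 ^ K) (S : ℕ → Prop) [DecidablePred S] :
    Rep K M (N &&& pk K M (fun p => if S p then 2 ^ K - 1 else 0)) bd (fun p => if S p then a p else 0) := by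
  refine ⟨?_, fun p => ?_, fun p hp => ?_⟩
  · rw [h.eq, pk_land hK fun p _ => (h.le p).trans_lt hbd]
  · show (if S p then a p else 0) ≤ bd
    split_ifs
    · exact h.le p
    · exact Nat.zero_le _
  · show (if S p then a p else 0) = 0
    rw [h.out p hp]
    simp

theorem sum_range_mul {R : Type*} [AddCommMonoid R] (m n : ℕ) (F : ℕ → R) :
    ∑ p ∈ range (m * n), F p = ∑ i ∈ range m, ∑ j ∈ range n, F (i * n + j) := by
  induction m with
  | zero => simp
  | succ m ih => rw [Nat.succ_mul, Finset.sum_range_add, ih, Finset.sum_range_succ]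

theorem sum_range_mul3 {R : Type*} [AddCommMonoid R] (H L s : ℕ) (F : ℕ → R) :
    ∑ p ∈ range (H * L * s), F p = ∑ i ∈ range H, ∑ j ∈ range L, ∑ l ∈ range s, F ((i * L + j) * s + l) := by
  rw [sum_range_mul, sum_range_mul]

theorem dm1 {s l X : ℕ} (hl : l < s) : (X * s + l) / s = X := by
  rw [Nat.mul_comm, Nat.mul_add_div (by omega), Nat.div_eq_of_lt hl, Nat.add_zero]

theorem dm2 {s l X : ℕ} (hl : l < s) : (X * s + l) % s = l := by
  rw [Nat.mul_comm, Nat.mul_add_mod, Nat.mod_eq_of_lt hl]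

/-- the mask of the fields with coordinate zero -/
def mask (K H L s : ℕ) : ℕ := (2 ^ (K * s) - 1) * (((2 ^ (K * (L * s))) ^ H - 1) / (2 ^ (K * (L * s)) - 1))

theorem ones_mul (K s : ℕ) : ∑ l ∈ range s, (2 ^ K - 1) * 2 ^ (K * l) = 2 ^ (K * s) - 1 := by
  obtain ⟨c, hc⟩ : ∃ c, 2 ^ K = c + 1 := ⟨2 ^ K - 1, by have : 0 < 2 ^ K := by positivity
                                                        omega⟩
  induction s with
  | zero => simp
  | succ s ih =>
    rw [Finset.sum_range_succ, ih, show K * (s + 1) = K + K * s by ring, pow_add, hc]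
    have h1 : 0 < 2 ^ (K * s) := by positivity
    rw [Nat.add_sub_cancel, Nat.add_mul, Nat.one_mul]
    omega

theorem mask_eq {K H L s : ℕ} (hK : 0 < K) (hL : 0 < L) (hs : 0 < s) :
    mask K H L s = pk K (H * L * s) (fun p => if (p / s) % L = 0 then 2 ^ K - 1 else 0) := by
  have hb : 2 ≤ 2 ^ (K * (L * s)) := by
    have h1 : 1 ≤ K * (L * s) := Nat.mul_pos hK (Nat.mul_pos hL hs)
    calc 2 = 2 ^ 1 := rfl
      _ ≤ _ := Nat.pow_le_pow_right (by norm_num) h1
  unfold mask pk
  rw [sum_range_mul3, ← Nat.geomSum_eq hb, ← ones_mul, Finset.mul_sum]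
  refine Finset.sum_congr rfl fun i _ => ?_
  obtain ⟨L', rfl⟩ : ∃ L', L = L' + 1 := ⟨L - 1, by omega⟩
  rw [Finset.sum_range_succ']
  have h0 : ∑ k ∈ range L', ∑ l ∈ range s, (if ((i * (L' + 1) + (k + 1)) * s + l) / s % (L' + 1) = 0 then 2 ^ K - 1 else 0) *
      2 ^ (K * ((i * (L' + 1) + (k + 1)) * s + l)) = 0 := by
    refine Finset.sum_eq_zero fun k hk => Finset.sum_eq_zero fun l hl => ?_
    rw [dm1 (mem_range.1 hl), dm2 (by have := mem_range.1 hk; omega)]
    simp
  rw [h0, zero_add, Finset.sum_mul]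
  refine Finset.sum_congr rfl fun l hl => ?_
  beta_reduce
  rw [dm1 (mem_range.1 hl), dm2 (by omega)]
  simp only [if_true]
  rw [← pow_mul, mul_assoc, ← pow_add]
  congr 2
  ring

/-- the top bits of all fields -/
def top (K M : ℕ) : ℕ := 2 ^ (K - 1) * (((2 ^ K) ^ M - 1) / (2 ^ K - 1))

theorem top_eq {K : ℕ} (hK : 0 < K) (M : ℕ) : top K M = pk K M (fun _ => 2 ^ (K - 1)) := by
  have hb : 2 ≤ 2 ^ K := by
    calc 2 = 2 ^ 1 := rfl
      _ ≤ _ := Nat.pow_le_pow_right (by norm_num) hK
  unfold top pk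
  rw [← Nat.geomSum_eq hb, Finset.mul_sum]
  refine Finset.sum_congr rfl fun l _ => ?_
  rw [pow_mul]

/-- comparison of packed numbers -/
def leP (K M N₁ N₂ : ℕ) : Bool := Nat.ble N₁ N₂ && Nat.beq ((N₂ - N₁) &&& top K M) 0

theorem leP_le {K M N₁ N₂ bd : ℕ} (hK : 0 < K) {a b : ℕ → ℕ} (ha : Rep K M N₁ bd a) (hb : Rep K M N₂ bd b)
    (hbd : bd < 2 ^ (K - 1)) (h : leP K M N₁ N₂ = true) : ∀ p, a p ≤ b p := by
  simp only [leP, Bool.and_eq_true] at h
  have h1 : N₁ ≤ N₂ := Nat.le_of_ble_eq_true h.1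
  have h2 : (N₂ - N₁) &&& top K M = 0 := Nat.eq_of_beq_eq_true h.2
  have hK2 : 2 ^ K = 2 * 2 ^ (K - 1) := by
    rw [← pow_succ']
    congr 1
    omega
  have hbd' : bd < 2 ^ K := by omega
  have hN2 : N₂ < 2 ^ (K * M) := by
    rw [hb.eq]
    exact pk_lt fun p _ => (hb.le p).trans_lt hbd'
  set R := N₂ - N₁ with hR
  have hRlt : R < 2 ^ (K * M) := lt_of_le_of_lt (Nat.sub_le _ _) hN2
  set r : ℕ → ℕ := fun p => R / 2 ^ (K * p) % 2 ^ K with hr
  have hrK : ∀ p < M, r p < 2 ^ K := fun p _ => Nat.mod_lt _ (by positivity)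
  have hRr : R = pk K M r := by rw [hr, pk_digits, Nat.mod_eq_of_lt hRlt]
  have hr2 : ∀ p < M, r p < 2 ^ (K - 1) := by
    intro p hp
    have h3 : (R &&& top K M).testBit (K * p + (K - 1)) = false := by rw [h2]; simp
    rw [Nat.testBit_and, hRr, testBit_pk hrK p (K - 1) (by omega), top_eq hK,
      testBit_pk (a := fun _ => 2 ^ (K - 1)) (fun q _ => by show 2 ^ (K - 1) < 2 ^ K; omega) p (K - 1) (by omega)] at h3
    simp only [hp, decide_true, Bool.true_and, Nat.testBit_two_pow_self, Bool.and_true] at h3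
    by_contra h4
    rw [not_lt] at h4
    have h5 : (r p).testBit (K - 1) = true := by
      have h6 : r p / 2 ^ (K - 1) = 1 := by
        have h7 := hrK p hp
        rw [hK2] at h7
        exact Nat.div_eq_of_lt_le (by omega) (by omega)
      rw [Nat.testBit_eq_decide_div_mod_eq, h6]
      simp
    rw [h5] at h3
    exact absurd h3 (by simp)
  have h4 : pk K M b = pk K M (fun p => a p + r p) := by
    rw [← hb.eq]
    have h5 : pk K M (fun p => a p + r p) = pk K M a + pk K M r := by
      unfold pk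
      rw [← Finset.sum_add_distrib]
      exact Finset.sum_congr rfl fun p _ => by ring
    rw [h5, ← ha.eq, ← hRr]
    omega
  have h6 := pk_inj (fun p _ => (hb.le p).trans_lt hbd') (fun p hp => by
    show a p + r p < 2 ^ K
    have := hr2 p hp
    have := ha.le p
    omega) h4
  intro p
  by_cases hp : p < M
  · rw [h6 p hp]
    exact Nat.le_add_right _ _
  · rw [ha.out p (not_lt.1 hp)]
    exact Nat.zero_le _

/-- coefficients of products of linear forms -/
def cf : List (ℕ × ℕ) → ℕ → ℕ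
  | [], j => if j = 0 then 1 else 0
  | f :: fs, j => match j with
    | 0 => f.2 * cf fs 0
    | j + 1 => f.1 * cf fs j + f.2 * cf fs (j + 1)

theorem cf_out (fs : List (ℕ × ℕ)) {j : ℕ} (h : fs.length < j) : cf fs j = 0 := by
  induction fs generalizing j with
  | nil =>
    have h1 : j ≠ 0 := by
      simp only [List.length_nil] at h
      omega
    simp [cf, h1]
  | cons f fs ih =>
    obtain ⟨k, rfl⟩ : ∃ k, j = k + 1 := ⟨j - 1, by omega⟩
    simp only [List.length_cons] at h
    simp only [cf]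
    rw [ih (by omega), ih (by omega)]
    simp

theorem cf_eval {R : Type*} [CommSemiring R] (u v : R) (fs : List (ℕ × ℕ)) :
    ∑ j ∈ range (fs.length + 1), (cf fs j : R) * (u ^ j * v ^ (fs.length - j)) =
      (fs.map fun f => (f.1 : R) * u + (f.2 : R) * v).prod := by
  induction fs with
  | nil => simp [cf]
  | cons f fs ih =>
    rw [List.map_cons, List.prod_cons, ← ih, List.length_cons, Finset.sum_range_succ']
    simp only [cf]
    have h1 : ∑ k ∈ range (fs.length + 1), ((f.1 * cf fs k + f.2 * cf fs (k + 1) : ℕ) : R) * (u ^ (k + 1) * v ^ (fs.length + 1 - (k + 1))) =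
        (f.1 : R) * u * (∑ j ∈ range (fs.length + 1), (cf fs j : R) * (u ^ j * v ^ (fs.length - j))) +
        ∑ k ∈ range (fs.length + 1), (f.2 : R) * (cf fs (k + 1) : R) * (u ^ (k + 1) * v ^ (fs.length - k)) := by
      rw [Finset.mul_sum, ← Finset.sum_add_distrib]
      refine Finset.sum_congr rfl fun k _ => ?_
      rw [show fs.length + 1 - (k + 1) = fs.length - k by omega]
      push_cast
      ring
    have h2 : (f.2 : R) * v * (∑ j ∈ range (fs.length + 1), (cf fs j : R) * (u ^ j * v ^ (fs.length - j))) =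
        ∑ k ∈ range (fs.length + 1), (f.2 : R) * (cf fs (k + 1) : R) * (u ^ (k + 1) * v ^ (fs.length - k)) +
        (f.2 : R) * (cf fs 0 : R) * v ^ (fs.length + 1) := by
      rw [Finset.sum_range_succ', Finset.sum_range_succ]
      rw [cf_out fs (Nat.lt_succ_self _)]
      rw [mul_add, Finset.mul_sum]
      simp only [Nat.cast_zero, mul_zero, zero_mul, add_zero, Nat.sub_zero, pow_zero, one_mul]
      congr 1
      · refine Finset.sum_congr rfl fun k hk => ?_
        have hk' := mem_range.1 hk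
        rw [show fs.length - k = (fs.length - (k + 1)) + 1 by omega, pow_succ]
        ring
      · rw [pow_succ]
        ring
    rw [h1, add_mul, h2]
    push_cast
    simp only [pow_zero, one_mul]
    ring

/-- the coefficients of `(α u + β v) ^ i (γ u + δ v) ^ (d - i)` -/
def mco (α β γ δ d i : ℕ) : ℕ → ℕ := cf (List.replicate i (α, β) ++ List.replicate (d - i) (γ, δ))

theorem mco_eval {R : Type*} [CommSemiring R] (u v : R) (α β γ δ d i : ℕ) (hi : i ≤ d) :
    ∑ j ∈ range (d + 1), (mco α β γ δ d i j : R) * (u ^ j * v ^ (d - j)) =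
      ((α : R) * u + (β : R) * v) ^ i * ((γ : R) * u + (δ : R) * v) ^ (d - i) := by
  have h := cf_eval u v (List.replicate i (α, β) ++ List.replicate (d - i) (γ, δ))
  have hl : (List.replicate i (α, β) ++ List.replicate (d - i) (γ, δ)).length = d := by
    simp only [List.length_append, List.length_replicate]
    omega
  rw [hl] at h
  rw [mco, h]
  simp [List.map_append, List.prod_append, List.map_replicate, List.prod_replicate]

/-- sums by recursion (kernel friendly) -/
def opS (f : ℕ → ℕ) : ℕ → ℕ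
  | 0 => 0
  | n + 1 => Nat.add (opS f n) (f n)

theorem opS_eq (f : ℕ → ℕ) (n : ℕ) : opS f n = ∑ i ∈ range n, f i := by
  induction n with
  | zero => rfl
  | succ n ih => rw [Finset.sum_range_succ, ← ih]; rfl

/-- the linear operation in one variable -/
def op (K s m α β γ δ d N : ℕ) : ℕ :=
  opS (fun i => Nat.mul (Nat.land (Nat.shiftRight N (K * (i * s))) m) ((α * 2 ^ (K * s) + β) ^ i * (γ * 2 ^ (K * s) + δ) ^ (d - i))) (d + 1)

/-- the new coefficients -/
def opa (H L s α β γ δ : ℕ) (a : ℕ → ℕ) (p : ℕ) : ℕ :=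
  if p < H * L * s then ∑ i ∈ range L, mco α β γ δ (L - 1) i ((p / s) % L) * a ((p / s / L * L + i) * s + p % s) else 0

theorem opa_at {H L s α β γ δ : ℕ} {a : ℕ → ℕ} {h j l : ℕ} (hh : h < H) (hj : j < L) (hl : l < s) :
    opa H L s α β γ δ a ((h * L + j) * s + l) = ∑ i ∈ range L, mco α β γ δ (L - 1) i j * a ((h * L + i) * s + l) := by
  have h1 : (h * L + j) * s + l < H * L * s := by
    have e1 : h * L + j + 1 ≤ H * L := by
      have : (h + 1) * L ≤ H * L := Nat.mul_le_mul_right L hh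
      rw [Nat.succ_mul] at this
      omega
    have e2 := Nat.mul_le_mul_right s e1
    rw [Nat.add_mul, Nat.one_mul] at e2
    omega
  rw [opa, if_pos h1, dm1 hl, dm2 hj, dm1 hj, dm2 hl]

theorem Rep.op {K H L s N bd : ℕ} {a : ℕ → ℕ} (hK : 0 < K) (hL : 0 < L) (hs : 0 < s) (h : Rep K (H * L * s) N bd a)
    (hbd : bd < 2 ^ K) (α β γ δ c : ℕ) (hc1 : α + β ≤ c) (hc2 : γ + δ ≤ c) :
    Rep K (H * L * s) (op K s (mask K H L s) α β γ δ (L - 1) N) (bd * (L * c ^ (L - 1))) (opa H L s α β γ δ a) := by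
  refine ⟨?_, fun p => ?_, fun p hp => ?_⟩
  · have hsl : ∀ i, Nat.land (Nat.shiftRight N (K * (i * s))) (mask K H L s) =
        pk K (H * L * s) (fun p => if (p / s) % L = 0 then a (p + i * s) else 0) := by
      intro i
      have h1 := ((h.shift hbd (i * s)).land hK hbd (fun p => (p / s) % L = 0)).eq
      rw [← mask_eq hK hL hs] at h1
      exact h1
    have hC : ∀ i, i ∈ range L → (α * 2 ^ (K * s) + β) ^ i * (γ * 2 ^ (K * s) + δ) ^ (L - 1 - i) =
        ∑ j ∈ range L, mco α β γ δ (L - 1) i j * 2 ^ (K * (j * s)) := by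
      intro i hi
      have h1 := mco_eval (R := ℕ) (2 ^ (K * s)) 1 α β γ δ (L - 1) i (by have := mem_range.1 hi; omega)
      simp only [Nat.cast_id, mul_one, one_pow] at h1
      rw [← h1, show L - 1 + 1 = L by omega]
      refine Finset.sum_congr rfl fun j _ => ?_
      rw [← pow_mul]
      congr 2
      ring
    unfold Pk.op
    rw [opS_eq, show L - 1 + 1 = L by omega]
    have h2 : ∀ i ∈ range L, Nat.mul (Nat.land (Nat.shiftRight N (K * (i * s))) (mask K H L s))
        ((α * 2 ^ (K * s) + β) ^ i * (γ * 2 ^ (K * s) + δ) ^ (L - 1 - i)) =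
        ∑ x ∈ range H, ∑ l ∈ range s, ∑ j ∈ range L, mco α β γ δ (L - 1) i j * a ((x * L + i) * s + l) * 2 ^ (K * ((x * L + j) * s + l)) := by
      intro i hi
      rw [hsl i, hC i hi]
      show pk K (H * L * s) _ * _ = _
      unfold pk
      rw [sum_range_mul3, Finset.sum_mul]
      refine Finset.sum_congr rfl fun x _ => ?_
      rw [← Finset.add_sum_erase (range L) _ (mem_range.2 hL)]
      have h3 : ∑ j ∈ (range L).erase 0, ∑ l ∈ range s, (if ((x * L + j) * s + l) / s % L = 0 then a ((x * L + j) * s + l + i * s) else 0) *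
          2 ^ (K * ((x * L + j) * s + l)) = 0 := by
        refine Finset.sum_eq_zero fun j hj => Finset.sum_eq_zero fun l hl => ?_
        have hj' := mem_erase.1 hj
        rw [dm1 (mem_range.1 hl), dm2 (mem_range.1 hj'.2), if_neg hj'.1, Nat.zero_mul]
      rw [h3, add_zero, Finset.sum_mul]
      refine Finset.sum_congr rfl fun l hl => ?_
      beta_reduce
      rw [dm1 (mem_range.1 hl), dm2 hL, if_pos rfl, Finset.mul_sum]
      refine Finset.sum_congr rfl fun j _ => ?_
      have e1 : (x * L + 0) * s + l + i * s = (x * L + i) * s + l := by ring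
      have e2 : K * ((x * L + j) * s + l) = K * ((x * L + 0) * s + l) + K * (j * s) := by ring
      rw [e1, e2, pow_add]
      ring
    rw [Finset.sum_congr rfl h2]
    unfold pk
    rw [sum_range_mul3, Finset.sum_comm]
    refine Finset.sum_congr rfl fun x hx => ?_
    rw [Finset.sum_comm]
    have h4 : ∀ l ∈ range s, ∑ i ∈ range L, ∑ j ∈ range L, mco α β γ δ (L - 1) i j * a ((x * L + i) * s + l) * 2 ^ (K * ((x * L + j) * s + l)) =
        ∑ j ∈ range L, opa H L s α β γ δ a ((x * L + j) * s + l) * 2 ^ (K * ((x * L + j) * s + l)) := by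
      intro l hl
      rw [Finset.sum_comm]
      refine Finset.sum_congr rfl fun j hj => ?_
      rw [opa_at (mem_range.1 hx) (mem_range.1 hj) (mem_range.1 hl), Finset.sum_mul]
    rw [Finset.sum_congr rfl h4, Finset.sum_comm]
  · unfold opa
    split_ifs with hp
    · set j := (p / s) % L with hj
      have hjL : j < L := Nat.mod_lt _ hL
      calc ∑ i ∈ range L, mco α β γ δ (L - 1) i j * a ((p / s / L * L + i) * s + p % s)
          ≤ ∑ i ∈ range L, c ^ (L - 1) * bd := by
            refine Finset.sum_le_sum fun i hi => Nat.mul_le_mul ?_ (h.le _)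
            have hi' := mem_range.1 hi
            have h1 := mco_eval (R := ℕ) 1 1 α β γ δ (L - 1) i (by omega)
            simp only [Nat.cast_id, mul_one, one_pow] at h1
            rw [show L - 1 + 1 = L by omega] at h1
            have h2 : mco α β γ δ (L - 1) i j ≤ ∑ j ∈ range L, mco α β γ δ (L - 1) i j :=
              Finset.single_le_sum (f := fun j => mco α β γ δ (L - 1) i j) (fun _ _ => Nat.zero_le _) (mem_range.2 hjL)
            rw [h1] at h2
            refine h2.trans ?_
            calc (α + β) ^ i * (γ + δ) ^ (L - 1 - i) ≤ c ^ i * c ^ (L - 1 - i) :=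
                  Nat.mul_le_mul (Nat.pow_le_pow_left hc1 _) (Nat.pow_le_pow_left hc2 _)
              _ = c ^ (L - 1) := by rw [← pow_add]; congr 1; omega
        _ = bd * (L * c ^ (L - 1)) := by
            rw [Finset.sum_const, card_range, smul_eq_mul]
            ring
    · exact Nat.zero_le _
  · unfold opa
    rw [if_neg (not_lt.2 hp)]

end Pool.Agent.RX.RCM9.Pk
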