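import Pool.Agent.RX.RCM9.PkW

/-! From expressions to packed polynomials, and the final checker. -/

set_option autoImplicit false

namespace Pool.Agent.RX.RCM9.Pk

open Finset Bern

/-- powers of a difference `p.1 - p.2` -/
def powN (p : ℕ × ℕ) : ℕ → ℕ × ℕ
  | 0 => (1, 0)
  | k + 1 => (p.1 * (powN p k).1 + p.2 * (powN p k).2, p.1 * (powN p k).2 + p.2 * (powN p k).1)

def den : E → ℕ
  | .var _ => 1
  | .num _ b => b
  | .add s t => den s / Nat.gcd (den s) (den t) * den t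
  | .sub s t => den s / Nat.gcd (den s) (den t) * den t
  | .mul s t => den s * den t
  | .pow s k => den s ^ k

/-- positive and negative part of the numerator, evaluated at the bases `b` -/
def nn (b : ℕ → ℕ) : E → ℕ × ℕ
  | .var i => (b i, 0)
  | .num a _ => (a.toNat, (-a).toNat)
  | .add s t =>
    (den t / Nat.gcd (den s) (den t) * (nn b s).1 + den s / Nat.gcd (den s) (den t) * (nn b t).1,
      den t / Nat.gcd (den s) (den t) * (nn b s).2 + den s / Nat.gcd (den s) (den t) * (nn b t).2)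
  | .sub s t =>
    (den t / Nat.gcd (den s) (den t) * (nn b s).1 + den s / Nat.gcd (den s) (den t) * (nn b t).2,
      den t / Nat.gcd (den s) (den t) * (nn b s).2 + den s / Nat.gcd (den s) (den t) * (nn b t).1)
  | .mul s t => ((nn b s).1 * (nn b t).1 + (nn b s).2 * (nn b t).2, (nn b s).1 * (nn b t).2 + (nn b s).2 * (nn b t).1)
  | .pow s k => powN (nn b s) k

def degE (k : ℕ) : E → ℕ
  | .var i => if i = k then 1 else 0
  | .num _ _ => 0
  | .add s t => max (degE k s) (degE k t)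
  | .sub s t => max (degE k s) (degE k t)
  | .mul s t => degE k s + degE k t
  | .pow s n => n * degE k s

abbrev MP : Type := MvPolynomial (Fin 4) ℕ

/-- evaluation in any commutative semiring -/
noncomputable def evM {R : Type} [CommSemiring R] (g : ℕ → R) (P : MP) : R :=
  MvPolynomial.eval₂ (Nat.castRingHom R) (fun k : Fin 4 => g k) P

section
variable {R : Type} [CommSemiring R] (g : ℕ → R)

theorem evM_add (P Q : MP) : evM g (P + Q) = evM g P + evM g Q := MvPolynomial.eval₂_add _ _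
theorem evM_mul (P Q : MP) : evM g (P * Q) = evM g P * evM g Q := MvPolynomial.eval₂_mul _ _
theorem evM_C (c : ℕ) : evM g (MvPolynomial.C c) = c := by simp [evM]
theorem evM_zero : evM g 0 = 0 := by simp [evM]
theorem evM_one : evM g 1 = 1 := by simp [evM]
theorem evM_X (i : Fin 4) : evM g (MvPolynomial.X i) = g i := by simp [evM]

end

/-- what we know about the numerator of an expression -/
structure Good (e : E) (P Q : MP) : Prop where
  nnb : ∀ b : ℕ → ℕ, nn b e = (evM b P, evM b Q)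
  real : ∀ ρ : ℕ → ℝ, evM ρ P - evM ρ Q = (den e : ℝ) * e.val ρ
  degP : ∀ k : Fin 4, MvPolynomial.degreeOf k P ≤ degE k e
  degQ : ∀ k : Fin 4, MvPolynomial.degreeOf k Q ≤ degE k e
  dpos : 0 < den e

theorem deg_add_le {P Q : MP} {k : Fin 4} {m n : ℕ} (hP : MvPolynomial.degreeOf k P ≤ m) (hQ : MvPolynomial.degreeOf k Q ≤ n) :
    MvPolynomial.degreeOf k (P + Q) ≤ max m n :=
  (MvPolynomial.degreeOf_add_le k P Q).trans (max_le_max hP hQ)

theorem deg_mul_le {P Q : MP} {k : Fin 4} {m n : ℕ} (hP : MvPolynomial.degreeOf k P ≤ m) (hQ : MvPolynomial.degreeOf k Q ≤ n) :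
    MvPolynomial.degreeOf k (P * Q) ≤ m + n :=
  (MvPolynomial.degreeOf_mul_le k P Q).trans (Nat.add_le_add hP hQ)

theorem deg_C_mul {P : MP} {k : Fin 4} {m : ℕ} (c : ℕ) (hP : MvPolynomial.degreeOf k P ≤ m) :
    MvPolynomial.degreeOf k (MvPolynomial.C c * P) ≤ m := by
  have h := deg_mul_le (k := k) (P := MvPolynomial.C c) (Q := P) (m := 0) (n := m) (MvPolynomial.degreeOf_C c k).le hP
  simpa using h

theorem gcd_facts {a b : ℕ} (ha : 0 < a) (hb : 0 < b) : ∃ g x y : ℕ, 0 < x ∧ 0 < y ∧ 0 < g ∧ a = g * x ∧ b = g * y ∧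
    a / Nat.gcd a b = x ∧ b / Nat.gcd a b = y := by
  have hg : 0 < Nat.gcd a b := Nat.gcd_pos_of_pos_left _ ha
  obtain ⟨x, hx⟩ := Nat.gcd_dvd_left a b
  obtain ⟨y, hy⟩ := Nat.gcd_dvd_right a b
  refine ⟨Nat.gcd a b, x, y, ?_, ?_, hg, hx, hy, Nat.div_eq_of_eq_mul_right hg hx, Nat.div_eq_of_eq_mul_right hg hy⟩
  · rcases Nat.eq_zero_or_pos x with h0 | h0
    · rw [h0, mul_zero] at hx
      omega
    · exact h0
  · rcases Nat.eq_zero_or_pos y with h0 | h0
    · rw [h0, mul_zero] at hy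
      omega
    · exact h0

theorem good_exists (e : E) (h : e.wf 4 = true) : ∃ P Q : MP, Good e P Q := by
  induction e with
  | var i =>
    simp only [E.wf, decide_eq_true_eq] at h
    refine ⟨MvPolynomial.X ⟨i, h⟩, 0, ?_, ?_, ?_, ?_, one_pos⟩
    · intro b
      simp [nn, evM_X, evM_zero]
    · intro ρ
      simp [den, E.val, evM_X, evM_zero]
    · intro k
      simp only [degE]
      rw [MvPolynomial.degreeOf_X]
      by_cases hk : k = ⟨i, h⟩
      · subst hk; simp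
      · have : ¬ i = (k : ℕ) := fun h' => hk (Fin.ext h'.symm)
        simp [hk, this]
    · intro k
      simp
  | num a b =>
    simp only [E.wf, decide_eq_true_eq] at h
    refine ⟨MvPolynomial.C a.toNat, MvPolynomial.C (-a).toNat, ?_, ?_, ?_, ?_, h⟩
    · intro b'
      show ((a.toNat, (-a).toNat) : ℕ × ℕ) = _
      rw [evM_C, evM_C]
      rfl
    · intro ρ
      have hb : (b : ℝ) ≠ 0 := by exact_mod_cast h.ne'
      rw [evM_C, evM_C]
      simp only [den, E.val]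
      have h1 : ((a.toNat : ℤ) : ℝ) - (((-a).toNat : ℤ) : ℝ) = (a : ℝ) := by
        rw [← Int.cast_sub, Int.toNat_sub_toNat_neg]
      push_cast at h1
      rw [mul_div_cancel₀ _ hb]
      exact h1
    · intro k
      rw [MvPolynomial.degreeOf_C]
      exact Nat.zero_le _
    · intro k
      rw [MvPolynomial.degreeOf_C]
      exact Nat.zero_le _
  | add s t ihs iht =>
    simp only [E.wf, Bool.and_eq_true] at h
    obtain ⟨P₁, Q₁, g₁⟩ := ihs h.1
    obtain ⟨P₂, Q₂, g₂⟩ := iht h.2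
    obtain ⟨g, x, y, hx, hy, hg, e1, e2, e3, e4⟩ := gcd_facts g₁.dpos g₂.dpos
    refine ⟨MvPolynomial.C y * P₁ + MvPolynomial.C x * P₂, MvPolynomial.C y * Q₁ + MvPolynomial.C x * Q₂, ?_, ?_, ?_, ?_, ?_⟩
    · intro b
      simp only [nn, e3, e4, g₁.nnb, g₂.nnb, evM_add, evM_mul, evM_C, Nat.cast_id]
    · intro ρ
      simp only [evM_add, evM_mul, evM_C, den, e3, E.val]
      have h1 := g₁.real ρ
      have h2 := g₂.real ρ
      have e1' : (den s : ℝ) = g * x := by exact_mod_cast e1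
      have e2' : (den t : ℝ) = g * y := by exact_mod_cast e2
      rw [e1'] at h1
      rw [e2'] at h2
      push_cast
      rw [e2']
      linear_combination (y : ℝ) * h1 + (x : ℝ) * h2
    · intro k
      exact deg_add_le (deg_C_mul y (g₁.degP k)) (deg_C_mul x (g₂.degP k))
    · intro k
      exact deg_add_le (deg_C_mul y (g₁.degQ k)) (deg_C_mul x (g₂.degQ k))
    · simp only [den, e3]
      exact Nat.mul_pos hx g₂.dpos
  | sub s t ihs iht =>
    simp only [E.wf, Bool.and_eq_true] at h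
    obtain ⟨P₁, Q₁, g₁⟩ := ihs h.1
    obtain ⟨P₂, Q₂, g₂⟩ := iht h.2
    obtain ⟨g, x, y, hx, hy, hg, e1, e2, e3, e4⟩ := gcd_facts g₁.dpos g₂.dpos
    refine ⟨MvPolynomial.C y * P₁ + MvPolynomial.C x * Q₂, MvPolynomial.C y * Q₁ + MvPolynomial.C x * P₂, ?_, ?_, ?_, ?_, ?_⟩
    · intro b
      simp only [nn, e3, e4, g₁.nnb, g₂.nnb, evM_add, evM_mul, evM_C, Nat.cast_id]
    · intro ρ
      simp only [evM_add, evM_mul, evM_C, den, e3, E.val]
      have h1 := g₁.real ρ
      have h2 := g₂.real ρ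
      have e1' : (den s : ℝ) = g * x := by exact_mod_cast e1
      have e2' : (den t : ℝ) = g * y := by exact_mod_cast e2
      rw [e1'] at h1
      rw [e2'] at h2
      push_cast
      rw [e2']
      linear_combination (y : ℝ) * h1 - (x : ℝ) * h2
    · intro k
      exact deg_add_le (deg_C_mul y (g₁.degP k)) (deg_C_mul x (g₂.degQ k))
    · intro k
      exact deg_add_le (deg_C_mul y (g₁.degQ k)) (deg_C_mul x (g₂.degP k))
    · simp only [den, e3]
      exact Nat.mul_pos hx g₂.dpos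
  | mul s t ihs iht =>
    simp only [E.wf, Bool.and_eq_true] at h
    obtain ⟨P₁, Q₁, g₁⟩ := ihs h.1
    obtain ⟨P₂, Q₂, g₂⟩ := iht h.2
    refine ⟨P₁ * P₂ + Q₁ * Q₂, P₁ * Q₂ + Q₁ * P₂, ?_, ?_, ?_, ?_, ?_⟩
    · intro b
      simp only [nn, g₁.nnb, g₂.nnb, evM_add, evM_mul]
    · intro ρ
      simp only [evM_add, evM_mul, den, E.val]
      have h1 := g₁.real ρ
      have h2 := g₂.real ρ
      push_cast
      linear_combination (evM ρ P₂ - evM ρ Q₂) * h1 + (den s : ℝ) * s.val ρ * h2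
    · intro k
      have h5 := deg_add_le (deg_mul_le (g₁.degP k) (g₂.degP k)) (deg_mul_le (g₁.degQ k) (g₂.degQ k))
      rw [max_self] at h5
      exact h5
    · intro k
      have h5 := deg_add_le (deg_mul_le (g₁.degP k) (g₂.degQ k)) (deg_mul_le (g₁.degQ k) (g₂.degP k))
      rw [max_self] at h5
      exact h5
    · exact Nat.mul_pos g₁.dpos g₂.dpos
  | pow s n ih =>
    simp only [E.wf] at h
    obtain ⟨P₁, Q₁, g₁⟩ := ih h
    have key : ∀ m : ℕ, ∃ P Q : MP, (∀ b : ℕ → ℕ, powN (nn b s) m = (evM b P, evM b Q)) ∧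
        (∀ ρ : ℕ → ℝ, evM ρ P - evM ρ Q = ((den s : ℝ) * s.val ρ) ^ m) ∧
        (∀ k : Fin 4, MvPolynomial.degreeOf k P ≤ m * degE k s) ∧ (∀ k : Fin 4, MvPolynomial.degreeOf k Q ≤ m * degE k s) := by
      intro m
      induction m with
      | zero =>
        refine ⟨1, 0, ?_, ?_, ?_, ?_⟩
        · intro b; simp [powN, evM_one, evM_zero]
        · intro ρ; simp [evM_one, evM_zero]
        · intro k; simp
        · intro k; simp
      | succ m ihm =>
        obtain ⟨P, Q, h1, h2, h3, h4⟩ := ihm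
        refine ⟨P₁ * P + Q₁ * Q, P₁ * Q + Q₁ * P, ?_, ?_, ?_, ?_⟩
        · intro b
          have h5 := h1 b
          simp only [powN, h5]
          rw [g₁.nnb]
          simp only [evM_add, evM_mul]
        · intro ρ
          simp only [evM_add, evM_mul, pow_succ]
          have h5 := g₁.real ρ
          have h6 := h2 ρ
          linear_combination (evM ρ P - evM ρ Q) * h5 + (den s : ℝ) * s.val ρ * h6
        · intro k
          have h5 := deg_add_le (deg_mul_le (g₁.degP k) (h3 k)) (deg_mul_le (g₁.degQ k) (h4 k))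
          rw [max_self] at h5
          refine h5.trans (le_of_eq ?_)
          ring
        · intro k
          have h5 := deg_add_le (deg_mul_le (g₁.degP k) (h4 k)) (deg_mul_le (g₁.degQ k) (h3 k))
          rw [max_self] at h5
          refine h5.trans (le_of_eq ?_)
          ring
    obtain ⟨P, Q, h1, h2, h3, h4⟩ := key n
    refine ⟨P, Q, ?_, ?_, h3, h4, ?_⟩
    · intro b
      simp only [nn, h1]
    · intro ρ
      rw [h2]
      simp only [den, E.val]
      push_cast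
      ring
    · exact Nat.pow_pos g₁.dpos

/-- the position of an exponent vector -/
def posn (D : Dim) (m : Fin 4 → ℕ) : ℕ := ((m 0 * D.L1 + m 1) * D.L2 + m 2) * D.L3 + m 3

theorem e_posn {D : Dim} (m : Fin 4 → ℕ) (hm : ∀ k : Fin 4, m k < D.L k) (k : Fin 4) : D.e k (posn D m) = m k := by
  have h0 : m 0 < D.L0 := hm 0
  have h1 : m 1 < D.L1 := hm 1
  have h2 : m 2 < D.L2 := hm 2
  have h3 : m 3 < D.L3 := hm 3
  unfold Dim.e posn
  fin_cases k
  · show (((m 0 * D.L1 + m 1) * D.L2 + m 2) * D.L3 + m 3) / (D.L1 * D.L2 * D.L3) % D.L0 = m 0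
    rw [show D.L1 * D.L2 * D.L3 = D.L3 * D.L2 * D.L1 by ring, ← Nat.div_div_eq_div_mul, ← Nat.div_div_eq_div_mul, dm1 h3, dm1 h2, dm1 h1,
      Nat.mod_eq_of_lt h0]
  · show (((m 0 * D.L1 + m 1) * D.L2 + m 2) * D.L3 + m 3) / (D.L2 * D.L3) % D.L1 = m 1
    rw [Nat.mul_comm D.L2 D.L3, ← Nat.div_div_eq_div_mul, dm1 h3, dm1 h2, dm2 h1]
  · show (((m 0 * D.L1 + m 1) * D.L2 + m 2) * D.L3 + m 3) / D.L3 % D.L2 = m 2
    rw [dm1 h3, dm2 h2]
  · show (((m 0 * D.L1 + m 1) * D.L2 + m 2) * D.L3 + m 3) / 1 % D.L3 = m 3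
    rw [Nat.div_one, dm2 h3]

theorem posn_lt {D : Dim} (m : Fin 4 → ℕ) (hm : ∀ k : Fin 4, m k < D.L k) : posn D m < D.M := by
  have h0 : m 0 < D.L0 := hm 0
  have h1 : m 1 < D.L1 := hm 1
  have h2 : m 2 < D.L2 := hm 2
  have h3 : m 3 < D.L3 := hm 3
  have key : ∀ {A B a b : ℕ}, a < A → b < B → a * B + b < A * B := by
    intro A B a b ha hb
    have : (a + 1) * B ≤ A * B := Nat.mul_le_mul_right _ ha
    rw [Nat.add_mul, Nat.one_mul] at this
    omega
  exact key (key (key h0 h1) h2) h3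

theorem posn_e {D : Dim} (hD : D.Pos) {p : ℕ} (hp : p < D.M) : posn D (fun k => D.e k p) = p := by
  show ((D.e 0 p * D.L1 + D.e 1 p) * D.L2 + D.e 2 p) * D.L3 + D.e 3 p = p
  have e0 : D.e 0 p = p / D.L3 / D.L2 / D.L1 := by
    show p / (D.L1 * D.L2 * D.L3) % D.L0 = _
    rw [show D.L1 * D.L2 * D.L3 = D.L3 * D.L2 * D.L1 by ring, ← Nat.div_div_eq_div_mul, ← Nat.div_div_eq_div_mul]
    refine Nat.mod_eq_of_lt ?_
    have hp' : p < D.L0 * D.L1 * D.L2 * D.L3 := hp
    have := hD.h1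
    have := hD.h2
    have := hD.h3
    rw [Nat.div_lt_iff_lt_mul hD.h1, Nat.div_lt_iff_lt_mul hD.h2, Nat.div_lt_iff_lt_mul hD.h3]
    exact hp'
  have e1 : D.e 1 p = p / D.L3 / D.L2 % D.L1 := by
    show p / (D.L2 * D.L3) % D.L1 = _
    rw [Nat.mul_comm D.L2 D.L3, ← Nat.div_div_eq_div_mul]
  have e2 : D.e 2 p = p / D.L3 % D.L2 := rfl
  have e3 : D.e 3 p = p % D.L3 := by
    show p / 1 % D.L3 = _
    rw [Nat.div_one]
  rw [e0, e1, e2, e3]
  have f1 := Nat.div_add_mod p D.L3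
  have f2 := Nat.div_add_mod (p / D.L3) D.L2
  have f3 := Nat.div_add_mod (p / D.L3 / D.L2) D.L1
  rw [Nat.mul_comm (p / D.L3 / D.L2 / D.L1), f3, Nat.mul_comm (p / D.L3 / D.L2), f2, Nat.mul_comm (p / D.L3), f1]

/-- the exponent vector of a position -/
noncomputable def ex (D : Dim) (p : ℕ) : Fin 4 →₀ ℕ := Finsupp.equivFunOnFinite.symm (fun k => D.e k p)

theorem ex_apply (D : Dim) (p : ℕ) (k : Fin 4) : ex D p k = D.e k p := rfl

/-- the coefficient function -/
noncomputable def cofn (D : Dim) (P : MP) (p : ℕ) : ℕ := if p < D.M then MvPolynomial.coeff (ex D p) P else 0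

theorem evM_eq {R : Type} [CommSemiring R] {D : Dim} (hD : D.Pos) (g : ℕ → R) (P : MP)
    (hP : ∀ k : Fin 4, MvPolynomial.degreeOf k P < D.L k) :
    evM g P = ∑ p ∈ range D.M, (cofn D P p : R) * ∏ k : Fin 4, g k ^ D.e k p := by
  unfold evM
  rw [MvPolynomial.eval₂_eq']
  have hinj : Set.InjOn (ex D) (range D.M : Set ℕ) := by
    intro p hp q hq hpq
    have hp' := mem_range.1 (Finset.mem_coe.1 hp)
    have hq' := mem_range.1 (Finset.mem_coe.1 hq)
    rw [← posn_e hD hp', ← posn_e hD hq']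
    congr 1
    funext k
    rw [← ex_apply, ← ex_apply, hpq]
  have hsub : P.support ⊆ (range D.M).image (ex D) := by
    intro m hm
    have hmk : ∀ k : Fin 4, m k < D.L k := fun k => (MvPolynomial.le_degreeOf_of_mem_support k hm).trans_lt (hP k)
    refine mem_image.2 ⟨posn D m, mem_range.2 (posn_lt _ hmk), ?_⟩
    ext k
    rw [ex_apply, e_posn _ hmk]
  rw [Finset.sum_subset hsub (fun m _ hm => by
    rw [MvPolynomial.notMem_support_iff.1 hm]
    simp), Finset.sum_image hinj]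
  refine Finset.sum_congr rfl fun p hp => ?_
  unfold cofn
  rw [if_pos (mem_range.1 hp)]
  simp only [ex_apply]
  rfl

theorem prod_pow_pos {K : ℕ} {D : Dim} (hD : D.Pos) {p : ℕ} (hp : p < D.M) :
    ∏ k : Fin 4, (2 ^ (K * D.s k)) ^ D.e k p = 2 ^ (K * p) := by
  have h1 : ∀ k : Fin 4, (2 ^ (K * D.s k)) ^ D.e k p = 2 ^ (K * (D.s k * D.e k p)) := by
    intro k
    rw [← pow_mul, mul_assoc]
  rw [Finset.prod_congr rfl fun k _ => h1 k, Finset.prod_pow_eq_pow_sum, ← Finset.mul_sum]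
  congr 2
  rw [Fin.sum_univ_four]
  have h2 := posn_e hD hp
  conv_rhs => rw [← h2]
  show D.s 0 * D.e 0 p + D.s 1 * D.e 1 p + D.s 2 * D.e 2 p + D.s 3 * D.e 3 p =
    ((D.e 0 p * D.L1 + D.e 1 p) * D.L2 + D.e 2 p) * D.L3 + D.e 3 p
  simp only [Dim.s]
  ring

theorem rep_of {K : ℕ} {D : Dim} (hD : D.Pos) (P : MP) (hP : ∀ k : Fin 4, MvPolynomial.degreeOf k P < D.L k) {bd : ℕ}
    (hbd : evM (fun _ => 1) P ≤ bd) : Rep K D.M (evM (fun k => 2 ^ (K * D.s k)) P) bd (cofn D P) := by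
  refine ⟨?_, ?_, ?_⟩
  · rw [evM_eq hD _ P hP]
    unfold pk
    refine Finset.sum_congr rfl fun p hp => ?_
    rw [prod_pow_pos hD (mem_range.1 hp)]
    simp
  · intro p
    by_cases hp : p < D.M
    · rw [evM_eq hD _ P hP] at hbd
      simp only [one_pow, Finset.prod_const_one, mul_one, Nat.cast_id] at hbd
      exact (Finset.single_le_sum (f := cofn D P) (fun _ _ => Nat.zero_le _) (mem_range.2 hp)).trans hbd
    · unfold cofn
      rw [if_neg hp]
      exact Nat.zero_le _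
  · intro p hp
    unfold cofn
    rw [if_neg (not_lt.2 hp)]

theorem val_of {D : Dim} (hD : D.Pos) (P : MP) (hP : ∀ k : Fin 4, MvPolynomial.degreeOf k P < D.L k) (ρ : ℕ → ℝ) :
    D.val ρ (fun _ => 1) (cofn D P) = evM ρ P := by
  rw [evM_eq hD _ P hP]
  unfold Dim.val Dim.wt
  refine Finset.sum_congr rfl fun p _ => ?_
  congr 1
  rw [Finset.prod_range]
  refine Finset.prod_congr rfl fun k _ => ?_
  rw [one_pow, mul_one]

/-- the conversion to the Bernstein form -/
def bernC (K : ℕ) (D : Dim) (N : ℕ) : ℕ :=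
  opk K D 3 1 0 1 1 (opk K D 2 1 0 1 1 (opk K D 1 1 0 1 1 (opk K D 0 1 0 1 1 N)))

def bdC (D : Dim) (bd : ℕ) : ℕ :=
  bd * (D.L 0 * 2 ^ (D.L 0 - 1)) * (D.L 1 * 2 ^ (D.L 1 - 1)) * (D.L 2 * 2 ^ (D.L 2 - 1)) * (D.L 3 * 2 ^ (D.L 3 - 1))

theorem bernC_rep {K : ℕ} {D : Dim} (hD : D.Pos) (hK : 0 < K) {N bd : ℕ} {a : ℕ → ℕ} (h : Rep K D.M N bd a)
    (hbd : bdC D bd < 2 ^ (K - 1)) (ρ : ℕ → ℝ) : ∃ a', Rep K D.M (bernC K D N) (bdC D bd) a' ∧
      D.val ρ (fun _ => 1) a = D.val ρ (fun k => if k < 4 then 1 - ρ k else 1) a' := by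
  have hKK : 2 ^ (K - 1) ≤ 2 ^ K := Nat.pow_le_pow_right (by norm_num) (by omega)
  have hmono : ∀ (k n : ℕ), n ≤ n * (D.L k * 2 ^ (D.L k - 1)) := by
    intro k n
    have h1 : 0 < D.L k * 2 ^ (D.L k - 1) := Nat.mul_pos (hD.L_pos k) (by positivity)
    exact Nat.le_mul_of_pos_right _ h1
  have hlt := hbd.trans_le hKK
  unfold bdC at hlt
  have b3 := (hmono 3 (bd * (D.L 0 * 2 ^ (D.L 0 - 1)) * (D.L 1 * 2 ^ (D.L 1 - 1)) * (D.L 2 * 2 ^ (D.L 2 - 1)))).trans_lt hlt
  have b2 := (hmono 2 (bd * (D.L 0 * 2 ^ (D.L 0 - 1)) * (D.L 1 * 2 ^ (D.L 1 - 1)))).trans_lt b3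
  have b1 := (hmono 1 (bd * (D.L 0 * 2 ^ (D.L 0 - 1)))).trans_lt b2
  have b0 := (hmono 0 bd).trans_lt b1
  have r1 := Rep.opk hD hK (k := 0) (by norm_num) h b0 1 0 1 1 2 (by norm_num) (by norm_num)
  have r2 := Rep.opk hD hK (k := 1) (by norm_num) r1 b1 1 0 1 1 2 (by norm_num) (by norm_num)
  have r3 := Rep.opk hD hK (k := 2) (by norm_num) r2 b2 1 0 1 1 2 (by norm_num) (by norm_num)
  have r4 := Rep.opk hD hK (k := 3) (by norm_num) r3 b3 1 0 1 1 2 (by norm_num) (by norm_num)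
  refine ⟨_, r4, ?_⟩
  have step : ∀ (V : ℕ → ℝ) (k : ℕ) (hk : k < 4) (hV : V k = 1) (c : ℕ → ℕ), D.val ρ V c =
      D.val ρ (Function.update V k (1 - ρ k)) (opa (D.H k) (D.L k) (D.s k) 1 0 1 1 c) := by
    intro V k hk hV c
    have h1 := Dim.val_op hD (U := ρ) (V := V) hk (α := 1) (β := 0) (γ := 1) (δ := 1) (u := ρ k) (v := 1 - ρ k)
      (by push_cast; ring) (by rw [hV]; push_cast; ring) c
    rwa [Function.update_eq_self] at h1
  rw [step _ 0 (by norm_num) rfl, step _ 1 (by norm_num) (by simp), step _ 2 (by norm_num) (by simp),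
    step _ 3 (by norm_num) (by simp)]
  congr 1
  funext k
  by_cases hk : k < 4
  · rw [if_pos hk]
    interval_cases k <;> simp
  · rw [if_neg hk]
    rw [Function.update_of_ne (by omega), Function.update_of_ne (by omega), Function.update_of_ne (by omega),
      Function.update_of_ne (by omega)]

/-- the bases -/
def bs (K : ℕ) (D : Dim) (k : ℕ) : ℕ := 2 ^ (K * D.s k)

/-- THE CHECKER -/
def verify (K : ℕ) (D : Dim) (e : E) (T : Tree) : Bool :=
  e.wf 4 && (Nat.ble 1 K && (Nat.ble (degE 0 e + 1) D.L0 && (Nat.ble (degE 1 e + 1) D.L1 && (Nat.ble (degE 2 e + 1) D.L2 &&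
    (Nat.ble (degE 3 e + 1) D.L3 &&
    (Nat.ble (bdC D ((nn (fun _ => 1) e).1 + (nn (fun _ => 1) e).2) + 1) (2 ^ (K - 1)) &&
      chk K D T (bernC K D (nn (bs K D) e).1) (bernC K D (nn (bs K D) e).2) (bdC D ((nn (fun _ => 1) e).1 + (nn (fun _ => 1) e).2))))))))

theorem verify_pos {K : ℕ} {D : Dim} {e : E} {T : Tree} (h : verify K D e T = true) (ρ : ℕ → ℝ)
    (hρ : ∀ i, 0 ≤ ρ i ∧ ρ i ≤ 1) : 0 ≤ e.val ρ := by
  simp only [verify, Bool.and_eq_true] at h
  obtain ⟨hwf, hK, d0, d1, d2, d3, hbd, hchk⟩ := h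
  have hK' : 0 < K := Nat.le_of_ble_eq_true hK
  have d0' : degE 0 e < D.L0 := Nat.le_of_ble_eq_true d0
  have d1' : degE 1 e < D.L1 := Nat.le_of_ble_eq_true d1
  have d2' : degE 2 e < D.L2 := Nat.le_of_ble_eq_true d2
  have d3' : degE 3 e < D.L3 := Nat.le_of_ble_eq_true d3
  have hbd' := Nat.le_of_ble_eq_true hbd
  have hD : D.Pos := ⟨by omega, by omega, by omega, by omega⟩
  obtain ⟨P, Q, g⟩ := good_exists e hwf
  have hdeg : ∀ k : Fin 4, degE k e < D.L k := by
    intro k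
    fin_cases k
    · exact d0'
    · exact d1'
    · exact d2'
    · exact d3'
  have hP : ∀ k : Fin 4, MvPolynomial.degreeOf k P < D.L k := fun k => (g.degP k).trans_lt (hdeg k)
  have hQ : ∀ k : Fin 4, MvPolynomial.degreeOf k Q < D.L k := fun k => (g.degQ k).trans_lt (hdeg k)
  have n1 := g.nnb (fun _ => 1)
  have nB := g.nnb (bs K D)
  rw [n1, nB] at hchk
  rw [n1] at hbd'
  simp only at hchk hbd'
  set bd := evM (fun _ => 1) P + evM (fun _ => 1) Q with hbdef
  have rP := rep_of (K := K) hD P hP (bd := bd) (Nat.le_add_right _ _)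
  have rQ := rep_of (K := K) hD Q hQ (bd := bd) (Nat.le_add_left _ _)
  obtain ⟨a, ra, va⟩ := bernC_rep hD hK' rP hbd' ρ
  obtain ⟨b, rb, vb⟩ := bernC_rep hD hK' rQ hbd' ρ
  rw [val_of hD P hP] at va
  rw [val_of hD Q hQ] at vb
  have h1 := chk_pos hD hK' T ra rb hbd' hchk (U := ρ) (V := fun k => if k < 4 then 1 - ρ k else 1) (fun k => (hρ k).1)
    (fun k => by
      show 0 ≤ if k < 4 then 1 - ρ k else 1
      split_ifs
      · linarith [(hρ k).2]
      · exact zero_le_one)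
  rw [← va, ← vb] at h1
  have h2 := g.real ρ
  have h3 : 0 ≤ (den e : ℝ) * e.val ρ := by rw [← h2]; linarith
  exact nonneg_of_mul_nonneg_right h3 (by exact_mod_cast g.dpos)

end Pool.Agent.RX.RCM9.Pk
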