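import Mathlib

/-! MP_73ccd0_lc, route (M): the T-sum lemma and the Schur (M-effect) lemma. -/

set_option autoImplicit false

namespace Pool.Agent.RX.RCM9

open Finset

/-- a symmetric nonnegative weight matrix with zero diagonal and row sums at most one -/
structure SubW {V : Type*} [Fintype V] (x : V → V → ℝ) : Prop where
  symm : ∀ a b, x a b = x b a
  nonneg : ∀ a b, 0 ≤ x a b
  diag : ∀ a, x a a = 0
  row : ∀ a, ∑ b, x a b ≤ 1

section

variable {V : Type*} [Fintype V] [DecidableEq V] {x : V → V → ℝ}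

theorem SubW.row_erase (hx : SubW x) (a b : V) : ∑ c ∈ univ.erase a, x b c ≤ 1 - x a b := by
  have h1 := hx.row b
  rw [← Finset.add_sum_erase univ (fun c => x b c) (mem_univ a)] at h1
  rw [hx.symm a b]
  linarith

theorem SubW.le_one (hx : SubW x) (a b : V) : x a b ≤ 1 :=
  (Finset.single_le_sum (f := fun b => x a b) (fun b _ => hx.nonneg a b) (mem_univ b)).trans (hx.row a)

/-- two edges at a common vertex -/
theorem SubW.two (hx : SubW x) {a b c : V} (hac : a ≠ c) : x a b + x b c ≤ 1 := by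
  have h1 := hx.row b
  have h2 : x b a + x b c ≤ ∑ d, x b d := by
    rw [← Finset.sum_pair hac (f := fun d => x b d)]
    exact Finset.sum_le_sum_of_subset_of_nonneg (Finset.subset_univ _) (fun d _ _ => hx.nonneg b d)
  rw [hx.symm a b]
  linarith

/-- the abstract T-sum lemma -/
theorem tsum_gen (hx : SubW x) (m : ℝ → ℝ → ℝ) (M : ℝ → ℝ)
    (hm : ∀ u v z, 0 ≤ u → 0 ≤ z → u + z ≤ 1 → v + z ≤ 1 → u ≤ v → u * m u z ≤ v * m v z)
    (hM : ∀ u z, 0 ≤ u → 0 ≤ z → u + z ≤ 1 → m u z ≤ M u) (hM0 : ∀ u, 0 ≤ u → u ≤ 1 → 0 ≤ M u) (a : V) :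
    ∑ b, ∑ c, x a b * x a c * x b c * m (x a c) (x b c) ≤ ∑ b, x a b ^ 2 * (1 - x a b) * M (x a b) := by
  set T : Finset V := univ.erase a with hT
  have hmemT : ∀ b, b ∈ T ↔ b ≠ a := by intro b; simp [hT]
  -- reduction to T
  have e1 : ∑ b, ∑ c, x a b * x a c * x b c * m (x a c) (x b c) =
      ∑ b ∈ T, ∑ c ∈ T, x a b * x a c * x b c * m (x a c) (x b c) := by
    rw [← Finset.add_sum_erase univ _ (mem_univ a)]
    have h0 : ∑ c, x a a * x a c * x a c * m (x a c) (x a c) = 0 :=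
      Finset.sum_eq_zero fun c _ => by rw [hx.diag]; ring
    rw [h0, zero_add]
    refine Finset.sum_congr rfl fun b _ => ?_
    rw [← Finset.add_sum_erase univ _ (mem_univ a)]
    have h1 : x a b * x a a * x b a * m (x a a) (x b a) = 0 := by rw [hx.diag]; ring
    rw [h1, zero_add]
  have e2 : ∑ b ∈ T, ∑ c ∈ T, x a b * x a c * x b c * m (x a c) (x b c) =
      ∑ b ∈ T, ∑ c ∈ T, x a b * x a c * x b c * m (x a b) (x b c) := by
    rw [Finset.sum_comm]
    refine Finset.sum_congr rfl fun b _ => Finset.sum_congr rfl fun c _ => ?_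
    rw [hx.symm c b]
    ring
  have e3 : ∑ b ∈ T, ∑ c ∈ T, x b c * x a c ^ 2 * m (x a c) (x b c) =
      ∑ b ∈ T, ∑ c ∈ T, x b c * x a b ^ 2 * m (x a b) (x b c) := by
    rw [Finset.sum_comm]
    refine Finset.sum_congr rfl fun b _ => Finset.sum_congr rfl fun c _ => ?_
    rw [hx.symm c b]
  -- the pairing
  have key : ∀ b ∈ T, ∀ c ∈ T, x a b * x a c * x b c * m (x a c) (x b c) + x a b * x a c * x b c * m (x a b) (x b c) ≤
      x b c * x a b ^ 2 * m (x a b) (x b c) + x b c * x a c ^ 2 * m (x a c) (x b c) := by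
    intro b hb c hc
    have hb' : a ≠ b := fun h => ((hmemT b).1 hb) h.symm
    have hc' : a ≠ c := fun h => ((hmemT c).1 hc) h.symm
    have hz := hx.nonneg b c
    have hu := hx.nonneg a b
    have hv := hx.nonneg a c
    have huz : x a b + x b c ≤ 1 := hx.two hc'
    have hvz : x a c + x b c ≤ 1 := by
      have := hx.two (a := a) (b := c) (c := b) hb'
      rwa [hx.symm c b] at this
    have hprod : 0 ≤ (x a b - x a c) * (x a b * m (x a b) (x b c) - x a c * m (x a c) (x b c)) := by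
      rcases le_total (x a b) (x a c) with h | h
      · have h1 := hm _ _ _ hu hz huz hvz h
        nlinarith [mul_nonneg (sub_nonneg.2 h) (sub_nonneg.2 h1)]
      · have h1 := hm _ _ _ hv hz hvz huz h
        exact mul_nonneg (sub_nonneg.2 h) (sub_nonneg.2 h1)
    have h2 := mul_nonneg hz hprod
    nlinarith [h2]
  have hsum : ∑ b ∈ T, ∑ c ∈ T, x a b * x a c * x b c * m (x a c) (x b c) ≤
      ∑ b ∈ T, ∑ c ∈ T, x b c * x a b ^ 2 * m (x a b) (x b c) := by
    have h1 : ∑ b ∈ T, ∑ c ∈ T, (x a b * x a c * x b c * m (x a c) (x b c) + x a b * x a c * x b c * m (x a b) (x b c)) ≤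
        ∑ b ∈ T, ∑ c ∈ T, (x b c * x a b ^ 2 * m (x a b) (x b c) + x b c * x a c ^ 2 * m (x a c) (x b c)) :=
      Finset.sum_le_sum fun b hb => Finset.sum_le_sum fun c hc => key b hb c hc
    simp only [Finset.sum_add_distrib] at h1
    rw [← e2, e3] at h1
    linarith
  rw [e1]
  refine hsum.trans ?_
  have hrest : ∑ b ∈ T, x a b ^ 2 * (1 - x a b) * M (x a b) ≤ ∑ b, x a b ^ 2 * (1 - x a b) * M (x a b) := by
    refine Finset.sum_le_sum_of_subset_of_nonneg (Finset.subset_univ _) fun b _ _ => ?_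
    have h1 := hx.le_one a b
    have h2 := hM0 _ (hx.nonneg a b) h1
    have h3 : 0 ≤ 1 - x a b := by linarith
    positivity
  refine le_trans (Finset.sum_le_sum fun b hb => ?_) hrest
  have hb' : b ≠ a := (hmemT b).1 hb
  have hrow := hx.row_erase a b
  rw [← hT] at hrow
  have hM1 : 0 ≤ M (x a b) := hM0 _ (hx.nonneg a b) (hx.le_one a b)
  calc ∑ c ∈ T, x b c * x a b ^ 2 * m (x a b) (x b c) ≤ ∑ c ∈ T, x b c * (x a b ^ 2 * M (x a b)) := by
        refine Finset.sum_le_sum fun c hc => ?_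
        have hc' : a ≠ c := fun h => ((hmemT c).1 hc) h.symm
        have h1 := hM _ _ (hx.nonneg a b) (hx.nonneg b c) (hx.two hc')
        rw [mul_assoc]
        exact mul_le_mul_of_nonneg_left (mul_le_mul_of_nonneg_left h1 (sq_nonneg _)) (hx.nonneg b c)
    _ = (∑ c ∈ T, x b c) * (x a b ^ 2 * M (x a b)) := (Finset.sum_mul _ _ _).symm
    _ ≤ (1 - x a b) * (x a b ^ 2 * M (x a b)) := mul_le_mul_of_nonneg_right hrow (by positivity)
    _ = x a b ^ 2 * (1 - x a b) * M (x a b) := by ring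

end

end Pool.Agent.RX.RCM9
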